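import Pool.Agent.Lib_helper5.P7.Cong

/-!
Period seven: codes of the classes, kernel functions for the forms of a class and the value of a
reduced relation on classes.
-/

namespace Pool.Agent.LibH4.S7

open Pool.Agent.Lib_helper5 Pool.Agent.Lib_helper5.LK Pool.Agent.Lib_helper5.TB
  Pool.Agent.LibH4.Ker

/-! ### codes -/

/-- code of a class -/
def cd (n : ℕ) (a b c B m : ℤ) : ℕ :=
  rs n a + n * (rs n b + n * (rs n c + n * (rs n B + n * rs n m)))

/-- code from residues -/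
def ck (n a b c B m : ℕ) : ℕ :=
  Nat.add a (Nat.mul n (Nat.add b (Nat.mul n (Nat.add c (Nat.mul n (Nat.add B (Nat.mul n m)))))))

/-- residue of `a` -/
def ca (n k : ℕ) : ℕ := Nat.mod k n
/-- residue of `b` -/
def cb (n k : ℕ) : ℕ := Nat.mod (Nat.div k n) n
/-- residue of `c` -/
def cc (n k : ℕ) : ℕ := Nat.mod (Nat.div k (Nat.mul n n)) n
/-- residue of `B` -/
def cB (n k : ℕ) : ℕ := Nat.mod (Nat.div k (Nat.mul n (Nat.mul n n))) n
/-- residue of `m` -/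
def cm (n k : ℕ) : ℕ := Nat.div k (Nat.mul n (Nat.mul n (Nat.mul n n)))

section Dec

variable {n : ℕ} [NeZero n] {a b c B m : ℤ}

lemma dec_aux (x y : ℕ) (hx : x < n) : (x + n * y) % n = x ∧ (x + n * y) / n = y := by
  have hn : 0 < n := Nat.pos_of_ne_zero (NeZero.ne n)
  constructor
  · rw [Nat.add_mul_mod_self_left, Nat.mod_eq_of_lt hx]
  · rw [Nat.add_mul_div_left _ _ hn, Nat.div_eq_of_lt hx, zero_add]

lemma ca_cd : ca n (cd n a b c B m) = rs n a := (dec_aux _ _ (rs_lt a)).1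

lemma cb_cd : cb n (cd n a b c B m) = rs n b := by
  change cd n a b c B m / n % n = _
  unfold cd
  rw [(dec_aux _ _ (rs_lt a)).2, (dec_aux _ _ (rs_lt b)).1]

lemma cc_cd : cc n (cd n a b c B m) = rs n c := by
  change cd n a b c B m / (n * n) % n = _
  unfold cd
  rw [← Nat.div_div_eq_div_mul, (dec_aux _ _ (rs_lt a)).2, (dec_aux _ _ (rs_lt b)).2,
    (dec_aux _ _ (rs_lt c)).1]

lemma cB_cd : cB n (cd n a b c B m) = rs n B := by
  change cd n a b c B m / (n * (n * n)) % n = _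
  unfold cd
  rw [← Nat.div_div_eq_div_mul, ← Nat.div_div_eq_div_mul, (dec_aux _ _ (rs_lt a)).2,
    (dec_aux _ _ (rs_lt b)).2, (dec_aux _ _ (rs_lt c)).2, (dec_aux _ _ (rs_lt B)).1]

lemma cm_cd : cm n (cd n a b c B m) = rs n m := by
  change cd n a b c B m / (n * (n * (n * n))) = _
  unfold cd
  rw [← Nat.div_div_eq_div_mul, ← Nat.div_div_eq_div_mul, ← Nat.div_div_eq_div_mul,
    (dec_aux _ _ (rs_lt a)).2, (dec_aux _ _ (rs_lt b)).2, (dec_aux _ _ (rs_lt c)).2,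
    (dec_aux _ _ (rs_lt B)).2]

end Dec

/-! ### forms modulo `n` from residues -/

/-- `-x` modulo `n` -/
def ng (n x : ℕ) : ℕ := Nat.mod (Nat.mul (Nat.sub n (nat_lit 1)) x) n
/-- `m₂` -/
def u2 (n a B m : ℕ) : ℕ :=
  Nat.mod (Nat.add (Nat.add (nat_lit 1) (Nat.mul B a))
    (Nat.mul (Nat.sub n (nat_lit 1)) (Nat.mul m (Nat.mul a a)))) n
/-- `R₂` -/
def v2 (n a B m : ℕ) : ℕ :=
  Nat.mod (Nat.add (Nat.mul (nat_lit 2) (Nat.mul a m)) (Nat.mul (Nat.sub n (nat_lit 1)) B)) n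
/-- `m₃` -/
def u3 (n b m m2 R2 : ℕ) : ℕ :=
  Nat.mod (Nat.add (Nat.add m (Nat.mul R2 b))
    (Nat.mul (Nat.sub n (nat_lit 1)) (Nat.mul m2 (Nat.mul b b)))) n
/-- `R₃` and `R₄` -/
def v3 (n b m2 R2 : ℕ) : ℕ :=
  Nat.mod (Nat.add (Nat.mul (nat_lit 2) (Nat.mul b m2)) (Nat.mul (Nat.sub n (nat_lit 1)) R2)) n

section Res

variable {n : ℕ} [NeZero n] {a b c B m : ℤ}

lemma ng_eq (x : ℤ) : ng n (rs n x) = rs n (-x) := by
  change (n - 1) * rs n x % n = _
  apply rs_of; push_cast; simp only [rs_cast, K5.cast_pred]; ring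

lemma u2_eq : u2 n (rs n a) (rs n B) (rs n m) = rs n (y2 a B m) := by
  change (1 + rs n B * rs n a + (n - 1) * (rs n m * (rs n a * rs n a))) % n = _
  apply rs_of; push_cast; simp only [rs_cast, K5.cast_pred]; unfold y2; push_cast; ring

lemma v2_eq : v2 n (rs n a) (rs n B) (rs n m) = rs n (r2 a B m) := by
  change (2 * (rs n a * rs n m) + (n - 1) * rs n B) % n = _
  apply rs_of; push_cast; simp only [rs_cast, K5.cast_pred]; unfold r2; push_cast; ring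

lemma u3_eq : u3 n (rs n b) (rs n m) (rs n (y2 a B m)) (rs n (r2 a B m)) =
    rs n (y3 a b B m) := by
  change (rs n m + rs n (r2 a B m) * rs n b + (n - 1) * (rs n (y2 a B m) *
    (rs n b * rs n b))) % n = _
  apply rs_of; push_cast; simp only [rs_cast, K5.cast_pred]; unfold y3; push_cast; ring

lemma v3_eq : v3 n (rs n b) (rs n (y2 a B m)) (rs n (r2 a B m)) = rs n (r3 a b B m) := by
  change (2 * (rs n b * rs n (y2 a B m)) + (n - 1) * rs n (r2 a B m)) % n = _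
  apply rs_of; push_cast; simp only [rs_cast, K5.cast_pred]; unfold r3; push_cast; ring

lemma v4_eq : v3 n (rs n c) (rs n (y3 a b B m)) (rs n (r3 a b B m)) = rs n (r4 a b c B m) := by
  change (2 * (rs n c * rs n (y3 a b B m)) + (n - 1) * rs n (r3 a b B m)) % n = _
  apply rs_of; push_cast; simp only [rs_cast, K5.cast_pred]; unfold r4; push_cast; ring

end Res

/-! ### forms of a code -/

/-- selection -/
def sel5 (x0 x1 x2 x3 x4 : ℕ) (j : ℕ) : ℕ :=
  @Nat.rec (fun _ => ℕ) x0 (fun j _ => @Nat.rec (fun _ => ℕ) x1 (fun j _ =>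
    @Nat.rec (fun _ => ℕ) x2 (fun j _ => @Nat.rec (fun _ => ℕ) x3 (fun _ _ => x4) j) j) j) j

/-- `m₂` of a code -/
def d2 (n k : ℕ) : ℕ := u2 n (ca n k) (cB n k) (cm n k)
/-- `R₂` of a code -/
def e2 (n k : ℕ) : ℕ := v2 n (ca n k) (cB n k) (cm n k)
/-- `m₃` of a code -/
def d3 (n k : ℕ) : ℕ := u3 n (cb n k) (cm n k) (d2 n k) (e2 n k)
/-- `R₃` of a code -/
def e3 (n k : ℕ) : ℕ := v3 n (cb n k) (d2 n k) (e2 n k)
/-- `R₄` of a code -/
def e4 (n k : ℕ) : ℕ := v3 n (cc n k) (d3 n k) (e3 n k)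

/-- `P` of the form `j` -/
def fP (n k j : ℕ) : ℕ := sel5 (cm n k) (Nat.mod (nat_lit 1) n) (cm n k) (d2 n k) (d3 n k) j
/-- `R` of the form `j` -/
def fR (n k j : ℕ) : ℕ := sel5 (cB n k) (cB n k) (e2 n k) (e3 n k) (e4 n k) j
/-- `S` of the form `j` -/
def fS (n k j : ℕ) : ℕ :=
  sel5 (Nat.mod (Nat.sub n (nat_lit 1)) n) (ng n (cm n k)) (ng n (d2 n k)) (ng n (d3 n k))
    (ng n (d3 n k)) j
/-- `α` of the form `j` -/
def fA (n k j : ℕ) : ℕ :=
  sel5 (ng n (cB n k)) (ng n (Nat.mul (nat_lit 2) (ca n k))) (ng n (Nat.mul (nat_lit 2) (cb n k)))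
    (ng n (Nat.mul (nat_lit 2) (cc n k))) (nat_lit 0) j
/-- `κ` of the form `j` -/
def fK (j : ℕ) : ℕ := sel5 (nat_lit 0) (nat_lit 6) (nat_lit 6) (nat_lit 6) (nat_lit 3) j

lemma J7_len (a b c B m : ℤ) : (J7 a b c B m).length = 5 := rfl

section Forms

variable {n : ℕ} [NeZero n] {a b c B m : ℤ}

lemma d2_cd : d2 n (cd n a b c B m) = rs n (y2 a B m) := by
  unfold d2; rw [ca_cd, cB_cd, cm_cd, u2_eq]
lemma e2_cd : e2 n (cd n a b c B m) = rs n (r2 a B m) := by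
  unfold e2; rw [ca_cd, cB_cd, cm_cd, v2_eq]
lemma d3_cd : d3 n (cd n a b c B m) = rs n (y3 a b B m) := by
  unfold d3; rw [cb_cd, cm_cd, d2_cd, e2_cd, u3_eq]
lemma e3_cd : e3 n (cd n a b c B m) = rs n (r3 a b B m) := by
  unfold e3; rw [cb_cd, d2_cd, e2_cd, v3_eq]
lemma e4_cd : e4 n (cd n a b c B m) = rs n (r4 a b c B m) := by
  unfold e4; rw [cc_cd, d3_cd, e3_cd, v4_eq]

lemma ng2_eq (x : ℤ) : ng n (Nat.mul (nat_lit 2) (rs n x)) = rs n (-(2 * x)) := by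
  change (n - 1) * (2 * rs n x) % n = _
  apply rs_of; push_cast; simp only [rs_cast, K5.cast_pred]; ring

lemma rsn_one : Nat.mod (nat_lit 1) n = rs n 1 := rs_one'

lemma rsn_neg_one : Nat.mod (Nat.sub n (nat_lit 1)) n = rs n (-1) := by
  change (n - 1) % n = _
  apply rs_of
  rw [K5.cast_pred]
  push_cast
  ring

lemma rsn_zero : (nat_lit 0) = rs n (0 : ℤ) := by
  unfold rs
  rw [Int.cast_zero, ZMod.val_zero]

/-- the five forms -/
def jf (a b c B m : ℤ) (j : ℕ) : Fm := ((J7 a b c B m)[j]?).getD ⟨0, 0, 0, 0, 0⟩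

lemma fP_cd {j : ℕ} (hj : j < 5) : fP n (cd n a b c B m) j = rs n (jf a b c B m j).P := by
  unfold fP
  rw [cm_cd, d2_cd, d3_cd, rsn_one]
  interval_cases j <;> rfl

lemma fR_cd {j : ℕ} (hj : j < 5) : fR n (cd n a b c B m) j = rs n (jf a b c B m j).R := by
  unfold fR
  rw [cB_cd, e2_cd, e3_cd, e4_cd]
  interval_cases j <;> rfl

lemma fS_cd {j : ℕ} (hj : j < 5) : fS n (cd n a b c B m) j = rs n (jf a b c B m j).S := by
  unfold fS
  rw [cm_cd, d2_cd, d3_cd, rsn_neg_one, ng_eq, ng_eq, ng_eq]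
  interval_cases j <;> rfl

lemma fA_cd {j : ℕ} (hj : j < 5) : fA n (cd n a b c B m) j = rs n (jf a b c B m j).α := by
  unfold fA
  rw [ca_cd, cb_cd, cc_cd, cB_cd, ng_eq, ng2_eq, ng2_eq, ng2_eq, rsn_zero (n := n)]
  interval_cases j <;> rfl

lemma fK_cd {j : ℕ} (hj : j < 5) : fK j = (jf a b c B m j).κ := by
  interval_cases j <;> rfl

end Forms

/-! ### relations -/

/-- a reduced relation -/
structure Rl where
  /-- component -/
  n1 : ℕ
  /-- component -/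
  n2 : ℕ
  /-- component -/
  n3 : ℕ
  /-- modulus of the values -/
  l : ℕ
  /-- exponent of the inverse -/
  ex1 : ℕ
  /-- exponent of the inverse -/
  ex2 : ℕ
  /-- exponent of the inverse -/
  ex3 : ℕ
  /-- positions -/
  PT1 : ℕ
  /-- positions -/
  PT2 : ℕ
  /-- positions -/
  PT3 : ℕ
  /-- character -/
  t1 : ℕ
  /-- character -/
  t2 : ℕ
  /-- character -/
  t3 : ℕ
  /-- table -/
  rows : List (ℕ × ℕ)
  /-- length of the inner dimension of the table -/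
  len3 : ℕ

/-- value of a form -/
def Rl.val (r : Rl) (j : Fm) : ℕ :=
  fval r.n1 r.n2 r.n3 r.l r.ex1 r.ex2 r.ex3 r.PT1 r.PT2 r.PT3 r.t1 r.t2 r.t3 r.rows r.len3 j

/-- the relation holds -/
def Holds (r : Rl) (a b c B m : ℤ) : Prop := ((J7 a b c B m).map r.val).sum % r.l = 0

/-- position of the form `j` of a code modulo `N` for the component `n` -/
def cq (n ex PT N k j : ℕ) : ℕ :=
  pos n ex PT (Nat.mod (fP N k j) n) (Nat.mod (fR N k j) n) (Nat.mod (fS N k j) n)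

/-- character of the form `j` of a code modulo `N` for the component `n` -/
def cx (n t N k j : ℕ) : ℕ := dig t (Nat.mod (fP N k j) n)

lemma rs_mod {n N : ℕ} [NeZero n] [NeZero N] (h : n ∣ N) (x : ℤ) : rs N x % n = rs n x := by
  apply rs_of
  have h1 : ((rs N x : ℕ) : ℤ) = x % N := by
    unfold rs
    rw [ZMod.val_intCast]
  have h2 : ((rs N x : ℕ) : ZMod n) = (((rs N x : ℕ) : ℤ) : ZMod n) := by push_cast; rfl
  rw [h2, h1, ZMod.intCast_eq_intCast_iff]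
  exact (Int.mod_modEq x N).of_dvd (Int.natCast_dvd_natCast.2 h)

section Cq

variable {n N : ℕ} [NeZero n] [NeZero N] {a b c B m : ℤ}

lemma cq_cd (h : n ∣ N) (ex PT : ℕ) {j : ℕ} (hj : j < 5) :
    cq n ex PT N (cd N a b c B m) j =
      pos n ex PT (rs n (jf a b c B m j).P) (rs n (jf a b c B m j).R)
        (rs n (jf a b c B m j).S) := by
  unfold cq
  rw [fP_cd hj, fR_cd hj, fS_cd hj]
  change pos n ex PT (rs N _ % n) (rs N _ % n) (rs N _ % n) = _
  rw [rs_mod h, rs_mod h, rs_mod h]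

lemma cx_cd (h : n ∣ N) (t : ℕ) {j : ℕ} (hj : j < 5) :
    cx n t N (cd N a b c B m) j = dig t (rs n (jf a b c B m j).P) := by
  unfold cx
  rw [fP_cd hj]
  change dig t (rs N _ % n) = _
  rw [rs_mod h]

end Cq

/-- the term of the form `j` of a relation in terms of codes -/
def tm (r : Rl) (N1 N2 N3 Nl k1 k2 k3 kl j : ℕ) : ℕ :=
  cx r.n1 r.t1 N1 k1 j * cx r.n2 r.t2 N2 k2 j * cx r.n3 r.t3 N3 k3 j *
    (fK j * tX r.rows r.len3 (cq r.n1 r.ex1 r.PT1 N1 k1 j) (cq r.n2 r.ex2 r.PT2 N2 k2 j)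
      (cq r.n3 r.ex3 r.PT3 N3 k3 j) +
    fA Nl kl j * tY r.rows r.len3 (cq r.n1 r.ex1 r.PT1 N1 k1 j) (cq r.n2 r.ex2 r.PT2 N2 k2 j)
      (cq r.n3 r.ex3 r.PT3 N3 k3 j))

/-- **the relation in terms of codes** -/
theorem Holds.tm {r : Rl} {a b c B m : ℤ} (h : Holds r a b c B m) {N1 N2 N3 : ℕ}
    [NeZero r.n1] [NeZero r.n2] [NeZero r.n3] [NeZero r.l] [NeZero N1] [NeZero N2] [NeZero N3]
    (h1 : r.n1 ∣ N1) (h2 : r.n2 ∣ N2) (h3 : r.n3 ∣ N3) :
    (tm r N1 N2 N3 r.l (cd N1 a b c B m) (cd N2 a b c B m) (cd N3 a b c B m)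
        (cd r.l a b c B m) 0 +
      (tm r N1 N2 N3 r.l (cd N1 a b c B m) (cd N2 a b c B m) (cd N3 a b c B m)
        (cd r.l a b c B m) 1 +
      (tm r N1 N2 N3 r.l (cd N1 a b c B m) (cd N2 a b c B m) (cd N3 a b c B m)
        (cd r.l a b c B m) 2 +
      (tm r N1 N2 N3 r.l (cd N1 a b c B m) (cd N2 a b c B m) (cd N3 a b c B m)
        (cd r.l a b c B m) 3 +
      tm r N1 N2 N3 r.l (cd N1 a b c B m) (cd N2 a b c B m) (cd N3 a b c B m)
        (cd r.l a b c B m) 4)))) % r.l = 0 := by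
  have key : ∀ j < 5, S7.tm r N1 N2 N3 r.l (cd N1 a b c B m) (cd N2 a b c B m)
      (cd N3 a b c B m) (cd r.l a b c B m) j = r.val (jf a b c B m j) := by
    intro j hj
    unfold S7.tm Rl.val fval
    rw [cx_cd h1 _ hj, cx_cd h2 _ hj, cx_cd h3 _ hj, cq_cd h1 _ _ hj, cq_cd h2 _ _ hj,
      cq_cd h3 _ _ hj, fA_cd hj, fK_cd (a := a) (b := b) (c := c) (B := B) (m := m) hj]
  rw [key 0 (by norm_num), key 1 (by norm_num), key 2 (by norm_num), key 3 (by norm_num),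
    key 4 (by norm_num)]
  have h' := h
  unfold Holds J7 at h'
  simp only [List.map_cons, List.map_nil, List.sum_cons, List.sum_nil, add_zero] at h'
  exact h'

end Pool.Agent.LibH4.S7
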