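import Pool.Agent.Lib_helper4.S7.EngSpec

/-!
Period seven: the loop over the classes modulo a prime.
-/

namespace Pool.Agent.LibH4.S7

open Pool.Agent.Lib_helper5 Pool.Agent.Lib_helper5.LK Pool.Agent.Lib_helper5.TB
  Pool.Agent.Lib_helper5.Lane Pool.Agent.LibH4.Ker

/-- solutions of the closing condition -/
def roots (p m2 R3 m3 : ℕ) : List ℕ :=
  @Nat.rec (fun _ => List ℕ) [] (fun c ih => @Bool.rec (fun _ => List ℕ) ih (c :: ih)
    (Nat.beq (Nat.mod (Nat.mul m3 (Nat.add (nat_lit 1) (Nat.mul c c))) p)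
      (Nat.mod (Nat.add m2 (Nat.mul R3 c)) p))) p

lemma mem_roots_aux {p m2 R3 m3 n c : ℕ} (hc : c < n)
    (h : m3 * (1 + c * c) % p = (m2 + R3 * c) % p) :
    c ∈ @Nat.rec (fun _ => List ℕ) [] (fun c ih => @Bool.rec (fun _ => List ℕ) ih (c :: ih)
    (Nat.beq (Nat.mod (Nat.mul m3 (Nat.add (nat_lit 1) (Nat.mul c c))) p)
      (Nat.mod (Nat.add m2 (Nat.mul R3 c)) p))) n := by
  induction n with
  | zero => omega
  | succ n ih =>
    rcases Nat.lt_succ_iff_lt_or_eq.1 hc with h1 | h1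
    · have h2 := ih h1
      simp only
      cases hb : Nat.beq (Nat.mod (Nat.mul m3 (Nat.add (nat_lit 1) (Nat.mul n n))) p)
        (Nat.mod (Nat.add m2 (Nat.mul R3 n)) p) with
      | false => exact h2
      | true => exact List.mem_cons_of_mem _ h2
    · subst h1
      have hb : Nat.beq (Nat.mod (Nat.mul m3 (Nat.add (nat_lit 1) (Nat.mul c c))) p)
        (Nat.mod (Nat.add m2 (Nat.mul R3 c)) p) = true := by
        change Nat.beq (m3 * (1 + c * c) % p) ((m2 + R3 * c) % p) = true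
        rw [h]
        exact Nat.beq_refl _
      simp only
      rw [hb]
      exact List.mem_cons_self

lemma mem_roots {p : ℕ} [NeZero p] {a b c B m : ℤ} (h : Cl a b c B m) :
    rs p c ∈ roots p (rs p (y2 a B m)) (rs p (r3 a b B m)) (rs p (y3 a b B m)) := by
  apply mem_roots_aux (rs_lt c)
  have e1 : rs p (y3 a b B m) * (1 + rs p c * rs p c) % p = rs p (y3 a b B m * (1 + c * c)) := by
    apply rs_of; push_cast; simp only [rs_cast]
  have e2 : (rs p (y2 a B m) + rs p (r3 a b B m) * rs p c) % p =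
      rs p (y2 a B m + r3 a b B m * c) := by
    apply rs_of; push_cast; simp only [rs_cast]
  rw [e1, e2, h]

/-- the type of the checks: `B m a b c m2 m3 q0 q1 q2 q3 q4 A0 A1 A2 A3` -/
abbrev CB := ℕ → ℕ → ℕ → ℕ → ℕ → ℕ → ℕ → ℕ → ℕ → ℕ → ℕ → ℕ → ℕ → ℕ → ℕ → ℕ → Bool

/-- innermost level -/
def wC (p ex PT : ℕ) (k : CB) (B m a b m2 m3 R3 q0 q1 q2 q3 A0 A1 A2 c : ℕ) : Bool :=
  strict (v3 p c m3 R3) fun R4 => strict (pos p ex PT m3 R4 (ng p m3)) fun q4 =>
  strict (ng p (Nat.mul (nat_lit 2) c)) fun A3 => k B m a b c m2 m3 q0 q1 q2 q3 q4 A0 A1 A2 A3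

/-- level of `b` -/
def wBb (p ex PT : ℕ) (k : CB) (B m a m2 R2 q0 q1 q2 A0 A1 b : ℕ) : Bool :=
  strict (u3 p b m m2 R2) fun m3 => strict (v3 p b m2 R2) fun R3 =>
  strict (pos p ex PT m2 R3 (ng p m3)) fun q3 => strict (ng p (Nat.mul (nat_lit 2) b)) fun A2 =>
    allL (wC p ex PT k B m a b m2 m3 R3 q0 q1 q2 q3 A0 A1 A2) (roots p m2 R3 m3)

/-- level of `a` -/
def wA (p ex PT : ℕ) (k : CB) (B m q0 q1 A0 a : ℕ) : Bool :=
  strict (u2 p a B m) fun m2 => strict (v2 p a B m) fun R2 =>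
  strict (pos p ex PT m R2 (ng p m2)) fun q2 => strict (ng p (Nat.mul (nat_lit 2) a)) fun A1 =>
    allR (wBb p ex PT k B m a m2 R2 q0 q1 q2 A0 A1) p

/-- level of `m` -/
def wM (p ex PT : ℕ) (k : CB) (B m : ℕ) : Bool :=
  @Bool.rec (fun _ => Bool) true
    (strict (pos p ex PT m B (Nat.sub p (nat_lit 1))) fun q0 =>
    strict (pos p ex PT (nat_lit 1) B (ng p m)) fun q1 => strict (ng p B) fun A0 =>
      allR (wA p ex PT k B m q0 q1 A0) p)
    (adP p m B (Nat.sub p (nat_lit 1)))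

/-- level of `B` -/
def wB (p ex PT : ℕ) (k : CB) (B : ℕ) : Bool := allR (wM p ex PT k B) p

lemma rs_neg_one_of {p : ℕ} (hp : 1 < p) : rs p (-1) = p - 1 := by
  have : NeZero p := ⟨by omega⟩
  have h : (p - 1) % p = rs p (-1) := by
    apply rs_of
    rw [K5.cast_pred]
    push_cast
    ring
  rw [← h, Nat.mod_eq_of_lt (by omega)]

/-- **the loop over the classes** -/
theorem wB_spec {p : ℕ} (hp : 1 < p) {ex PT : ℕ} {k : CB} {a b c B m : ℤ} (hcl : Cl a b c B m)
    (had : adP p (rs p m) (rs p B) (rs p (-1)) = true) (h : wB p ex PT k (rs p B) = true) :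
    k (rs p B) (rs p m) (rs p a) (rs p b) (rs p c) (rs p (y2 a B m)) (rs p (y3 a b B m))
      (qz p ex PT a b c B m 0) (qz p ex PT a b c B m 1) (qz p ex PT a b c B m 2)
      (qz p ex PT a b c B m 3) (qz p ex PT a b c B m 4) (rs p (-B)) (rs p (-(2 * a)))
      (rs p (-(2 * b))) (rs p (-(2 * c))) = true := by
  have : NeZero p := ⟨by omega⟩
  have h1 := allR_spec h (rs p m) (rs_lt m)
  unfold wM at h1
  rw [rs_neg_one_of hp] at had
  have had' : adP p (rs p m) (rs p B) (Nat.sub p (nat_lit 1)) = true := had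
  rw [had'] at h1
  simp only [strict_eq] at h1
  have h2 := allR_spec h1 (rs p a) (rs_lt a)
  unfold wA at h2
  simp only [strict_eq] at h2
  rw [u2_eq, v2_eq] at h2
  have h3 := allR_spec h2 (rs p b) (rs_lt b)
  unfold wBb at h3
  simp only [strict_eq] at h3
  rw [u3_eq, v3_eq] at h3
  have h4 := allL_spec h3 (rs p c) (mem_roots hcl)
  unfold wC at h4
  simp only [strict_eq] at h4
  rw [v4_eq, ng_eq, ng_eq, ng_eq, ng_eq, ng2_eq, ng2_eq, ng2_eq] at h4
  have e0 : pos p ex PT (rs p m) (rs p B) (Nat.sub p (nat_lit 1)) = qz p ex PT a b c B m 0 := by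
    change pos p ex PT (rs p m) (rs p B) (p - 1) = _
    rw [← rs_neg_one_of hp]
    rfl
  have e1 : pos p ex PT (nat_lit 1) (rs p B) (rs p (-m)) = qz p ex PT a b c B m 1 := by
    have : qz p ex PT a b c B m 1 = pos p ex PT (rs p 1) (rs p B) (rs p (-m)) := rfl
    rw [this, rs_one_of hp]
  rw [e0, e1] at h4
  exact h4

/-! ### membership -/

/-- membership in a list -/
def memN (x : ℕ) (L : List ℕ) : Bool :=
  @List.rec ℕ (fun _ => Bool) false (fun y _ ih => @Bool.rec (fun _ => Bool) ih true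
    (Nat.beq x y)) L

lemma memN_spec {x : ℕ} {L : List ℕ} (h : memN x L = true) : x ∈ L := by
  induction L with
  | nil => exact absurd h (by simp [memN])
  | cons y ys ih =>
    have h' : @Bool.rec (fun _ => Bool) (memN x ys) true (Nat.beq x y) = true := h
    cases hb : Nat.beq x y with
    | true => rw [Nat.eq_of_beq_eq_true hb]; exact List.mem_cons_self
    | false => rw [hb] at h'; exact List.mem_cons_of_mem _ (ih h')

lemma memN_of {x : ℕ} {L : List ℕ} (h : x ∈ L) : memN x L = true := by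
  induction L with
  | nil => simp at h
  | cons y ys ih =>
    change @Bool.rec (fun _ => Bool) (memN x ys) true (Nat.beq x y) = true
    cases hb : Nat.beq x y with
    | true => rfl
    | false =>
      rcases List.mem_cons.1 h with rfl | h1
      · rw [Nat.beq_refl] at hb; exact absurd hb (by simp)
      · exact ih h1

/-- lookup -/
def nthN (L : List ℕ) (i : ℕ) : ℕ :=
  @List.rec ℕ (fun _ => ℕ → ℕ) (fun _ => nat_lit 0)
    (fun x _ ih i => @Nat.rec (fun _ => ℕ) x (fun j _ => ih j) i) L i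

lemma nthN_eq {L : List ℕ} {i : ℕ} (h : i < L.length) : nthN L i = L[i] := by
  induction L generalizing i with
  | nil => simp at h
  | cons x xs ih =>
    cases i with
    | zero => rfl
    | succ i => exact ih (by simpa using h)

end Pool.Agent.LibH4.S7
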