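import Pool.Agent.Lib_helper4.P7Sys

/-!
Period seven: the modulus and the passage from the parameters to the system.
-/

namespace Pool.Agent.LibH4.S7

open Pool.Agent.Lib_helper5

/-- the modulus -/
def QQ : ℕ := 2 ^ 5 * 3 ^ 2 * 5 * 7 * 11 * 13 * 17 * 19

lemma QQ_prime {p : ℕ} (hp : p.Prime) (h : p ∣ QQ) : p ≤ 19 := by
  have hle : ∀ q : ℕ, q.Prime → q ≤ 19 → p ∣ q → p ≤ 19 := by
    intro q hq h1 h2
    exact (Nat.le_of_dvd hq.pos h2).trans h1
  unfold QQ at h
  rcases (hp.dvd_mul).1 h with h | h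
  · rcases (hp.dvd_mul).1 h with h | h
    · rcases (hp.dvd_mul).1 h with h | h
      · rcases (hp.dvd_mul).1 h with h | h
        · rcases (hp.dvd_mul).1 h with h | h
          · rcases (hp.dvd_mul).1 h with h | h
            · rcases (hp.dvd_mul).1 h with h | h
              · exact hle 2 (by norm_num) (by norm_num) (hp.dvd_of_dvd_pow h)
              · exact hle 3 (by norm_num) (by norm_num) (hp.dvd_of_dvd_pow h)
            · exact hle 5 (by norm_num) (by norm_num) h
          · exact hle 7 (by norm_num) (by norm_num) h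
        · exact hle 11 (by norm_num) (by norm_num) h
      · exact hle 13 (by norm_num) (by norm_num) h
    · exact hle 17 (by norm_num) (by norm_num) h
  · exact hle 19 (by norm_num) (by norm_num) h

/-- **the system of large parameters** -/
theorem sysQQ {a b c B : ℕ} {m m2 m3 : ℤ} (h : E7.Par a b c B m m2 m3) (hm2 : m % 2 = 1)
    (hB2 : B % 2 = 1)
    [IsDomain (QuadraticAlgebra ℤ m (B : ℤ))]
    [UniqueFactorizationMonoid (QuadraticAlgebra ℤ m (B : ℤ))]
    (h1 : 23 < m) (h2 : 23 < m2) (h3 : 23 < m3) : Sys QQ a b c B m := by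
  refine sys_of h hm2 hB2 (by unfold QQ; norm_num) ?_
  intro p hp _ hpQ
  have h4 := QQ_prime hp hpQ
  have h5 : (p : ℤ) ≤ 19 := by exact_mod_cast h4
  exact ⟨by omega, by omega, by omega⟩

end Pool.Agent.LibH4.S7
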