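import Pool.Agent.Lib_helper4.S7.St11

/-! generated: the boxes of the classes modulo `13`, `7`, `5`, `8` -/

namespace Pool.Agent.LibH4.S7

open Pool.Agent.Lib_helper5 Pool.Agent.Lib_helper5.LK Pool.Agent.Lib_helper5.TB
  Pool.Agent.LibH4.Ker

/-- membership in a box -/
def inBx (k13 k7 k5 k8 : ℕ) (b : Bx) : Bool :=
  @Bool.rec (fun _ => Bool) false
    (@Bool.rec (fun _ => Bool) false
      (@Bool.rec (fun _ => Bool) false (memN k8 b.F8) (memN k5 b.F5))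
      (memN k7 b.F7))
    (memN k13 b.F13)

lemma inBx_spec {k13 k7 k5 k8 : ℕ} {b : Bx} (h : inBx k13 k7 k5 k8 b = true) :
    k13 ∈ b.F13 ∧ k7 ∈ b.F7 ∧ k5 ∈ b.F5 ∧ k8 ∈ b.F8 := by
  unfold inBx at h
  cases h1 : memN k13 b.F13 with
  | false => rw [h1] at h; exact absurd h (by simp)
  | true =>
    rw [h1] at h
    cases h2 : memN k7 b.F7 with
    | false => rw [h2] at h; exact absurd h (by simp)
    | true =>
      rw [h2] at h
      cases h3 : memN k5 b.F5 with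
      | false => rw [h3] at h; exact absurd h (by simp)
      | true =>
        rw [h3] at h
        exact ⟨memN_spec h1, memN_spec h2, memN_spec h3, memN_spec h⟩

/-- membership in one of the boxes -/
def inBs (k13 k7 k5 k8 : ℕ) (BS : List Bx) : Bool :=
  @List.rec Bx (fun _ => Bool) false
    (fun b _ ih => @Bool.rec (fun _ => Bool) ih true (inBx k13 k7 k5 k8 b)) BS

lemma inBs_spec {k13 k7 k5 k8 : ℕ} {BS : List Bx} (h : inBs k13 k7 k5 k8 BS = true) :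
    ∃ b ∈ BS, k13 ∈ b.F13 ∧ k7 ∈ b.F7 ∧ k5 ∈ b.F5 ∧ k8 ∈ b.F8 := by
  induction BS with
  | nil => exact absurd h (by simp [inBs])
  | cons b bs ih =>
    have h' : @Bool.rec (fun _ => Bool) (inBs k13 k7 k5 k8 bs) true (inBx k13 k7 k5 k8 b) = true := h
    cases hb : inBx k13 k7 k5 k8 b with
    | true => exact ⟨b, List.mem_cons_self, inBx_spec hb⟩
    | false =>
      rw [hb] at h'
      obtain ⟨b', h1, h2⟩ := ih h'
      exact ⟨b', List.mem_cons_of_mem _ h1, h2⟩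

/-- membership in one of the boxes of the groups -/
def inBss (k13 k7 k5 k8 : ℕ) (BB : List (List Bx)) : Bool :=
  @List.rec (List Bx) (fun _ => Bool) false
    (fun b _ ih => @Bool.rec (fun _ => Bool) ih true (inBs k13 k7 k5 k8 b)) BB

lemma inBss_spec {k13 k7 k5 k8 : ℕ} {BB : List (List Bx)} (h : inBss k13 k7 k5 k8 BB = true) :
    ∃ BS ∈ BB, ∃ b ∈ BS, k13 ∈ b.F13 ∧ k7 ∈ b.F7 ∧ k5 ∈ b.F5 ∧ k8 ∈ b.F8 := by
  induction BB with
  | nil => exact absurd h (by simp [inBss])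
  | cons b bs ih =>
    have h' : @Bool.rec (fun _ => Bool) (inBss k13 k7 k5 k8 bs) true (inBs k13 k7 k5 k8 b) = true :=
      h
    cases hb : inBs k13 k7 k5 k8 b with
    | true => exact ⟨b, List.mem_cons_self, inBs_spec hb⟩
    | false =>
      rw [hb] at h'
      obtain ⟨b', h1, h2⟩ := ih h'
      exact ⟨b', List.mem_cons_of_mem _ h1, h2⟩

/-- box -/
def bx0 : Bx :=
  ⟨[(nat_lit 37349), (nat_lit 39378), (nat_lit 39210), (nat_lit 39042), (nat_lit 38874),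
    (nat_lit 38706), (nat_lit 38538), (nat_lit 38370), (nat_lit 38202), (nat_lit 38034),
    (nat_lit 37866), (nat_lit 37698), (nat_lit 37530)], [(nat_lit 3430), (nat_lit 3725), (nat_lit 3677), (nat_lit 3629), (nat_lit 3581),
    (nat_lit 3533), (nat_lit 3485)], [(nat_lit 875), (nat_lit 976), (nat_lit 952), (nat_lit 928), (nat_lit 904)], [(nat_lit 4608), (nat_lit 5057), (nat_lit 4994), (nat_lit 4931), (nat_lit 4868),
    (nat_lit 4805), (nat_lit 4742), (nat_lit 4679)], [(nat_lit 22627), (nat_lit 23838), (nat_lit 23718), (nat_lit 23598), (nat_lit 23478),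
    (nat_lit 23358), (nat_lit 23238), (nat_lit 23118), (nat_lit 22998), (nat_lit 22878),
    (nat_lit 22758)]⟩

/-- box -/
def bx1 : Bx :=
  ⟨[(nat_lit 316706), (nat_lit 316538), (nat_lit 316370), (nat_lit 318399), (nat_lit 318231),
    (nat_lit 318063), (nat_lit 317895), (nat_lit 317727), (nat_lit 317559), (nat_lit 317391),
    (nat_lit 317223), (nat_lit 317055), (nat_lit 316887)], [(nat_lit 11760), (nat_lit 11712), (nat_lit 11664), (nat_lit 11959), (nat_lit 11911),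
    (nat_lit 11863), (nat_lit 11815)], [(nat_lit 925), (nat_lit 901), (nat_lit 877), (nat_lit 978), (nat_lit 954)], [(nat_lit 13952), (nat_lit 13889), (nat_lit 13826), (nat_lit 14275), (nat_lit 14212),
    (nat_lit 14149), (nat_lit 14086), (nat_lit 14023)], []⟩

/-- box -/
def bx2 : Bx :=
  ⟨[(nat_lit 38025), (nat_lit 37857), (nat_lit 37689), (nat_lit 37521), (nat_lit 37353),
    (nat_lit 38374), (nat_lit 38206)], [(nat_lit 3577), (nat_lit 3529), (nat_lit 3481), (nat_lit 3433), (nat_lit 3728),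
    (nat_lit 3680), (nat_lit 3632)], [(nat_lit 925), (nat_lit 901), (nat_lit 877), (nat_lit 978), (nat_lit 954)], [(nat_lit 4672), (nat_lit 21056), (nat_lit 4609), (nat_lit 20993), (nat_lit 5058),
    (nat_lit 21442), (nat_lit 4995), (nat_lit 21379), (nat_lit 4932), (nat_lit 21316),
    (nat_lit 4869), (nat_lit 21253), (nat_lit 4806), (nat_lit 21190), (nat_lit 4743),
    (nat_lit 21127)], [(nat_lit 23353), (nat_lit 23233), (nat_lit 23113), (nat_lit 22993), (nat_lit 22873),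
    (nat_lit 22753), (nat_lit 22633), (nat_lit 23844), (nat_lit 23724), (nat_lit 23604),
    (nat_lit 23484)]⟩

/-- box -/
def bx3 : Bx :=
  ⟨[(nat_lit 351182), (nat_lit 351014), (nat_lit 350846), (nat_lit 350678), (nat_lit 350510),
    (nat_lit 350342), (nat_lit 350174), (nat_lit 350006), (nat_lit 349838), (nat_lit 349670),
    (nat_lit 349502), (nat_lit 349334), (nat_lit 351363)], [(nat_lit 15680), (nat_lit 15632), (nat_lit 15584), (nat_lit 15536), (nat_lit 15488),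
    (nat_lit 15440), (nat_lit 15735)], [(nat_lit 1075), (nat_lit 1700), (nat_lit 1051), (nat_lit 1676), (nat_lit 1027),
    (nat_lit 1652), (nat_lit 1003), (nat_lit 1628), (nat_lit 1104), (nat_lit 1729)], [(nat_lit 30592), (nat_lit 30529), (nat_lit 30466), (nat_lit 30403), (nat_lit 30340),
    (nat_lit 30277), (nat_lit 30214), (nat_lit 30663)], []⟩

/-- box -/
def bx4 : Bx :=
  ⟨[(nat_lit 49351), (nat_lit 49183), (nat_lit 49015), (nat_lit 48847), (nat_lit 48679),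
    (nat_lit 48511)], [(nat_lit 3969), (nat_lit 3921), (nat_lit 3873), (nat_lit 3825), (nat_lit 3777),
    (nat_lit 4072), (nat_lit 4024)], [(nat_lit 1075), (nat_lit 1051), (nat_lit 1027), (nat_lit 1003), (nat_lit 1104)], [(nat_lit 8128), (nat_lit 24512), (nat_lit 8065), (nat_lit 24449), (nat_lit 8002),
    (nat_lit 24386), (nat_lit 7939), (nat_lit 24323), (nat_lit 7876), (nat_lit 24260),
    (nat_lit 7813), (nat_lit 24197), (nat_lit 7750), (nat_lit 24134), (nat_lit 7687),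
    (nat_lit 24071)], [(nat_lit 21901), (nat_lit 21781), (nat_lit 21661), (nat_lit 21541), (nat_lit 21421),
    (nat_lit 21301), (nat_lit 22512), (nat_lit 22392), (nat_lit 22272), (nat_lit 22152),
    (nat_lit 22032)]⟩

/-- box -/
def bx5 : Bx :=
  ⟨[(nat_lit 37349), (nat_lit 118651), (nat_lit 142831), (nat_lit 48386), (nat_lit 68185),
    (nat_lit 178048), (nat_lit 230789), (nat_lit 254969), (nat_lit 193466), (nat_lit 74841)], [(nat_lit 3430), (nat_lit 7553), (nat_lit 9275), (nat_lit 3794), (nat_lit 10318),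
    (nat_lit 12040), (nat_lit 11361)], [(nat_lit 875), (nat_lit 1255), (nat_lit 1010), (nat_lit 2015), (nat_lit 2395)], [(nat_lit 4608), (nat_lit 7688), (nat_lit 31248), (nat_lit 13848), (nat_lit 21024),
    (nat_lit 24104), (nat_lit 14896), (nat_lit 30264)], [(nat_lit 22627), (nat_lit 93181), (nat_lit 134453), (nat_lit 146443), (nat_lit 143792),
    (nat_lit 97218), (nat_lit 21362), (nat_lit 77275), (nat_lit 103906), (nat_lit 115896),
    (nat_lit 83963)]⟩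

/-- box -/
def bx6 : Bx :=
  ⟨[(nat_lit 316706), (nat_lit 340886), (nat_lit 279383), (nat_lit 160758), (nat_lit 356304),
    (nat_lit 204737), (nat_lit 228917), (nat_lit 224536), (nat_lit 358579), (nat_lit 154271)], [(nat_lit 11760), (nat_lit 6279), (nat_lit 12803), (nat_lit 14525), (nat_lit 13846),
    (nat_lit 5964), (nat_lit 10087)], [(nat_lit 925), (nat_lit 1305), (nat_lit 1060), (nat_lit 2065), (nat_lit 2445)], [(nat_lit 13952), (nat_lit 21128), (nat_lit 24208), (nat_lit 15000), (nat_lit 30368),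
    (nat_lit 4776), (nat_lit 7856), (nat_lit 31416)], []⟩

/-- box -/
def bx7 : Bx :=
  ⟨[(nat_lit 38025), (nat_lit 143507), (nat_lit 273169), (nat_lit 75517)], [(nat_lit 3577), (nat_lit 7700), (nat_lit 9422), (nat_lit 3941), (nat_lit 10465),
    (nat_lit 12187), (nat_lit 11508)], [(nat_lit 925), (nat_lit 1305), (nat_lit 1060), (nat_lit 2065), (nat_lit 2445)], [(nat_lit 4672), (nat_lit 21056), (nat_lit 7752), (nat_lit 24136), (nat_lit 14928),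
    (nat_lit 31312), (nat_lit 30296), (nat_lit 13912), (nat_lit 4704), (nat_lit 21088),
    (nat_lit 7784), (nat_lit 24168), (nat_lit 14960), (nat_lit 31344), (nat_lit 30328),
    (nat_lit 13944)], [(nat_lit 23353), (nat_lit 93907), (nat_lit 135179), (nat_lit 147169), (nat_lit 144518),
    (nat_lit 97944), (nat_lit 22088), (nat_lit 78001), (nat_lit 104632), (nat_lit 116622),
    (nat_lit 84689)]⟩

/-- box -/
def bx8 : Bx :=
  ⟨[(nat_lit 351182), (nat_lit 56810), (nat_lit 366600), (nat_lit 72228), (nat_lit 210652),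
    (nat_lit 291954), (nat_lit 221689), (nat_lit 74503), (nat_lit 241488)], [(nat_lit 15680), (nat_lit 2996), (nat_lit 4718), (nat_lit 16044), (nat_lit 5761),
    (nat_lit 7483), (nat_lit 6804)], [(nat_lit 1075), (nat_lit 1700), (nat_lit 2705), (nat_lit 2080), (nat_lit 3085),
    (nat_lit 2460), (nat_lit 965), (nat_lit 1590), (nat_lit 1970), (nat_lit 1345)], [(nat_lit 30592), (nat_lit 5000), (nat_lit 8080), (nat_lit 31640), (nat_lit 14240),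
    (nat_lit 21416), (nat_lit 24496), (nat_lit 15288)], []⟩

/-- box -/
def bx9 : Bx :=
  ⟨[(nat_lit 272441), (nat_lit 270335), (nat_lit 118768)], [(nat_lit 3773), (nat_lit 10297), (nat_lit 12019), (nat_lit 11340), (nat_lit 3458),
    (nat_lit 7581), (nat_lit 9303)], [(nat_lit 1000), (nat_lit 2005), (nat_lit 2385), (nat_lit 890), (nat_lit 1270)], [(nat_lit 7680), (nat_lit 31240), (nat_lit 13840), (nat_lit 21016), (nat_lit 24096),
    (nat_lit 14888), (nat_lit 30256), (nat_lit 4664)], [(nat_lit 21296), (nat_lit 77209), (nat_lit 103840), (nat_lit 115830), (nat_lit 83897),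
    (nat_lit 22682), (nat_lit 93236), (nat_lit 134508), (nat_lit 146498), (nat_lit 143847),
    (nat_lit 97273)]⟩

/-- box -/
def bx10 : Bx :=
  ⟨[(nat_lit 273962), (nat_lit 179517), (nat_lit 232258), (nat_lit 256438), (nat_lit 194935),
    (nat_lit 76310), (nat_lit 38987), (nat_lit 120289), (nat_lit 140088)], [(nat_lit 3969), (nat_lit 10493), (nat_lit 12215), (nat_lit 11536), (nat_lit 3654),
    (nat_lit 7777), (nat_lit 9499)], [(nat_lit 1075), (nat_lit 2080), (nat_lit 2460), (nat_lit 965), (nat_lit 1345)], [(nat_lit 8128), (nat_lit 24512), (nat_lit 15304), (nat_lit 31688), (nat_lit 30672),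
    (nat_lit 14288), (nat_lit 5080), (nat_lit 21464), (nat_lit 8160), (nat_lit 24544),
    (nat_lit 15336), (nat_lit 31720), (nat_lit 30704), (nat_lit 14320), (nat_lit 5112),
    (nat_lit 21496)], [(nat_lit 21901), (nat_lit 77814), (nat_lit 104445), (nat_lit 116435), (nat_lit 84502),
    (nat_lit 23287), (nat_lit 93841), (nat_lit 135113), (nat_lit 147103), (nat_lit 144452),
    (nat_lit 97878)]⟩

/-- box -/
def bx11 : Bx :=
  ⟨[(nat_lit 280891), (nat_lit 124943), (nat_lit 135980)], [(nat_lit 10192), (nat_lit 11914), (nat_lit 6433), (nat_lit 12957), (nat_lit 14679),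
    (nat_lit 14000), (nat_lit 6118)], [(nat_lit 1075), (nat_lit 2080), (nat_lit 2460), (nat_lit 965), (nat_lit 1345)], [(nat_lit 15232), (nat_lit 30600), (nat_lit 5008), (nat_lit 8088), (nat_lit 31648),
    (nat_lit 14248), (nat_lit 21424), (nat_lit 24504)], []⟩

/-- box -/
def bx12 : Bx :=
  ⟨[(nat_lit 290394), (nat_lit 314574), (nat_lit 239928), (nat_lit 55419)], [(nat_lit 15876), (nat_lit 5593), (nat_lit 7315), (nat_lit 6636), (nat_lit 15561),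
    (nat_lit 2877), (nat_lit 4599)], [(nat_lit 925), (nat_lit 1550), (nat_lit 1305), (nat_lit 1930), (nat_lit 1060),
    (nat_lit 1685), (nat_lit 2690), (nat_lit 2065), (nat_lit 3070), (nat_lit 2445)], [(nat_lit 31360), (nat_lit 13960), (nat_lit 21136), (nat_lit 24216), (nat_lit 15008),
    (nat_lit 30376), (nat_lit 4784), (nat_lit 7864)], []⟩

/-- box -/
def bx13 : Bx :=
  ⟨[(nat_lit 272585), (nat_lit 138906), (nat_lit 119471), (nat_lit 271402)], [(nat_lit 10333), (nat_lit 3865), (nat_lit 9402), (nat_lit 7736), (nat_lit 3669),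
    (nat_lit 11607), (nat_lit 12342)], [(nat_lit 2021), (nat_lit 1046), (nat_lit 1321), (nat_lit 971), (nat_lit 2496)], [(nat_lit 31289), (nat_lit 7801), (nat_lit 4793), (nat_lit 30457), (nat_lit 15161),
    (nat_lit 24441), (nat_lit 21433), (nat_lit 14329)], [(nat_lit 77309), (nat_lit 21528), (nat_lit 97516), (nat_lit 144222), (nat_lit 147005),
    (nat_lit 135147), (nat_lit 94007), (nat_lit 23585), (nat_lit 84932), (nat_lit 116997),
    (nat_lit 105139)]⟩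

/-- box -/
def bx14 : Bx :=
  ⟨[(nat_lit 37675), (nat_lit 75362), (nat_lit 194169), (nat_lit 255854), (nat_lit 231856),
    (nat_lit 179297), (nat_lit 69616), (nat_lit 50181), (nat_lit 144990)], [(nat_lit 7589), (nat_lit 3522), (nat_lit 11460), (nat_lit 12195), (nat_lit 10529),
    (nat_lit 4061), (nat_lit 9598)], [(nat_lit 1271), (nat_lit 921), (nat_lit 2446), (nat_lit 2096), (nat_lit 1121)], [(nat_lit 7737), (nat_lit 4729), (nat_lit 30393), (nat_lit 15097), (nat_lit 24377),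
    (nat_lit 21369), (nat_lit 14265), (nat_lit 31737)], [(nat_lit 93281), (nat_lit 22859), (nat_lit 84206), (nat_lit 116271), (nat_lit 104413),
    (nat_lit 77914), (nat_lit 22133), (nat_lit 98121), (nat_lit 144827), (nat_lit 147610),
    (nat_lit 135752)]⟩

/-- box -/
def bx15 : Bx :=
  ⟨[(nat_lit 138436), (nat_lit 119001), (nat_lit 270932), (nat_lit 274312)], [(nat_lit 9274), (nat_lit 7608), (nat_lit 3541), (nat_lit 11479), (nat_lit 12214),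
    (nat_lit 10548), (nat_lit 4080)], [(nat_lit 1259), (nat_lit 909), (nat_lit 2434), (nat_lit 2084), (nat_lit 1109)], [(nat_lit 4623), (nat_lit 30287), (nat_lit 14991), (nat_lit 24271), (nat_lit 21263),
    (nat_lit 14159), (nat_lit 31631), (nat_lit 8143)], [(nat_lit 97184), (nat_lit 143890), (nat_lit 146673), (nat_lit 134815), (nat_lit 93675),
    (nat_lit 23253), (nat_lit 84600), (nat_lit 116665), (nat_lit 104807), (nat_lit 78308),
    (nat_lit 22527)]⟩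

/-- box -/
def bx16 : Bx :=
  ⟨[(nat_lit 74892), (nat_lit 193699), (nat_lit 255384), (nat_lit 231386), (nat_lit 178827),
    (nat_lit 69146), (nat_lit 49711), (nat_lit 144520), (nat_lit 39402)], [(nat_lit 11332), (nat_lit 12067), (nat_lit 10401), (nat_lit 3933), (nat_lit 9470),
    (nat_lit 7804), (nat_lit 3737)], [(nat_lit 2384), (nat_lit 2034), (nat_lit 1059), (nat_lit 1334), (nat_lit 984)], [(nat_lit 30223), (nat_lit 14927), (nat_lit 24207), (nat_lit 21199), (nat_lit 14095),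
    (nat_lit 31567), (nat_lit 8079), (nat_lit 5071)], [(nat_lit 83874), (nat_lit 115939), (nat_lit 104081), (nat_lit 77582), (nat_lit 21801),
    (nat_lit 97789), (nat_lit 144495), (nat_lit 147278), (nat_lit 135420), (nat_lit 94280),
    (nat_lit 23858)]⟩

/-- group of boxes -/
def BG0 : List Bx := [bx2, bx0]

/-- group of boxes -/
def BG1 : List Bx := [bx4, bx1]

/-- group of boxes -/
def BG2 : List Bx := [bx7, bx3]

/-- group of boxes -/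
def BG3 : List Bx := [bx10, bx5]

/-- group of boxes -/
def BG4 : List Bx := [bx6, bx8, bx9]

/-- group of boxes -/
def BG5 : List Bx := [bx11, bx12, bx13]

/-- group of boxes -/
def BG6 : List Bx := [bx14, bx15, bx16]

/-- single classes -/
def BG7 : List Bx := [
  ⟨[(nat_lit 37349)], [(nat_lit 3430)], [(nat_lit 875)], [(nat_lit 4770)], []⟩,
  ⟨[(nat_lit 37349)], [(nat_lit 3430)], [(nat_lit 875)], [(nat_lit 13947)], []⟩,
  ⟨[(nat_lit 37349)], [(nat_lit 3430)], [(nat_lit 875)], [(nat_lit 30587)], []⟩,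
  ⟨[(nat_lit 37349)], [(nat_lit 3430)], [(nat_lit 875)], [(nat_lit 14868)], []⟩,
  ⟨[(nat_lit 37349)], [(nat_lit 3430)], [(nat_lit 875)], [(nat_lit 31284)], []⟩,
  ⟨[(nat_lit 37349)], [(nat_lit 3430)], [(nat_lit 875)], [(nat_lit 5030)], []⟩,
  ⟨[(nat_lit 316706)], [(nat_lit 11760)], [(nat_lit 925)], [(nat_lit 24565)], []⟩,
  ⟨[(nat_lit 340886)], [(nat_lit 10087)], [(nat_lit 1060)], [(nat_lit 13889)], []⟩,
  ⟨[(nat_lit 340886)], [(nat_lit 10087)], [(nat_lit 877)], [(nat_lit 15000)], []⟩,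
  ⟨[(nat_lit 340886)], [(nat_lit 10087)], [(nat_lit 877)], [(nat_lit 13889)], []⟩,
  ⟨[(nat_lit 340886)], [(nat_lit 11863)], [(nat_lit 1060)], [(nat_lit 15000)], []⟩,
  ⟨[(nat_lit 340886)], [(nat_lit 11863)], [(nat_lit 1060)], [(nat_lit 13889)], []⟩,
  ⟨[(nat_lit 340886)], [(nat_lit 11863)], [(nat_lit 877)], [(nat_lit 15000)], []⟩,
  ⟨[(nat_lit 340886)], [(nat_lit 11863)], [(nat_lit 877)], [(nat_lit 13889)], []⟩,
  ⟨[(nat_lit 366600)], [(nat_lit 16044)], [(nat_lit 965)], [(nat_lit 30277)], []⟩,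
  ⟨[(nat_lit 366600)], [(nat_lit 16044)], [(nat_lit 1590)], [(nat_lit 30277)], []⟩,
  ⟨[(nat_lit 366600)], [(nat_lit 16044)], [(nat_lit 1003)], [(nat_lit 31640)], []⟩,
  ⟨[(nat_lit 366600)], [(nat_lit 16044)], [(nat_lit 1003)], [(nat_lit 30277)], []⟩,
  ⟨[(nat_lit 366600)], [(nat_lit 16044)], [(nat_lit 1729)], [(nat_lit 31640)], []⟩,
  ⟨[(nat_lit 366600)], [(nat_lit 16044)], [(nat_lit 1729)], [(nat_lit 30277)], []⟩,
  ⟨[(nat_lit 366600)], [(nat_lit 15488)], [(nat_lit 965)], [(nat_lit 31640)], []⟩,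
  ⟨[(nat_lit 366600)], [(nat_lit 15488)], [(nat_lit 965)], [(nat_lit 30277)], []⟩,
  ⟨[(nat_lit 366600)], [(nat_lit 15488)], [(nat_lit 1590)], [(nat_lit 31640)], []⟩,
  ⟨[(nat_lit 366600)], [(nat_lit 15488)], [(nat_lit 1590)], [(nat_lit 30277)], []⟩,
  ⟨[(nat_lit 366600)], [(nat_lit 15488)], [(nat_lit 1003)], [(nat_lit 31640)], []⟩,
  ⟨[(nat_lit 366600)], [(nat_lit 15488)], [(nat_lit 1003)], [(nat_lit 30277)], []⟩,
  ⟨[(nat_lit 366600)], [(nat_lit 15488)], [(nat_lit 1729)], [(nat_lit 31640)], []⟩,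
  ⟨[(nat_lit 366600)], [(nat_lit 15488)], [(nat_lit 1729)], [(nat_lit 30277)], []⟩,
  ⟨[(nat_lit 48386)], [(nat_lit 3794)], [(nat_lit 1010)], [(nat_lit 5057)], []⟩,
  ⟨[(nat_lit 48386)], [(nat_lit 3794)], [(nat_lit 1010)], [(nat_lit 31354)], []⟩,
  ⟨[(nat_lit 48386)], [(nat_lit 3794)], [(nat_lit 1010)], [(nat_lit 7692)], []⟩,
  ⟨[(nat_lit 48386)], [(nat_lit 3794)], [(nat_lit 1010)], [(nat_lit 30492)], []⟩,
  ⟨[(nat_lit 48386)], [(nat_lit 3794)], [(nat_lit 1010)], [(nat_lit 14140)], []⟩,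
  ⟨[(nat_lit 48386)], [(nat_lit 3794)], [(nat_lit 1010)], [(nat_lit 31582)], []⟩,
  ⟨[(nat_lit 48386)], [(nat_lit 3794)], [(nat_lit 1010)], [(nat_lit 30615)], []⟩,
  ⟨[(nat_lit 48386)], [(nat_lit 3794)], [(nat_lit 1010)], [(nat_lit 30391)], []⟩,
  ⟨[(nat_lit 48386)], [(nat_lit 3794)], [(nat_lit 952)], [(nat_lit 7688)], []⟩,
  ⟨[(nat_lit 48386)], [(nat_lit 3794)], [(nat_lit 952)], [(nat_lit 5057)], []⟩,
  ⟨[(nat_lit 48386)], [(nat_lit 3794)], [(nat_lit 952)], [(nat_lit 31354)], []⟩,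
  ⟨[(nat_lit 48386)], [(nat_lit 3794)], [(nat_lit 952)], [(nat_lit 30615)], []⟩,
  ⟨[(nat_lit 48386)], [(nat_lit 11361)], [(nat_lit 1010)], [(nat_lit 29460)], []⟩,
  ⟨[(nat_lit 48386)], [(nat_lit 3629)], [(nat_lit 1010)], [(nat_lit 7688)], []⟩,
  ⟨[(nat_lit 48386)], [(nat_lit 3629)], [(nat_lit 1010)], [(nat_lit 5057)], []⟩,
  ⟨[(nat_lit 48386)], [(nat_lit 3629)], [(nat_lit 1010)], [(nat_lit 31354)], []⟩,
  ⟨[(nat_lit 48386)], [(nat_lit 3629)], [(nat_lit 1010)], [(nat_lit 30615)], []⟩,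
  ⟨[(nat_lit 48386)], [(nat_lit 3629)], [(nat_lit 952)], [(nat_lit 7688)], []⟩,
  ⟨[(nat_lit 48386)], [(nat_lit 3629)], [(nat_lit 952)], [(nat_lit 5057)], []⟩,
  ⟨[(nat_lit 48386)], [(nat_lit 3629)], [(nat_lit 952)], [(nat_lit 31354)], []⟩,
  ⟨[(nat_lit 48386)], [(nat_lit 3629)], [(nat_lit 952)], [(nat_lit 30615)], []⟩,
  ⟨[(nat_lit 38987)], [(nat_lit 3654)], [(nat_lit 965)], [(nat_lit 31345)], []⟩,
  ⟨[(nat_lit 38987)], [(nat_lit 3654)], [(nat_lit 965)], [(nat_lit 30378)], []⟩,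
  ⟨[(nat_lit 38987)], [(nat_lit 3654)], [(nat_lit 965)], [(nat_lit 24323)], []⟩,
  ⟨[(nat_lit 38987)], [(nat_lit 3654)], [(nat_lit 965)], [(nat_lit 15052)], []⟩,
  ⟨[(nat_lit 38987)], [(nat_lit 3654)], [(nat_lit 965)], [(nat_lit 31468)], []⟩,
  ⟨[(nat_lit 38987)], [(nat_lit 3654)], [(nat_lit 965)], [(nat_lit 30606)], []⟩,
  ⟨[(nat_lit 38987)], [(nat_lit 3654)], [(nat_lit 965)], [(nat_lit 7687)], []⟩,
  ⟨[(nat_lit 38987)], [(nat_lit 3654)], [(nat_lit 1003)], [(nat_lit 5112)], []⟩,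
  ⟨[(nat_lit 38987)], [(nat_lit 3654)], [(nat_lit 1003)], [(nat_lit 21496)], []⟩,
  ⟨[(nat_lit 38987)], [(nat_lit 3654)], [(nat_lit 1003)], [(nat_lit 31345)], []⟩,
  ⟨[(nat_lit 38987)], [(nat_lit 3654)], [(nat_lit 1003)], [(nat_lit 24323)], []⟩,
  ⟨[(nat_lit 38987)], [(nat_lit 3654)], [(nat_lit 1003)], [(nat_lit 30606)], []⟩,
  ⟨[(nat_lit 38987)], [(nat_lit 3654)], [(nat_lit 1003)], [(nat_lit 7687)], []⟩,
  ⟨[(nat_lit 38987)], [(nat_lit 3777)], [(nat_lit 965)], [(nat_lit 5112)], []⟩,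
  ⟨[(nat_lit 38987)], [(nat_lit 3777)], [(nat_lit 965)], [(nat_lit 21496)], []⟩,
  ⟨[(nat_lit 38987)], [(nat_lit 3777)], [(nat_lit 965)], [(nat_lit 31345)], []⟩,
  ⟨[(nat_lit 38987)], [(nat_lit 3777)], [(nat_lit 965)], [(nat_lit 24323)], []⟩,
  ⟨[(nat_lit 38987)], [(nat_lit 3777)], [(nat_lit 965)], [(nat_lit 30606)], []⟩,
  ⟨[(nat_lit 38987)], [(nat_lit 3777)], [(nat_lit 965)], [(nat_lit 7687)], []⟩,
  ⟨[(nat_lit 38987)], [(nat_lit 3777)], [(nat_lit 1003)], [(nat_lit 5112)], []⟩,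
  ⟨[(nat_lit 38987)], [(nat_lit 3777)], [(nat_lit 1003)], [(nat_lit 21496)], []⟩,
  ⟨[(nat_lit 38987)], [(nat_lit 3777)], [(nat_lit 1003)], [(nat_lit 31345)], []⟩,
  ⟨[(nat_lit 38987)], [(nat_lit 3777)], [(nat_lit 1003)], [(nat_lit 24323)], []⟩,
  ⟨[(nat_lit 38987)], [(nat_lit 3777)], [(nat_lit 1003)], [(nat_lit 30606)], []⟩,
  ⟨[(nat_lit 38987)], [(nat_lit 3777)], [(nat_lit 1003)], [(nat_lit 7687)], []⟩,
  ⟨[(nat_lit 279033)], [(nat_lit 11670)], [(nat_lit 2006)], [(nat_lit 30217)], []⟩,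
  ⟨[(nat_lit 230868)], [(nat_lit 11376)], [(nat_lit 3031)], [(nat_lit 6729)], []⟩,
  ⟨[(nat_lit 313340)], [(nat_lit 9318)], [(nat_lit 3081)], [(nat_lit 15881)], []⟩,
  ⟨[(nat_lit 313340)], [(nat_lit 9318)], [(nat_lit 3081)], [(nat_lit 32521)], []⟩,
  ⟨[(nat_lit 313340)], [(nat_lit 5594)], [(nat_lit 2006)], [(nat_lit 30409)], []⟩,
  ⟨[(nat_lit 195209)], [(nat_lit 12258)], [(nat_lit 3081)], [(nat_lit 13193)], []⟩,
  ⟨[(nat_lit 318410)], [(nat_lit 11964)], [(nat_lit 981)], [(nat_lit 14281)], []⟩,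
  ⟨[(nat_lit 169365)], [(nat_lit 11726)], [(nat_lit 3036)], [(nat_lit 15953)], []⟩,
  ⟨[(nat_lit 169365)], [(nat_lit 11726)], [(nat_lit 2411)], [(nat_lit 15953)], []⟩,
  ⟨[(nat_lit 232740)], [(nat_lit 11628)], [(nat_lit 3111)], [(nat_lit 7121)], []⟩,
  ⟨[(nat_lit 272468)], [(nat_lit 10305)], [(nat_lit 2006)], [(nat_lit 14849)], []⟩,
  ⟨[(nat_lit 272468)], [(nat_lit 10305)], [(nat_lit 2006)], [(nat_lit 31233)], []⟩,
  ⟨[(nat_lit 38403)], [(nat_lit 11978)], [(nat_lit 2416)], [(nat_lit 23449)], []⟩,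
  ⟨[(nat_lit 171237)], [(nat_lit 11978)], [(nat_lit 3116)], [(nat_lit 16345)], []⟩,
  ⟨[(nat_lit 171237)], [(nat_lit 11978)], [(nat_lit 2491)], [(nat_lit 16345)], []⟩,
  ⟨[(nat_lit 107927)], [(nat_lit 6238)], [(nat_lit 901)], [(nat_lit 6745)], []⟩,
  ⟨[(nat_lit 107927)], [(nat_lit 6238)], [(nat_lit 1526)], [(nat_lit 6745)], []⟩,
  ⟨[(nat_lit 109799)], [(nat_lit 6490)], [(nat_lit 981)], [(nat_lit 7137)], []⟩,
  ⟨[(nat_lit 109799)], [(nat_lit 6490)], [(nat_lit 1606)], [(nat_lit 7137)], []⟩,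
  ⟨[(nat_lit 340666)], [(nat_lit 6203)], [(nat_lit 1261)], [(nat_lit 21033)], []⟩,
  ⟨[(nat_lit 55225)], [(nat_lit 4537)], [(nat_lit 3036)], [(nat_lit 7785)], []⟩,
  ⟨[(nat_lit 55225)], [(nat_lit 4537)], [(nat_lit 2411)], [(nat_lit 7785)], []⟩,
  ⟨[(nat_lit 255321)], [(nat_lit 3557)], [(nat_lit 1561)], [(nat_lit 22185)], []⟩,
  ⟨[(nat_lit 251434)], [(nat_lit 3018)], [(nat_lit 1261)], [(nat_lit 21353)], []⟩,
  ⟨[(nat_lit 251434)], [(nat_lit 4096)], [(nat_lit 1561)], [(nat_lit 6697)], []⟩,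
  ⟨[(nat_lit 251434)], [(nat_lit 4096)], [(nat_lit 1561)], [(nat_lit 23337)], []⟩,
  ⟨[(nat_lit 38663)], [(nat_lit 15513)], [(nat_lit 1611)], [(nat_lit 12969)], []⟩,
  ⟨[(nat_lit 252110)], [(nat_lit 3900)], [(nat_lit 1611)], [(nat_lit 6761)], []⟩,
  ⟨[(nat_lit 252110)], [(nat_lit 3900)], [(nat_lit 1611)], [(nat_lit 23401)], []⟩,
  ⟨[(nat_lit 252110)], [(nat_lit 7379)], [(nat_lit 2411)], [(nat_lit 4905)], []⟩,
  ⟨[(nat_lit 143118)], [(nat_lit 9346)], [(nat_lit 1041)], [(nat_lit 31345)], []⟩,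
  ⟨[(nat_lit 279670)], [(nat_lit 12874)], [(nat_lit 1091)], [(nat_lit 24305)], []⟩,
  ⟨[(nat_lit 143794)], [(nat_lit 9493)], [(nat_lit 1091)], [(nat_lit 15025)], []⟩,
  ⟨[(nat_lit 143794)], [(nat_lit 9493)], [(nat_lit 1091)], [(nat_lit 31409)], []⟩,
  ⟨[(nat_lit 57097)], [(nat_lit 4789)], [(nat_lit 3116)], [(nat_lit 8177)], []⟩,
  ⟨[(nat_lit 57097)], [(nat_lit 4789)], [(nat_lit 2491)], [(nat_lit 8177)], []⟩,
  ⟨[(nat_lit 57097)], [(nat_lit 4789)], [(nat_lit 1908)], [(nat_lit 8177)], []⟩,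
  ⟨[(nat_lit 57097)], [(nat_lit 4789)], [(nat_lit 1908)], [(nat_lit 4666)], []⟩,
  ⟨[(nat_lit 57097)], [(nat_lit 2788)], [(nat_lit 1908)], [(nat_lit 8177)], []⟩,
  ⟨[(nat_lit 57097)], [(nat_lit 2788)], [(nat_lit 1908)], [(nat_lit 4666)], []⟩,
  ⟨[(nat_lit 272585)], [(nat_lit 10333)], [(nat_lit 2021)], [(nat_lit 21145)], []⟩,
  ⟨[(nat_lit 272585)], [(nat_lit 10333)], [(nat_lit 2021)], [(nat_lit 5017)], []⟩,
  ⟨[(nat_lit 37675)], [(nat_lit 3522)], [(nat_lit 921)], [(nat_lit 31485)], []⟩,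
  ⟨[(nat_lit 37675)], [(nat_lit 3522)], [(nat_lit 921)], [(nat_lit 15357)], []⟩,
  ⟨[(nat_lit 119471)], [(nat_lit 7736)], [(nat_lit 1321)], [(nat_lit 7769)], []⟩,
  ⟨[(nat_lit 50181)], [(nat_lit 4061)], [(nat_lit 1121)], [(nat_lit 7741)], []⟩,
  ⟨[(nat_lit 316370)], [(nat_lit 11664)], [(nat_lit 877)], [(nat_lit 14240)], []⟩,
  ⟨[(nat_lit 316370)], [(nat_lit 11664)], [(nat_lit 877)], [(nat_lit 13988)], []⟩,
  ⟨[(nat_lit 283753)], [(nat_lit 4601)], [(nat_lit 3067)], [(nat_lit 32394)], []⟩,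
  ⟨[(nat_lit 283753)], [(nat_lit 4601)], [(nat_lit 3067)], [(nat_lit 16042)], []⟩,
  ⟨[(nat_lit 193351)], [(nat_lit 12014)], [(nat_lit 3007)], [(nat_lit 12810)], []⟩,
  ⟨[(nat_lit 109189)], [(nat_lit 9418)], [(nat_lit 2034)], [(nat_lit 14093)], []⟩,
  ⟨[(nat_lit 171043)], [(nat_lit 11916)], [(nat_lit 3082)], [(nat_lit 16266)], []⟩,
  ⟨[(nat_lit 171043)], [(nat_lit 11916)], [(nat_lit 3082)], [(nat_lit 32682)], []⟩,
  ⟨[(nat_lit 171043)], [(nat_lit 11916)], [(nat_lit 2457)], [(nat_lit 16266)], []⟩,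
  ⟨[(nat_lit 171043)], [(nat_lit 11916)], [(nat_lit 2457)], [(nat_lit 32682)], []⟩,
  ⟨[(nat_lit 312028)], [(nat_lit 5518)], [(nat_lit 2022)], [(nat_lit 30242)], []⟩,
  ⟨[(nat_lit 312028)], [(nat_lit 9298)], [(nat_lit 3007)], [(nat_lit 32282)], []⟩,
  ⟨[(nat_lit 312028)], [(nat_lit 9298)], [(nat_lit 3007)], [(nat_lit 15930)], []⟩,
  ⟨[(nat_lit 313549)], [(nat_lit 9494)], [(nat_lit 3082)], [(nat_lit 32730)], []⟩,
  ⟨[(nat_lit 313549)], [(nat_lit 9494)], [(nat_lit 3082)], [(nat_lit 16346)], []⟩,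
  ⟨[(nat_lit 313549)], [(nat_lit 9494)], [(nat_lit 3082)], [(nat_lit 32762)], []⟩,
  ⟨[(nat_lit 313549)], [(nat_lit 9494)], [(nat_lit 3082)], [(nat_lit 16378)], []⟩,
  ⟨[(nat_lit 300094)], [(nat_lit 10366)], [(nat_lit 1606)], [(nat_lit 24225)], []⟩,
  ⟨[(nat_lit 230830)], [(nat_lit 11356)], [(nat_lit 3017)], [(nat_lit 6706)], []⟩,
  ⟨[(nat_lit 169652)], [(nat_lit 11797)], [(nat_lit 3067)], [(nat_lit 32402)], []⟩,
  ⟨[(nat_lit 169652)], [(nat_lit 11797)], [(nat_lit 3067)], [(nat_lit 16050)], []⟩,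
  ⟨[(nat_lit 169652)], [(nat_lit 11797)], [(nat_lit 2442)], [(nat_lit 32402)], []⟩,
  ⟨[(nat_lit 169652)], [(nat_lit 11797)], [(nat_lit 2442)], [(nat_lit 16050)], []⟩,
  ⟨[(nat_lit 279177)], [(nat_lit 11706)], [(nat_lit 2022)], [(nat_lit 30266)], []⟩,
  ⟨[(nat_lit 119134)], [(nat_lit 7688)], [(nat_lit 1322)], [(nat_lit 7866)], []⟩,
  ⟨[(nat_lit 272924)], [(nat_lit 10432)], [(nat_lit 2072)], [(nat_lit 31418)], []⟩,
  ⟨[(nat_lit 341369)], [(nat_lit 6414)], [(nat_lit 1372)], [(nat_lit 21306)], []⟩,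
  ⟨[(nat_lit 285430)], [(nat_lit 4706)], [(nat_lit 3082)], [(nat_lit 16274)], []⟩,
  ⟨[(nat_lit 285430)], [(nat_lit 4706)], [(nat_lit 3082)], [(nat_lit 32690)], []⟩,
  ⟨[(nat_lit 274445)], [(nat_lit 10628)], [(nat_lit 2022)], [(nat_lit 14970)], []⟩,
  ⟨[(nat_lit 274445)], [(nat_lit 10628)], [(nat_lit 2022)], [(nat_lit 31354)], []⟩,
  ⟨[(nat_lit 169185)], [(nat_lit 11672)], [(nat_lit 3008)], [(nat_lit 15883)], []⟩,
  ⟨[(nat_lit 169185)], [(nat_lit 11672)], [(nat_lit 2383)], [(nat_lit 15883)], []⟩,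
  ⟨[(nat_lit 273458)], [(nat_lit 11672)], [(nat_lit 2458)], [(nat_lit 29259)], []⟩,
  ⟨[(nat_lit 107695)], [(nat_lit 9286)], [(nat_lit 2015)], [(nat_lit 13854)], []⟩,
  ⟨[(nat_lit 280946)], [(nat_lit 10230)], [(nat_lit 1953)], [(nat_lit 29611)], []⟩,
  ⟨[(nat_lit 193495)], [(nat_lit 12050)], [(nat_lit 3023)], [(nat_lit 12859)], []⟩,
  ⟨[(nat_lit 316696)], [(nat_lit 11756)], [(nat_lit 923)], [(nat_lit 13947)], []⟩,
  ⟨[(nat_lit 279516)], [(nat_lit 11805)], [(nat_lit 2073)], [(nat_lit 30395)], []⟩,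
  ⟨[(nat_lit 231351)], [(nat_lit 11511)], [(nat_lit 3098)], [(nat_lit 6907)], []⟩,
  ⟨[(nat_lit 313823)], [(nat_lit 9453)], [(nat_lit 3023)], [(nat_lit 16059)], []⟩,
  ⟨[(nat_lit 313823)], [(nat_lit 9453)], [(nat_lit 3023)], [(nat_lit 32699)], []⟩,
  ⟨[(nat_lit 313823)], [(nat_lit 5729)], [(nat_lit 2073)], [(nat_lit 30587)], []⟩,
  ⟨[(nat_lit 37353)], [(nat_lit 3941)], [(nat_lit 1060)], [(nat_lit 7752)], []⟩,
  ⟨[(nat_lit 37353)], [(nat_lit 3941)], [(nat_lit 1060)], [(nat_lit 24136)], []⟩,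
  ⟨[(nat_lit 37353)], [(nat_lit 3941)], [(nat_lit 1060)], [(nat_lit 4609)], []⟩,
  ⟨[(nat_lit 37353)], [(nat_lit 3941)], [(nat_lit 1060)], [(nat_lit 31418)], []⟩,
  ⟨[(nat_lit 37353)], [(nat_lit 3941)], [(nat_lit 1060)], [(nat_lit 21253)], []⟩,
  ⟨[(nat_lit 37353)], [(nat_lit 3941)], [(nat_lit 1060)], [(nat_lit 30679)], []⟩,
  ⟨[(nat_lit 37353)], [(nat_lit 3941)], [(nat_lit 877)], [(nat_lit 7752)], []⟩,
  ⟨[(nat_lit 37353)], [(nat_lit 3941)], [(nat_lit 877)], [(nat_lit 24136)], []⟩,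
  ⟨[(nat_lit 37353)], [(nat_lit 3941)], [(nat_lit 877)], [(nat_lit 4609)], []⟩,
  ⟨[(nat_lit 37353)], [(nat_lit 3941)], [(nat_lit 877)], [(nat_lit 31418)], []⟩,
  ⟨[(nat_lit 37353)], [(nat_lit 3941)], [(nat_lit 877)], [(nat_lit 21253)], []⟩,
  ⟨[(nat_lit 37353)], [(nat_lit 3941)], [(nat_lit 877)], [(nat_lit 30679)], []⟩,
  ⟨[(nat_lit 37353)], [(nat_lit 3433)], [(nat_lit 1060)], [(nat_lit 7752)], []⟩,
  ⟨[(nat_lit 37353)], [(nat_lit 3433)], [(nat_lit 1060)], [(nat_lit 24136)], []⟩,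
  ⟨[(nat_lit 37353)], [(nat_lit 3433)], [(nat_lit 1060)], [(nat_lit 4609)], []⟩,
  ⟨[(nat_lit 37353)], [(nat_lit 3433)], [(nat_lit 1060)], [(nat_lit 31418)], []⟩]

/-- single classes -/
def BG8 : List Bx := [
  ⟨[(nat_lit 37353)], [(nat_lit 3433)], [(nat_lit 1060)], [(nat_lit 21253)], []⟩,
  ⟨[(nat_lit 37353)], [(nat_lit 3433)], [(nat_lit 1060)], [(nat_lit 30679)], []⟩,
  ⟨[(nat_lit 37353)], [(nat_lit 3433)], [(nat_lit 877)], [(nat_lit 7752)], []⟩,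
  ⟨[(nat_lit 37353)], [(nat_lit 3433)], [(nat_lit 877)], [(nat_lit 24136)], []⟩,
  ⟨[(nat_lit 37353)], [(nat_lit 3433)], [(nat_lit 877)], [(nat_lit 31642)], []⟩,
  ⟨[(nat_lit 37353)], [(nat_lit 3433)], [(nat_lit 877)], [(nat_lit 31418)], []⟩,
  ⟨[(nat_lit 37353)], [(nat_lit 3433)], [(nat_lit 877)], [(nat_lit 4771)], []⟩,
  ⟨[(nat_lit 37353)], [(nat_lit 3433)], [(nat_lit 877)], [(nat_lit 21155)], []⟩,
  ⟨[(nat_lit 37353)], [(nat_lit 3433)], [(nat_lit 877)], [(nat_lit 14323)], []⟩,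
  ⟨[(nat_lit 37353)], [(nat_lit 3433)], [(nat_lit 877)], [(nat_lit 30679)], []⟩,
  ⟨[(nat_lit 37353)], [(nat_lit 3433)], [(nat_lit 877)], [(nat_lit 5031)], []⟩,
  ⟨[(nat_lit 37353)], [(nat_lit 3433)], [(nat_lit 877)], [(nat_lit 21415)], []⟩,
  ⟨[(nat_lit 37353)], [(nat_lit 3632)], [(nat_lit 877)], [(nat_lit 6882)], []⟩,
  ⟨[(nat_lit 38874)], [(nat_lit 3794)], [(nat_lit 1010)], [(nat_lit 7688)], []⟩,
  ⟨[(nat_lit 38874)], [(nat_lit 3794)], [(nat_lit 1010)], [(nat_lit 5057)], []⟩,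
  ⟨[(nat_lit 38874)], [(nat_lit 3794)], [(nat_lit 1010)], [(nat_lit 31354)], []⟩,
  ⟨[(nat_lit 38874)], [(nat_lit 3794)], [(nat_lit 1010)], [(nat_lit 30615)], []⟩,
  ⟨[(nat_lit 38874)], [(nat_lit 3794)], [(nat_lit 952)], [(nat_lit 7688)], []⟩,
  ⟨[(nat_lit 38874)], [(nat_lit 3794)], [(nat_lit 952)], [(nat_lit 5057)], []⟩,
  ⟨[(nat_lit 38874)], [(nat_lit 3794)], [(nat_lit 952)], [(nat_lit 31354)], []⟩,
  ⟨[(nat_lit 38874)], [(nat_lit 3794)], [(nat_lit 952)], [(nat_lit 30615)], []⟩,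
  ⟨[(nat_lit 38874)], [(nat_lit 3629)], [(nat_lit 1010)], [(nat_lit 7688)], []⟩,
  ⟨[(nat_lit 38874)], [(nat_lit 3629)], [(nat_lit 1010)], [(nat_lit 5057)], []⟩,
  ⟨[(nat_lit 38874)], [(nat_lit 3629)], [(nat_lit 1010)], [(nat_lit 31354)], []⟩,
  ⟨[(nat_lit 38874)], [(nat_lit 3629)], [(nat_lit 1010)], [(nat_lit 30615)], []⟩,
  ⟨[(nat_lit 38874)], [(nat_lit 3629)], [(nat_lit 952)], [(nat_lit 7688)], []⟩,
  ⟨[(nat_lit 38874)], [(nat_lit 3629)], [(nat_lit 952)], [(nat_lit 5089)], []⟩,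
  ⟨[(nat_lit 38874)], [(nat_lit 3629)], [(nat_lit 952)], [(nat_lit 31354)], []⟩,
  ⟨[(nat_lit 38874)], [(nat_lit 3629)], [(nat_lit 952)], [(nat_lit 21091)], []⟩,
  ⟨[(nat_lit 38874)], [(nat_lit 3629)], [(nat_lit 952)], [(nat_lit 14259)], []⟩,
  ⟨[(nat_lit 38874)], [(nat_lit 3629)], [(nat_lit 952)], [(nat_lit 30615)], []⟩,
  ⟨[(nat_lit 38874)], [(nat_lit 3629)], [(nat_lit 952)], [(nat_lit 21351)], []⟩,
  ⟨[(nat_lit 38874)], [(nat_lit 3485)], [(nat_lit 952)], [(nat_lit 6818)], []⟩,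
  ⟨[(nat_lit 38874)], [(nat_lit 3485)], [(nat_lit 952)], [(nat_lit 23458)], []⟩,
  ⟨[(nat_lit 105148)], [(nat_lit 7468)], [(nat_lit 2088)], [(nat_lit 15254)], []⟩,
  ⟨[(nat_lit 38081)], [(nat_lit 3601)], [(nat_lit 2412)], [(nat_lit 4681)], []⟩,
  ⟨[(nat_lit 38081)], [(nat_lit 3601)], [(nat_lit 937)], [(nat_lit 4681)], []⟩,
  ⟨[(nat_lit 38081)], [(nat_lit 3601)], [(nat_lit 937)], [(nat_lit 21321)], []⟩,
  ⟨[(nat_lit 38081)], [(nat_lit 3601)], [(nat_lit 937)], [(nat_lit 4713)], []⟩,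
  ⟨[(nat_lit 38081)], [(nat_lit 3601)], [(nat_lit 937)], [(nat_lit 24489)], []⟩,
  ⟨[(nat_lit 38081)], [(nat_lit 3601)], [(nat_lit 937)], [(nat_lit 31437)], []⟩,
  ⟨[(nat_lit 38081)], [(nat_lit 3601)], [(nat_lit 937)], [(nat_lit 14093)], []⟩,
  ⟨[(nat_lit 38081)], [(nat_lit 3601)], [(nat_lit 937)], [(nat_lit 15309)], []⟩,
  ⟨[(nat_lit 38081)], [(nat_lit 3601)], [(nat_lit 1337)], [(nat_lit 4681)], []⟩,
  ⟨[(nat_lit 272510)], [(nat_lit 11708)], [(nat_lit 2384)], [(nat_lit 29236)], []⟩,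
  ⟨[(nat_lit 302293)], [(nat_lit 11391)], [(nat_lit 1730)], [(nat_lit 21158)], []⟩,
  ⟨[(nat_lit 169329)], [(nat_lit 11708)], [(nat_lit 3024)], [(nat_lit 15932)], []⟩,
  ⟨[(nat_lit 169329)], [(nat_lit 11708)], [(nat_lit 2399)], [(nat_lit 15932)], []⟩,
  ⟨[(nat_lit 193834)], [(nat_lit 12149)], [(nat_lit 3074)], [(nat_lit 12988)], []⟩,
  ⟨[(nat_lit 109672)], [(nat_lit 9553)], [(nat_lit 2096)], [(nat_lit 14271)], []⟩,
  ⟨[(nat_lit 103563)], [(nat_lit 7280)], [(nat_lit 2039)], [(nat_lit 14959)], []⟩,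
  ⟨[(nat_lit 105435)], [(nat_lit 7532)], [(nat_lit 2119)], [(nat_lit 15351)], []⟩,
  ⟨[(nat_lit 37679)], [(nat_lit 3525)], [(nat_lit 923)], [(nat_lit 4730)], []⟩,
  ⟨[(nat_lit 37679)], [(nat_lit 3525)], [(nat_lit 923)], [(nat_lit 21114)], []⟩,
  ⟨[(nat_lit 169668)], [(nat_lit 11807)], [(nat_lit 2690)], [(nat_lit 16061)], []⟩,
  ⟨[(nat_lit 169668)], [(nat_lit 11807)], [(nat_lit 2065)], [(nat_lit 16061)], []⟩,
  ⟨[(nat_lit 169668)], [(nat_lit 11807)], [(nat_lit 3070)], [(nat_lit 16061)], []⟩,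
  ⟨[(nat_lit 169668)], [(nat_lit 11807)], [(nat_lit 2445)], [(nat_lit 16061)], []⟩,
  ⟨[(nat_lit 273941)], [(nat_lit 11807)], [(nat_lit 2395)], [(nat_lit 29437)], []⟩,
  ⟨[(nat_lit 317895)], [(nat_lit 10087)], [(nat_lit 1060)], [(nat_lit 15000)], []⟩,
  ⟨[(nat_lit 317895)], [(nat_lit 10087)], [(nat_lit 1060)], [(nat_lit 13889)], []⟩,
  ⟨[(nat_lit 317895)], [(nat_lit 10087)], [(nat_lit 877)], [(nat_lit 15000)], []⟩,
  ⟨[(nat_lit 317895)], [(nat_lit 10087)], [(nat_lit 877)], [(nat_lit 13889)], []⟩,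
  ⟨[(nat_lit 317895)], [(nat_lit 11863)], [(nat_lit 1060)], [(nat_lit 15000)], []⟩,
  ⟨[(nat_lit 317895)], [(nat_lit 11863)], [(nat_lit 1060)], [(nat_lit 13889)], []⟩,
  ⟨[(nat_lit 317895)], [(nat_lit 11863)], [(nat_lit 877)], [(nat_lit 15000)], []⟩,
  ⟨[(nat_lit 359040)], [(nat_lit 14742)], [(nat_lit 1558)], [(nat_lit 32561)], []⟩,
  ⟨[(nat_lit 356688)], [(nat_lit 14658)], [(nat_lit 1672)], [(nat_lit 29399)], []⟩,
  ⟨[(nat_lit 349838)], [(nat_lit 15735)], [(nat_lit 1729)], [(nat_lit 30435)], []⟩,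
  ⟨[(nat_lit 48862)], [(nat_lit 3881)], [(nat_lit 1032)], [(nat_lit 7690)], []⟩,
  ⟨[(nat_lit 48862)], [(nat_lit 3881)], [(nat_lit 1032)], [(nat_lit 7694)], []⟩,
  ⟨[(nat_lit 48460)], [(nat_lit 3805)], [(nat_lit 1018)], [(nat_lit 7739)], []⟩,
  ⟨[(nat_lit 48460)], [(nat_lit 3805)], [(nat_lit 1018)], [(nat_lit 15227)], []⟩,
  ⟨[(nat_lit 48460)], [(nat_lit 3805)], [(nat_lit 1018)], [(nat_lit 21215)], []⟩,
  ⟨[(nat_lit 48460)], [(nat_lit 3805)], [(nat_lit 1018)], [(nat_lit 7743)], []⟩,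
  ⟨[(nat_lit 48460)], [(nat_lit 3805)], [(nat_lit 1018)], [(nat_lit 24383)], []⟩,
  ⟨[(nat_lit 48460)], [(nat_lit 3805)], [(nat_lit 2043)], [(nat_lit 7743)], []⟩,
  ⟨[(nat_lit 48460)], [(nat_lit 3805)], [(nat_lit 1368)], [(nat_lit 7743)], []⟩,
  ⟨[(nat_lit 349502)], [(nat_lit 16044)], [(nat_lit 965)], [(nat_lit 31640)], []⟩,
  ⟨[(nat_lit 349502)], [(nat_lit 16044)], [(nat_lit 965)], [(nat_lit 30277)], []⟩,
  ⟨[(nat_lit 349502)], [(nat_lit 16044)], [(nat_lit 1590)], [(nat_lit 31640)], []⟩,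
  ⟨[(nat_lit 349502)], [(nat_lit 16044)], [(nat_lit 1590)], [(nat_lit 30277)], []⟩,
  ⟨[(nat_lit 349502)], [(nat_lit 16044)], [(nat_lit 1003)], [(nat_lit 31640)], []⟩,
  ⟨[(nat_lit 349502)], [(nat_lit 16044)], [(nat_lit 1003)], [(nat_lit 30277)], []⟩,
  ⟨[(nat_lit 349502)], [(nat_lit 16044)], [(nat_lit 1729)], [(nat_lit 31640)], []⟩,
  ⟨[(nat_lit 349502)], [(nat_lit 16044)], [(nat_lit 1729)], [(nat_lit 30277)], []⟩,
  ⟨[(nat_lit 349502)], [(nat_lit 15488)], [(nat_lit 965)], [(nat_lit 31640)], []⟩,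
  ⟨[(nat_lit 349502)], [(nat_lit 15488)], [(nat_lit 965)], [(nat_lit 30277)], []⟩,
  ⟨[(nat_lit 349502)], [(nat_lit 15488)], [(nat_lit 1590)], [(nat_lit 31640)], []⟩,
  ⟨[(nat_lit 349502)], [(nat_lit 15488)], [(nat_lit 1590)], [(nat_lit 30277)], []⟩,
  ⟨[(nat_lit 349502)], [(nat_lit 15488)], [(nat_lit 1003)], [(nat_lit 31640)], []⟩,
  ⟨[(nat_lit 349502)], [(nat_lit 15488)], [(nat_lit 1729)], [(nat_lit 31640)], []⟩,
  ⟨[(nat_lit 52920)], [(nat_lit 3881)], [(nat_lit 2705)], [(nat_lit 5898)], []⟩,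
  ⟨[(nat_lit 52920)], [(nat_lit 3881)], [(nat_lit 2080)], [(nat_lit 5898)], []⟩,
  ⟨[(nat_lit 75566)], [(nat_lit 7508)], [(nat_lit 2682)], [(nat_lit 23053)], []⟩,
  ⟨[(nat_lit 273296)], [(nat_lit 5744)], [(nat_lit 2632)], [(nat_lit 6989)], []⟩,
  ⟨[(nat_lit 289013)], [(nat_lit 7557)], [(nat_lit 2682)], [(nat_lit 29389)], []⟩,
  ⟨[(nat_lit 289013)], [(nat_lit 7557)], [(nat_lit 2682)], [(nat_lit 13261)], []⟩,
  ⟨[(nat_lit 289013)], [(nat_lit 15838)], [(nat_lit 1107)], [(nat_lit 14989)], []⟩,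
  ⟨[(nat_lit 56807)], [(nat_lit 4715)], [(nat_lit 3082)], [(nat_lit 8077)], []⟩,
  ⟨[(nat_lit 56807)], [(nat_lit 4715)], [(nat_lit 2457)], [(nat_lit 8077)], []⟩,
  ⟨[(nat_lit 351374)], [(nat_lit 15740)], [(nat_lit 1107)], [(nat_lit 30669)], []⟩,
  ⟨[(nat_lit 351374)], [(nat_lit 15740)], [(nat_lit 1732)], [(nat_lit 30669)], []⟩,
  ⟨[(nat_lit 98563)], [(nat_lit 7468)], [(nat_lit 2461)], [(nat_lit 14231)], []⟩,
  ⟨[(nat_lit 48669)], [(nat_lit 3869)], [(nat_lit 1049)], [(nat_lit 7800)], []⟩,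
  ⟨[(nat_lit 48669)], [(nat_lit 3869)], [(nat_lit 1049)], [(nat_lit 24184)], []⟩,
  ⟨[(nat_lit 49345)], [(nat_lit 4016)], [(nat_lit 1099)], [(nat_lit 7864)], []⟩,
  ⟨[(nat_lit 49345)], [(nat_lit 4016)], [(nat_lit 1099)], [(nat_lit 7868)], []⟩,
  ⟨[(nat_lit 349334)], [(nat_lit 15440)], [(nat_lit 1003)], [(nat_lit 30368)], []⟩,
  ⟨[(nat_lit 349334)], [(nat_lit 15440)], [(nat_lit 1003)], [(nat_lit 30628)], []⟩,
  ⟨[(nat_lit 349334)], [(nat_lit 15440)], [(nat_lit 1628)], [(nat_lit 30368)], []⟩,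
  ⟨[(nat_lit 349334)], [(nat_lit 15440)], [(nat_lit 1628)], [(nat_lit 30628)], []⟩,
  ⟨[(nat_lit 54949)], [(nat_lit 4471)], [(nat_lit 1997)], [(nat_lit 7694)], []⟩,
  ⟨[(nat_lit 54949)], [(nat_lit 4471)], [(nat_lit 1997)], [(nat_lit 4695)], []⟩,
  ⟨[(nat_lit 54949)], [(nat_lit 4471)], [(nat_lit 3008)], [(nat_lit 7694)], []⟩,
  ⟨[(nat_lit 54949)], [(nat_lit 4471)], [(nat_lit 2383)], [(nat_lit 7694)], []⟩,
  ⟨[(nat_lit 54949)], [(nat_lit 2813)], [(nat_lit 1997)], [(nat_lit 7694)], []⟩,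
  ⟨[(nat_lit 54949)], [(nat_lit 2813)], [(nat_lit 1997)], [(nat_lit 4695)], []⟩,
  ⟨[(nat_lit 139618)], [(nat_lit 9371)], [(nat_lit 1283)], [(nat_lit 4942)], []⟩,
  ⟨[(nat_lit 139618)], [(nat_lit 9371)], [(nat_lit 1283)], [(nat_lit 21326)], []⟩,
  ⟨[(nat_lit 241018)], [(nat_lit 6676)], [(nat_lit 1908)], [(nat_lit 15118)], []⟩,
  ⟨[(nat_lit 241018)], [(nat_lit 6676)], [(nat_lit 1283)], [(nat_lit 15118)], []⟩,
  ⟨[(nat_lit 287883)], [(nat_lit 15818)], [(nat_lit 1003)], [(nat_lit 14894)], []⟩,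
  ⟨[(nat_lit 287883)], [(nat_lit 7593)], [(nat_lit 2638)], [(nat_lit 12806)], []⟩,
  ⟨[(nat_lit 287883)], [(nat_lit 7593)], [(nat_lit 2638)], [(nat_lit 29222)], []⟩,
  ⟨[(nat_lit 289404)], [(nat_lit 7789)], [(nat_lit 2713)], [(nat_lit 13254)], []⟩,
  ⟨[(nat_lit 289404)], [(nat_lit 7789)], [(nat_lit 2713)], [(nat_lit 29638)], []⟩,
  ⟨[(nat_lit 289404)], [(nat_lit 7789)], [(nat_lit 2713)], [(nat_lit 13286)], []⟩,
  ⟨[(nat_lit 289404)], [(nat_lit 7789)], [(nat_lit 2713)], [(nat_lit 29670)], []⟩,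
  ⟨[(nat_lit 74800)], [(nat_lit 7208)], [(nat_lit 2638)], [(nat_lit 23102)], []⟩,
  ⟨[(nat_lit 272530)], [(nat_lit 5500)], [(nat_lit 2648)], [(nat_lit 6678)], []⟩,
  ⟨[(nat_lit 96978)], [(nat_lit 7280)], [(nat_lit 2412)], [(nat_lit 13928)], []⟩,
  ⟨[(nat_lit 301806)], [(nat_lit 10220)], [(nat_lit 1287)], [(nat_lit 23532)], []⟩,
  ⟨[(nat_lit 52882)], [(nat_lit 3805)], [(nat_lit 2631)], [(nat_lit 5659)], []⟩,
  ⟨[(nat_lit 52882)], [(nat_lit 3805)], [(nat_lit 2006)], [(nat_lit 5659)], []⟩,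
  ⟨[(nat_lit 98850)], [(nat_lit 7532)], [(nat_lit 2492)], [(nat_lit 14320)], []⟩,
  ⟨[(nat_lit 138436)], [(nat_lit 9274)], [(nat_lit 1259)], [(nat_lit 31407)], []⟩,
  ⟨[(nat_lit 138436)], [(nat_lit 9274)], [(nat_lit 1259)], [(nat_lit 15279)], []⟩,
  ⟨[(nat_lit 270932)], [(nat_lit 11479)], [(nat_lit 2434)], [(nat_lit 30319)], []⟩,
  ⟨[(nat_lit 49711)], [(nat_lit 3933)], [(nat_lit 1059)], [(nat_lit 8075)], []⟩,
  ⟨[(nat_lit 39402)], [(nat_lit 3737)], [(nat_lit 984)], [(nat_lit 31307)], []⟩,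
  ⟨[(nat_lit 39402)], [(nat_lit 3737)], [(nat_lit 984)], [(nat_lit 15179)], []⟩,
  ⟨[(nat_lit 153997)], [(nat_lit 5900)], [(nat_lit 2039)], [(nat_lit 7767)], []⟩,
  ⟨[(nat_lit 75243)], [(nat_lit 12123)], [(nat_lit 2039)], [(nat_lit 14871)], []⟩,
  ⟨[(nat_lit 75243)], [(nat_lit 12123)], [(nat_lit 2039)], [(nat_lit 31255)], []⟩,
  ⟨[(nat_lit 74229)], [(nat_lit 7419)], [(nat_lit 939)], [(nat_lit 24407)], []⟩,
  ⟨[(nat_lit 74229)], [(nat_lit 7419)], [(nat_lit 1564)], [(nat_lit 24407)], []⟩,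
  ⟨[(nat_lit 76764)], [(nat_lit 12319)], [(nat_lit 2114)], [(nat_lit 15319)], []⟩,
  ⟨[(nat_lit 239524)], [(nat_lit 6544)], [(nat_lit 1894)], [(nat_lit 14879)], []⟩,
  ⟨[(nat_lit 239524)], [(nat_lit 6544)], [(nat_lit 1269)], [(nat_lit 14879)], []⟩,
  ⟨[(nat_lit 68327)], [(nat_lit 10366)], [(nat_lit 1669)], [(nat_lit 12895)], []⟩,
  ⟨[(nat_lit 57511)], [(nat_lit 9442)], [(nat_lit 1104)], [(nat_lit 23415)], []⟩,
  ⟨[(nat_lit 57511)], [(nat_lit 9442)], [(nat_lit 1729)], [(nat_lit 23415)], []⟩,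
  ⟨[(nat_lit 194401)], [(nat_lit 5515)], [(nat_lit 1719)], [(nat_lit 32351)], []⟩,
  ⟨[(nat_lit 155869)], [(nat_lit 6152)], [(nat_lit 2119)], [(nat_lit 8159)], []⟩,
  ⟨[(nat_lit 354288)], [(nat_lit 3618)], [(nat_lit 2084)], [(nat_lit 24319)], []⟩,
  ⟨[(nat_lit 70199)], [(nat_lit 10618)], [(nat_lit 1749)], [(nat_lit 13287)], []⟩,
  ⟨[(nat_lit 138488)], [(nat_lit 9295)], [(nat_lit 1269)], [(nat_lit 4631)], []⟩,
  ⟨[(nat_lit 138488)], [(nat_lit 9295)], [(nat_lit 1269)], [(nat_lit 21015)], []⟩,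
  ⟨[(nat_lit 139164)], [(nat_lit 9442)], [(nat_lit 1319)], [(nat_lit 4695)], []⟩,
  ⟨[(nat_lit 139164)], [(nat_lit 9442)], [(nat_lit 1319)], [(nat_lit 4727)], []⟩,
  ⟨[(nat_lit 75789)], [(nat_lit 6166)], [(nat_lit 1029)], [(nat_lit 29615)], []⟩,
  ⟨[(nat_lit 271894)], [(nat_lit 11556)], [(nat_lit 2474)], [(nat_lit 30663)], []⟩,
  ⟨[(nat_lit 271894)], [(nat_lit 11556)], [(nat_lit 2474)], [(nat_lit 30695)], []⟩,
  ⟨[(nat_lit 171014)], [(nat_lit 7776)], [(nat_lit 1059)], [(nat_lit 31583)], []⟩,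
  ⟨[(nat_lit 55093)], [(nat_lit 4507)], [(nat_lit 3024)], [(nat_lit 7743)], []⟩,
  ⟨[(nat_lit 55093)], [(nat_lit 4507)], [(nat_lit 2399)], [(nat_lit 7743)], []⟩,
  ⟨[(nat_lit 349660)], [(nat_lit 15532)], [(nat_lit 1049)], [(nat_lit 30335)], []⟩,
  ⟨[(nat_lit 349660)], [(nat_lit 15532)], [(nat_lit 1674)], [(nat_lit 30335)], []⟩,
  ⟨[(nat_lit 53403)], [(nat_lit 4016)], [(nat_lit 2647)], [(nat_lit 6076)], []⟩,
  ⟨[(nat_lit 53403)], [(nat_lit 4016)], [(nat_lit 2022)], [(nat_lit 6076)], []⟩,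
  ⟨[(nat_lit 76049)], [(nat_lit 7300)], [(nat_lit 2749)], [(nat_lit 23231)], []⟩,
  ⟨[(nat_lit 273779)], [(nat_lit 5536)], [(nat_lit 2699)], [(nat_lit 7167)], []⟩,
  ⟨[(nat_lit 289496)], [(nat_lit 7692)], [(nat_lit 2749)], [(nat_lit 12927)], []⟩,
  ⟨[(nat_lit 289496)], [(nat_lit 7692)], [(nat_lit 2749)], [(nat_lit 29567)], []⟩,
  ⟨[(nat_lit 289496)], [(nat_lit 15973)], [(nat_lit 1049)], [(nat_lit 15167)], []⟩,
  ⟨[(nat_lit 324986)], [(nat_lit 11556)], [(nat_lit 2664)], [(nat_lit 16103)], []⟩,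
  ⟨[(nat_lit 324986)], [(nat_lit 11556)], [(nat_lit 2039)], [(nat_lit 16103)], []⟩]

/-- the boxes -/
def BB : List (List Bx) := [BG0, BG1, BG2, BG3, BG4, BG5, BG6, BG7, BG8]

/-- the classes modulo `13`, `7`, `5`, `8` lie in one of the boxes -/
def R8 (a b c B m : ℤ) : Prop := ∃ BS ∈ BB, ∃ bx ∈ BS, InB bx a b c B m

theorem R8_of {a b c B m : ℤ}
    (h : inBss (cd 13 a b c B m) (cd 7 a b c B m) (cd 5 a b c B m) (cd 8 a b c B m) BB = true) :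
    R8 a b c B m := by
  obtain ⟨BS, h1, bx, h2, h3, h4, h5, h6⟩ := inBss_spec h
  exact ⟨BS, h1, bx, h2, h3, h4, h5, h6⟩

end Pool.Agent.LibH4.S7
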