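import Pool.Agent.Lib_helper4.S7.Code
import Pool.Agent.Lib_helper5.P7.Lane

/-!
Period seven: kernel functions for the evaluation of the reduced relations: scalar evaluation and
evaluation in lanes.
-/

namespace Pool.Agent.LibH4.S7

open Pool.Agent.Lib_helper5 Pool.Agent.Lib_helper5.LK Pool.Agent.Lib_helper5.TB
  Pool.Agent.Lib_helper5.Lane Pool.Agent.LibH4.Ker

/-! ### rows of a table -/

/-- lookup -/
def nthP (L : List (ℕ × ℕ)) (i : ℕ) : ℕ × ℕ :=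
  @List.rec (ℕ × ℕ) (fun _ => ℕ → ℕ × ℕ) (fun _ => (0, 0))
    (fun x _ ih i => @Nat.rec (fun _ => ℕ × ℕ) x (fun j _ => ih j) i) L i

lemma nthP_eq (L : List (ℕ × ℕ)) (i : ℕ) : nthP L i = L.getD i (0, 0) := by
  induction L generalizing i with
  | nil => rfl
  | cons x xs ih =>
    cases i with
    | zero => rfl
    | succ i =>
      rw [List.getD_cons_succ, ← ih]
      rfl

/-- row of the first sums -/
def gx (r : Rl) (q : ℕ) : ℕ := (nthP r.rows q).1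
/-- row of the second sums -/
def gy (r : Rl) (q : ℕ) : ℕ := (nthP r.rows q).2

/-- position in a row -/
def ps (r : Rl) (N2 N3 k2 k3 j : ℕ) : ℕ :=
  Nat.add (Nat.mul (cq r.n2 r.ex2 r.PT2 N2 k2 j) r.len3) (cq r.n3 r.ex3 r.PT3 N3 k3 j)

lemma tX_eq (r : Rl) (N2 N3 k2 k3 j q : ℕ) :
    tX r.rows r.len3 q (cq r.n2 r.ex2 r.PT2 N2 k2 j) (cq r.n3 r.ex3 r.PT3 N3 k3 j) =
      dig (gx r q) (ps r N2 N3 k2 k3 j) := by
  unfold tX gx ps; rw [nthP_eq]; rfl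

lemma tY_eq (r : Rl) (N2 N3 k2 k3 j q : ℕ) :
    tY r.rows r.len3 q (cq r.n2 r.ex2 r.PT2 N2 k2 j) (cq r.n3 r.ex3 r.PT3 N3 k3 j) =
      dig (gy r q) (ps r N2 N3 k2 k3 j) := by
  unfold tY gy ps; rw [nthP_eq]; rfl

/-! ### scalar evaluation -/

/-- product of the characters -/
def s3 (r : Rl) (N1 N2 N3 k1 k2 k3 j : ℕ) : ℕ :=
  Nat.mod (Nat.mul (cx r.n1 r.t1 N1 k1 j) (Nat.mul (cx r.n2 r.t2 N2 k2 j)
    (cx r.n3 r.t3 N3 k3 j))) r.l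

/-- first part of a term -/
def xt (r : Rl) (N1 N2 N3 k1 k2 k3 j : ℕ) : ℕ :=
  strict (cq r.n1 r.ex1 r.PT1 N1 k1 j) fun q =>
    Nat.mul (Nat.mul (s3 r N1 N2 N3 k1 k2 k3 j) (fK j)) (dig (gx r q) (ps r N2 N3 k2 k3 j))

/-- second part of a term -/
def yt (r : Rl) (N1 N2 N3 k1 k2 k3 j : ℕ) : ℕ :=
  strict (cq r.n1 r.ex1 r.PT1 N1 k1 j) fun q =>
    Nat.mod (Nat.mul (s3 r N1 N2 N3 k1 k2 k3 j) (dig (gy r q) (ps r N2 N3 k2 k3 j))) r.l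

/-- sum of the first parts -/
def kvx (r : Rl) (N1 N2 N3 k1 k2 k3 : ℕ) : ℕ :=
  Nat.mod (Nat.add (xt r N1 N2 N3 k1 k2 k3 (nat_lit 1))
    (Nat.add (xt r N1 N2 N3 k1 k2 k3 (nat_lit 2))
      (Nat.add (xt r N1 N2 N3 k1 k2 k3 (nat_lit 3)) (xt r N1 N2 N3 k1 k2 k3 (nat_lit 4))))) r.l

/-- packed second parts -/
def kvy (r : Rl) (N1 N2 N3 k1 k2 k3 : ℕ) : ℕ :=
  Nat.add (yt r N1 N2 N3 k1 k2 k3 (nat_lit 0)) (Nat.mul (nat_lit 65536)
    (Nat.add (yt r N1 N2 N3 k1 k2 k3 (nat_lit 1)) (Nat.mul (nat_lit 65536)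
      (Nat.add (yt r N1 N2 N3 k1 k2 k3 (nat_lit 2)) (Nat.mul (nat_lit 65536)
        (yt r N1 N2 N3 k1 k2 k3 (nat_lit 3)))))))

/-- packed coefficients -/
def al (N k : ℕ) : ℕ :=
  Nat.add (fA N k (nat_lit 3)) (Nat.mul (nat_lit 65536)
    (Nat.add (fA N k (nat_lit 2)) (Nat.mul (nat_lit 65536)
      (Nat.add (fA N k (nat_lit 1)) (Nat.mul (nat_lit 65536) (fA N k (nat_lit 0)))))))

/-- the value of a relation -/
def sv (r : Rl) (N1 N2 N3 k1 k2 k3 kl : ℕ) : ℕ :=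
  Nat.mod (Nat.add (kvx r N1 N2 N3 k1 k2 k3)
    (Nat.mod (Nat.shiftRight (Nat.mul (kvy r N1 N2 N3 k1 k2 k3) (al r.l kl)) (nat_lit 48))
      (nat_lit 65536))) r.l

/-- check of a relation -/
def chkS (r : Rl) (N1 N2 N3 k1 k2 k3 kl : ℕ) (k : Bool) : Bool :=
  @Nat.rec (fun _ => Bool) k (fun _ _ => true) (sv r N1 N2 N3 k1 k2 k3 kl)

lemma ip4 {y0 y1 y2 y3 a0 a1 a2 a3 : ℕ} (h0 : y0 < 100) (h1 : y1 < 100) (h2 : y2 < 100)
    (h3 : y3 < 100) (g0 : a0 < 100) (g1 : a1 < 100) (g2 : a2 < 100) (g3 : a3 < 100) :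
    ((y0 + 65536 * (y1 + 65536 * (y2 + 65536 * y3))) *
      (a3 + 65536 * (a2 + 65536 * (a1 + 65536 * a0)))) >>> 48 % 65536 =
      y0 * a0 + y1 * a1 + y2 * a2 + y3 * a3 := by
  have hm : ∀ x y : ℕ, x < 100 → y < 100 → x * y < 10000 := fun x y hx hy => by nlinarith
  have e : (y0 + 65536 * (y1 + 65536 * (y2 + 65536 * y3))) *
      (a3 + 65536 * (a2 + 65536 * (a1 + 65536 * a0))) =
      (y0 * a3 + 65536 * (y0 * a2 + y1 * a3 + 65536 * (y0 * a1 + y1 * a2 + y2 * a3))) +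
        281474976710656 * ((y0 * a0 + y1 * a1 + y2 * a2 + y3 * a3) + 65536 *
          (y1 * a0 + y2 * a1 + y3 * a2 + 65536 * (y2 * a0 + y3 * a1 + 65536 * (y3 * a0)))) := by
    ring
  rw [Nat.shiftRight_eq_div_pow, e]
  have b1 := hm y0 a3 h0 g3
  have b2 := hm y0 a2 h0 g2
  have b3 := hm y1 a3 h1 g3
  have b4 := hm y0 a1 h0 g1
  have b5 := hm y1 a2 h1 g2
  have b6 := hm y2 a3 h2 g3
  have b7 := hm y0 a0 h0 g0
  have b8 := hm y1 a1 h1 g1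
  have b9 := hm y2 a2 h2 g2
  have b10 := hm y3 a3 h3 g3
  have e2 : (2 : ℕ) ^ 48 = 281474976710656 := by norm_num
  rw [e2, Nat.add_mul_div_left _ _ (by norm_num), Nat.div_eq_of_lt (by omega), zero_add,
    Nat.add_mul_mod_self_left, Nat.mod_eq_of_lt (by omega)]

lemma fA_lt {n k j : ℕ} (hn : 0 < n) : fA n k j < n := by
  have h : ∀ x, ng n x < n := fun x => Nat.mod_lt _ hn
  unfold fA
  match j with
  | 0 => exact h _
  | 1 => exact h _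
  | 2 => exact h _
  | 3 => exact h _
  | _ + 4 => exact hn

section Sc

variable {r : Rl} {N1 N2 N3 k1 k2 k3 kl : ℕ}

lemma yt_lt (hl : 0 < r.l) (j : ℕ) : yt r N1 N2 N3 k1 k2 k3 j < r.l := by
  unfold yt; rw [strict_eq]; exact Nat.mod_lt _ hl

lemma xt_mod (j : ℕ) : (xt r N1 N2 N3 k1 k2 k3 j : ZMod r.l) =
    ((cx r.n1 r.t1 N1 k1 j * cx r.n2 r.t2 N2 k2 j * cx r.n3 r.t3 N3 k3 j *
    (fK j * tX r.rows r.len3 (cq r.n1 r.ex1 r.PT1 N1 k1 j) (cq r.n2 r.ex2 r.PT2 N2 k2 j)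
      (cq r.n3 r.ex3 r.PT3 N3 k3 j)) : ℕ) : ZMod r.l) := by
  unfold xt s3
  rw [strict_eq, tX_eq]
  change ((_ % r.l * fK j * _ : ℕ) : ZMod r.l) = _
  push_cast
  rw [ZMod.natCast_mod]
  change (((_ * (_ * _) : ℕ) : ZMod r.l)) * _ * _ = _
  push_cast
  ring

lemma yt_mod (j : ℕ) : (yt r N1 N2 N3 k1 k2 k3 j : ZMod r.l) =
    ((cx r.n1 r.t1 N1 k1 j * cx r.n2 r.t2 N2 k2 j * cx r.n3 r.t3 N3 k3 j *
    tY r.rows r.len3 (cq r.n1 r.ex1 r.PT1 N1 k1 j) (cq r.n2 r.ex2 r.PT2 N2 k2 j)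
      (cq r.n3 r.ex3 r.PT3 N3 k3 j) : ℕ) : ZMod r.l) := by
  unfold yt s3
  rw [strict_eq, tY_eq]
  change ((_ % r.l : ℕ) : ZMod r.l) = _
  rw [ZMod.natCast_mod]
  change ((_ % r.l * _ : ℕ) : ZMod r.l) = _
  push_cast
  rw [ZMod.natCast_mod]
  change (((_ * (_ * _) : ℕ) : ZMod r.l)) * _ = _
  push_cast
  ring

/-- value of the packed product -/
lemma ip_val (hl : 0 < r.l) (hl2 : r.l < 100) :
    Nat.mod (Nat.shiftRight (Nat.mul (kvy r N1 N2 N3 k1 k2 k3) (al r.l kl)) (nat_lit 48))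
      (nat_lit 65536) =
    yt r N1 N2 N3 k1 k2 k3 0 * fA r.l kl 0 + yt r N1 N2 N3 k1 k2 k3 1 * fA r.l kl 1 +
      yt r N1 N2 N3 k1 k2 k3 2 * fA r.l kl 2 + yt r N1 N2 N3 k1 k2 k3 3 * fA r.l kl 3 := by
  have hy := fun j => (yt_lt (r := r) (N1 := N1) (N2 := N2) (N3 := N3) (k1 := k1) (k2 := k2)
    (k3 := k3) hl j).trans hl2
  have ha := fun j => (fA_lt (n := r.l) (k := kl) (j := j) hl).trans hl2
  exact ip4 (hy 0) (hy 1) (hy 2) (hy 3) (ha 0) (ha 1) (ha 2) (ha 3)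

lemma sv_eq (hl : 0 < r.l) (hl2 : r.l < 100) :
    sv r N1 N2 N3 k1 k2 k3 kl =
    (tm r N1 N2 N3 r.l k1 k2 k3 kl 0 + (tm r N1 N2 N3 r.l k1 k2 k3 kl 1 +
      (tm r N1 N2 N3 r.l k1 k2 k3 kl 2 + (tm r N1 N2 N3 r.l k1 k2 k3 kl 3 +
        tm r N1 N2 N3 r.l k1 k2 k3 kl 4)))) % r.l := by
  unfold sv
  rw [ip_val hl hl2]
  change (_ + _) % r.l = _
  have h : NeZero r.l := ⟨hl.ne'⟩
  rw [← ZMod.val_natCast, ← ZMod.val_natCast]
  congr 1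
  unfold kvx
  change ((_ % r.l + _ : ℕ) : ZMod r.l) = _
  push_cast
  rw [ZMod.natCast_mod]
  change ((_ + (_ + (_ + _)) : ℕ) : ZMod r.l) + _ = _
  push_cast
  rw [xt_mod, xt_mod, xt_mod, xt_mod, yt_mod, yt_mod, yt_mod, yt_mod]
  unfold tm
  have f0 : fK 0 = 0 := rfl
  have f4 : fA r.l kl 4 = 0 := rfl
  rw [f0, f4]
  push_cast
  ring

end Sc

/-- codes modulo one -/
lemma cd_one (a b c B m : ℤ) : cd 1 a b c B m = 0 := by
  have h : ∀ x : ℤ, rs 1 x = 0 := fun x => by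
    have := rs_lt (p := 1) x
    omega
  unfold cd
  rw [h, h, h, h, h]

/-- a relation which holds passes the check -/
theorem chkS_spec {r : Rl} {a b c B m : ℤ} (h : Holds r a b c B m) {N1 N2 N3 : ℕ}
    [NeZero r.n1] [NeZero r.n2] [NeZero r.n3] [NeZero r.l] [NeZero N1] [NeZero N2] [NeZero N3]
    (h1 : r.n1 ∣ N1) (h2 : r.n2 ∣ N2) (h3 : r.n3 ∣ N3) (hl2 : r.l < 100) {k : Bool}
    (hc : chkS r N1 N2 N3 (cd N1 a b c B m) (cd N2 a b c B m) (cd N3 a b c B m)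
      (cd r.l a b c B m) k = true) : k = true := by
  have h4 : sv r N1 N2 N3 (cd N1 a b c B m) (cd N2 a b c B m) (cd N3 a b c B m)
      (cd r.l a b c B m) = 0 := by
    rw [sv_eq (Nat.pos_of_ne_zero (NeZero.ne _)) hl2]
    exact h.tm h1 h2 h3
  unfold chkS at hc
  rw [h4] at hc
  exact hc

/-! ### lanes -/

/-- data of a lane for the form `j` -/
def ld (r : Rl) (N2 N3 k2 k3 j : ℕ) : ℕ :=
  Nat.add (ps r N2 N3 k2 k3 j) (Nat.mul (nat_lit 65536)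
    (Nat.mod (Nat.mul (cx r.n2 r.t2 N2 k2 j) (cx r.n3 r.t3 N3 k3 j)) r.l))

/-- entry of a vector -/
def ent (l R e : ℕ) : ℕ :=
  Nat.mod (Nat.mul (Nat.div e (nat_lit 65536)) (dig R (Nat.mod e (nat_lit 65536)))) l

/-- vector -/
def rowP (l R : ℕ) (L : List ℕ) : ℕ := packL (nat_lit 16777216) (ent l R) L

/-- data of a lane for the form `j`, when the coefficients depend on the lane -/
def ldK (r : Rl) (N2 N3 k2 k3 kl j : ℕ) : ℕ :=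
  Nat.add (ps r N2 N3 k2 k3 j) (Nat.mul (nat_lit 65536)
    (Nat.add (Nat.mod (Nat.mul (fK j) (Nat.mul (cx r.n2 r.t2 N2 k2 j) (cx r.n3 r.t3 N3 k3 j))) r.l)
      (Nat.mul (nat_lit 256) (Nat.mod (Nat.mul (fA r.l kl j)
        (Nat.mul (cx r.n2 r.t2 N2 k2 j) (cx r.n3 r.t3 N3 k3 j))) r.l))))

/-- entry of a vector -/
def entK (l R R' e : ℕ) : ℕ :=
  Nat.mod (Nat.add
    (Nat.mul (Nat.mod (Nat.div e (nat_lit 65536)) (nat_lit 256))
      (dig R (Nat.mod e (nat_lit 65536))))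
    (Nat.mul (Nat.div e (nat_lit 16777216)) (dig R' (Nat.mod e (nat_lit 65536))))) l

/-- vector -/
def rowK (l R R' : ℕ) (L : List ℕ) : ℕ := packL (nat_lit 16777216) (entK l R R') L

/-- the data of the lanes -/
structure L5 where
  /-- form `0` -/
  L0 : List ℕ
  /-- form `1` -/
  L1 : List ℕ
  /-- form `2` -/
  L2 : List ℕ
  /-- form `3` -/
  L3 : List ℕ
  /-- form `4` -/
  L4 : List ℕ

/-- forced evaluation of the data of the lanes -/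
def mkL5 {α β : Type} (f : ℕ → α → ℕ) (K : List α) (k : L5 → β) : β :=
  mapS (f (nat_lit 0)) K fun L0 => mapS (f (nat_lit 1)) K fun L1 =>
  mapS (f (nat_lit 2)) K fun L2 => mapS (f (nat_lit 3)) K fun L3 =>
  mapS (f (nat_lit 4)) K fun L4 => k ⟨L0, L1, L2, L3, L4⟩

/-- the value -/
def L5of {α : Type} (f : ℕ → α → ℕ) (K : List α) : L5 :=
  ⟨K.map (f 0), K.map (f 1), K.map (f 2), K.map (f 3), K.map (f 4)⟩

lemma mkL5_eq {α β : Type} (f : ℕ → α → ℕ) (K : List α) (k : L5 → β) :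
    mkL5 f K k = k (L5of f K) := by
  unfold mkL5
  rw [mapS_eq, mapS_eq, mapS_eq, mapS_eq, mapS_eq]
  rfl

/-- term -/
def xT (r : Rl) (L : List ℕ) (j q P : ℕ) : ℕ :=
  Nat.mul (Nat.mod (Nat.mul (dig r.t1 P) (fK j)) r.l) (rowP r.l (gx r q) L)
/-- term -/
def yT (r : Rl) (L : List ℕ) (q P α : ℕ) : ℕ :=
  Nat.mul (Nat.mod (Nat.mul (dig r.t1 P) α) r.l) (rowP r.l (gy r q) L)
/-- term -/
def kT (r : Rl) (L : List ℕ) (q P : ℕ) : ℕ :=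
  Nat.mul (Nat.mod (dig r.t1 P) r.l) (rowK r.l (gx r q) (gy r q) L)

/-- values of a relation in the lanes; the modulus is the outer prime -/
def FL (r : Rl) (S : L5) (m m2 m3 q0 q1 q2 q3 q4 A0 A1 A2 A3 : ℕ) : ℕ :=
  Nat.add (yT r S.L0 q0 m A0) (Nat.add (xT r S.L1 (nat_lit 1) q1 (nat_lit 1))
  (Nat.add (yT r S.L1 q1 (nat_lit 1) A1) (Nat.add (xT r S.L2 (nat_lit 2) q2 m)
  (Nat.add (yT r S.L2 q2 m A2) (Nat.add (xT r S.L3 (nat_lit 3) q3 m2)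
  (Nat.add (yT r S.L3 q3 m2 A3) (xT r S.L4 (nat_lit 4) q4 m3)))))))

/-- values of a relation in the lanes; the coefficients depend on the lane -/
def FK (r : Rl) (S : L5) (m m2 m3 q0 q1 q2 q3 q4 : ℕ) : ℕ :=
  Nat.add (kT r S.L0 q0 m) (Nat.add (kT r S.L1 q1 (nat_lit 1))
  (Nat.add (kT r S.L2 q2 m) (Nat.add (kT r S.L3 q3 m2) (kT r S.L4 q4 m3))))

/-- the vector `1 1 ... 1` -/
def ones (n : ℕ) : ℕ :=
  Nat.div (Nat.sub (Nat.pow (nat_lit 16777216) n) (nat_lit 1)) (nat_lit 16777215)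

/-- multiplier of the zero test -/
def mu (l : ℕ) : ℕ := Nat.add (Nat.div (nat_lit 32768) l) (nat_lit 1)

/-- the lanes in which the value is divisible by `l` -/
def msk (l n V : ℕ) : ℕ :=
  zt (mu l) (Nat.mul (nat_lit 32767) (ones n))
    (Nat.mul (Nat.sub (nat_lit 32768) (mu l)) (ones n)) (Nat.mul (nat_lit 32768) (ones n)) V

end Pool.Agent.LibH4.S7
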