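import Pool.Agent.Lib_helper4.S7.Eng

/-!
Period seven: meaning of the evaluation in lanes.
-/

namespace Pool.Agent.LibH4.S7

open Pool.Agent.Lib_helper5 Pool.Agent.Lib_helper5.LK Pool.Agent.Lib_helper5.TB
  Pool.Agent.Lib_helper5.Lane Pool.Agent.LibH4.Ker

/-! ### the zero test -/

/-- numerical conditions -/
structure LOK (l : ℕ) : Prop where
  l1 : 0 < l
  l2 : l < 100
  hB : ztB l 15 (mu l) (8 * ((l - 1) * (l - 1)) + 1) = true
  hM : mu l ≤ 2 ^ 15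
  hw : mu l * (8 * ((l - 1) * (l - 1)) + 1) ≤ 2 ^ 24

lemma allR_of {p : ℕ → Bool} {n : ℕ} (h : ∀ m < n, p m = true) : allR p n = true := by
  induction n with
  | zero => rfl
  | succ n ih =>
    change @Bool.rec (fun _ => Bool) false (allR p n) (p n) = true
    rw [h n (by omega), ih fun m hm => h m (by omega)]

lemma allR_split {p : ℕ → Bool} {n u v : ℕ} (hn : n ≤ u * v) (hv : 0 < v)
    (h : allR (fun i => allR (fun j => p (Nat.add (Nat.mul i v) j)) v) u = true) :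
    allR p n = true := by
  apply allR_of
  intro m hm
  have h1 : m / v < u := Nat.div_lt_of_lt_mul (by rw [mul_comm]; omega)
  have h2 := allR_spec (allR_spec h (m / v) h1) (m % v) (Nat.mod_lt _ hv)
  have e : Nat.add (Nat.mul (m / v) v) (m % v) = m := Nat.div_add_mod' m v
  rwa [e] at h2

lemma ztB_split {l s M bd : ℕ} (u v : ℕ) (hn : bd ≤ u * v) (hv : 0 < v)
    (h : allR (fun i => allR (fun j => (fun v => @Bool.rec (fun _ => Bool)
      (@Bool.rec (fun _ => Bool) true false (Nat.ble (Nat.succ (Nat.mod (Nat.mul M v)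
        (Nat.pow (nat_lit 2) s))) M))
      (Nat.ble (Nat.succ (Nat.mod (Nat.mul M v) (Nat.pow (nat_lit 2) s))) M)
      (Nat.beq (Nat.mod v l) (nat_lit 0))) (Nat.add (Nat.mul i v) j)) v) u = true) :
    ztB l s M bd = true := allR_split hn hv h

lemma lok5 : LOK 5 := ⟨by norm_num, by norm_num, by decide +kernel, by decide, by decide⟩
lemma lok7 : LOK 7 := ⟨by norm_num, by norm_num, by decide +kernel, by decide, by decide⟩
lemma lok11 : LOK 11 := ⟨by norm_num, by norm_num, by decide +kernel, by decide, by decide⟩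
lemma lok13 : LOK 13 := ⟨by norm_num, by norm_num, by decide +kernel, by decide, by decide⟩
lemma lok17 : LOK 17 := ⟨by norm_num, by norm_num,
  ztB_split 54 50 (by norm_num) (by norm_num) (by decide +kernel), by decide, by decide⟩
lemma lok19 : LOK 19 := ⟨by norm_num, by norm_num,
  ztB_split 54 50 (by norm_num) (by norm_num) (by decide +kernel), by decide, by decide⟩

lemma ones_eq {α : Type} (L : List α) : packL (2 ^ 24) (fun _ => 1) L = ones L.length := by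
  have h : 16777215 * packL (2 ^ 24) (fun _ => 1) L + 1 = 16777216 ^ L.length := by
    induction L with
    | nil => rfl
    | cons x xs ih =>
      rw [packL_cons, List.length_cons, pow_succ (16777216 : ℕ), ← ih]
      have e : (2 : ℕ) ^ 24 = 16777216 := by norm_num
      rw [e]
      ring
  unfold ones
  change _ = (16777216 ^ L.length - 1) / 16777215
  rw [← h]
  omega

lemma const_eq {α : Type} (c : ℕ) (L : List α) :
    packL (2 ^ 24) (fun _ => c) L = c * ones L.length := by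
  rw [← ones_eq, ← packL_mul]
  apply packL_congr
  intro _ _
  ring

lemma msk_eq {α : Type} {l : ℕ} (h : LOK l) {f : α → ℕ} {L : List α}
    (hf : ∀ x ∈ L, f x < 8 * ((l - 1) * (l - 1)) + 1) :
    msk l L.length (packL (2 ^ 24) f L) =
      packL (2 ^ 24) (fun x => if l ∣ f x then 2 ^ 15 else 0) L := by
  have e1 : Nat.mul (nat_lit 32767) (ones L.length) = packL (2 ^ 24) (fun _ => 2 ^ 15 - 1) L :=
    (const_eq 32767 L).symm
  have e2 : Nat.mul (Nat.sub (nat_lit 32768) (mu l)) (ones L.length) =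
    packL (2 ^ 24) (fun _ => 2 ^ 15 - mu l) L := (const_eq (32768 - mu l) L).symm
  have e3 : Nat.mul (nat_lit 32768) (ones L.length) = packL (2 ^ 24) (fun _ => 2 ^ 15) L :=
    (const_eq 32768 L).symm
  unfold msk
  rw [e1, e2, e3]
  exact zt_eq h.hB (by norm_num) h.hM hf h.hw

/-- a lane with a multiple of `l` has its bit in the mask -/
theorem bit_of {α : Type} {l : ℕ} (h : LOK l) {f : α → ℕ} {L : List α}
    (hf : ∀ x ∈ L, f x < 8 * ((l - 1) * (l - 1)) + 1) {i : ℕ} (hi : i < L.length)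
    (hd : l ∣ f L[i]) : (msk l L.length (packL (2 ^ 24) f L)).testBit (24 * i + 15) = true := by
  rw [msk_eq h hf]
  apply testBit_packL _ hi
  · rw [if_pos hd]
  · intro x _
    split_ifs <;> norm_num

/-! ### entries -/

lemma pos_lt (n ex PT P R S : ℕ) : pos n ex PT P R S < 256 := by
  unfold pos
  rw [strict_eq]
  exact Nat.mod_lt _ (by norm_num)

lemma ps_lt {r : Rl} (hr : r.len3 < 256) (N2 N3 k2 k3 j : ℕ) : ps r N2 N3 k2 k3 j < 65536 := by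
  have h1 : cq r.n2 r.ex2 r.PT2 N2 k2 j < 256 := pos_lt _ _ _ _ _ _
  have h2 : cq r.n3 r.ex3 r.PT3 N3 k3 j < 256 := pos_lt _ _ _ _ _ _
  change cq r.n2 r.ex2 r.PT2 N2 k2 j * r.len3 + cq r.n3 r.ex3 r.PT3 N3 k3 j < 65536
  nlinarith

lemma ent_lt {l : ℕ} (hl : 0 < l) (R e : ℕ) : ent l R e < l := Nat.mod_lt _ hl
lemma entK_lt {l : ℕ} (hl : 0 < l) (R R' e : ℕ) : entK l R R' e < l := Nat.mod_lt _ hl

lemma ent_ld {r : Rl} (hr : r.len3 < 256) (N2 N3 k2 k3 j R : ℕ) :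
    ((ent r.l R (ld r N2 N3 k2 k3 j) : ℕ) : ZMod r.l) =
      ((cx r.n2 r.t2 N2 k2 j * cx r.n3 r.t3 N3 k3 j * dig R (ps r N2 N3 k2 k3 j) : ℕ) :
        ZMod r.l) := by
  have h := ps_lt hr N2 N3 k2 k3 j
  set P := ps r N2 N3 k2 k3 j with hP
  have e1 : ld r N2 N3 k2 k3 j = P + 65536 *
    (cx r.n2 r.t2 N2 k2 j * cx r.n3 r.t3 N3 k3 j % r.l) := rfl
  have e2 : ent r.l R (ld r N2 N3 k2 k3 j) =
    (ld r N2 N3 k2 k3 j / 65536 * dig R (ld r N2 N3 k2 k3 j % 65536)) % r.l := rfl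
  rw [e2, e1, Nat.add_mul_div_left _ _ (by norm_num), Nat.div_eq_of_lt h, zero_add,
    Nat.add_mul_mod_self_left, Nat.mod_eq_of_lt h]
  rw [ZMod.natCast_mod]
  push_cast
  rw [ZMod.natCast_mod]
  push_cast
  ring

lemma entK_ld {r : Rl} (hr : r.len3 < 256) (hl : 0 < r.l) (hl2 : r.l < 256)
    (N2 N3 k2 k3 kl j R R' : ℕ) :
    ((entK r.l R R' (ldK r N2 N3 k2 k3 kl j) : ℕ) : ZMod r.l) =
      ((cx r.n2 r.t2 N2 k2 j * cx r.n3 r.t3 N3 k3 j *
        (fK j * dig R (ps r N2 N3 k2 k3 j) + fA r.l kl j * dig R' (ps r N2 N3 k2 k3 j)) : ℕ) :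
        ZMod r.l) := by
  have h := ps_lt hr N2 N3 k2 k3 j
  set P := ps r N2 N3 k2 k3 j with hP
  set u := fK j * (cx r.n2 r.t2 N2 k2 j * cx r.n3 r.t3 N3 k3 j) % r.l with hu
  set v := fA r.l kl j * (cx r.n2 r.t2 N2 k2 j * cx r.n3 r.t3 N3 k3 j) % r.l with hv
  have hu2 : u < 256 := (Nat.mod_lt _ hl).trans hl2
  have e1 : ldK r N2 N3 k2 k3 kl j = P + 65536 * (u + 256 * v) := rfl
  have e2 : entK r.l R R' (ldK r N2 N3 k2 k3 kl j) =
    ((ldK r N2 N3 k2 k3 kl j / 65536) % 256 * dig R (ldK r N2 N3 k2 k3 kl j % 65536) +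
      ldK r N2 N3 k2 k3 kl j / 16777216 * dig R' (ldK r N2 N3 k2 k3 kl j % 65536)) % r.l := rfl
  have e3 : (P + 65536 * (u + 256 * v)) / 16777216 = v := by omega
  have e4 : (P + 65536 * (u + 256 * v)) / 65536 % 256 = u := by omega
  have e5 : (P + 65536 * (u + 256 * v)) % 65536 = P := by omega
  rw [e2, e1, e3, e4, e5, ZMod.natCast_mod]
  push_cast
  rw [hu, hv, ZMod.natCast_mod, ZMod.natCast_mod]
  push_cast
  ring

/-! ### values in the lanes -/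

lemma rowP_map {α : Type} (l R : ℕ) (g : α → ℕ) (K : List α) :
    rowP l R (K.map g) = packL (2 ^ 24) (fun x => ent l R (g x)) K := by
  unfold rowP
  rw [packL_map]
  rfl

lemma rowK_map {α : Type} (l R R' : ℕ) (g : α → ℕ) (K : List α) :
    rowK l R R' (K.map g) = packL (2 ^ 24) (fun x => entK l R R' (g x)) K := by
  unfold rowK
  rw [packL_map]
  rfl

/-- position of the form `j` modulo `p` -/
def qz (p ex PT : ℕ) (a b c B m : ℤ) (j : ℕ) : ℕ :=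
  pos p ex PT (rs p (jf a b c B m j).P) (rs p (jf a b c B m j).R) (rs p (jf a b c B m j).S)

section L

variable {r : Rl} {a b c B m : ℤ} {N2 N3 : ℕ}

/-- the eight terms of a lane -/
def vL (r : Rl) (N2 N3 k2 k3 m m2 m3 q0 q1 q2 q3 q4 A0 A1 A2 A3 : ℕ) : ℕ :=
  (dig r.t1 m * A0 % r.l) * ent r.l (gy r q0) (ld r N2 N3 k2 k3 0) +
  ((dig r.t1 1 * fK 1 % r.l) * ent r.l (gx r q1) (ld r N2 N3 k2 k3 1) +
  ((dig r.t1 1 * A1 % r.l) * ent r.l (gy r q1) (ld r N2 N3 k2 k3 1) +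
  ((dig r.t1 m * fK 2 % r.l) * ent r.l (gx r q2) (ld r N2 N3 k2 k3 2) +
  ((dig r.t1 m * A2 % r.l) * ent r.l (gy r q2) (ld r N2 N3 k2 k3 2) +
  ((dig r.t1 m2 * fK 3 % r.l) * ent r.l (gx r q3) (ld r N2 N3 k2 k3 3) +
  ((dig r.t1 m2 * A3 % r.l) * ent r.l (gy r q3) (ld r N2 N3 k2 k3 3) +
  (dig r.t1 m3 * fK 4 % r.l) * ent r.l (gx r q4) (ld r N2 N3 k2 k3 4)))))))

lemma FL_eq {α : Type} (k2 k3 : α → ℕ) (K : List α) (m m2 m3 q0 q1 q2 q3 q4 A0 A1 A2 A3 : ℕ) :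
    FL r (L5of (fun j x => ld r N2 N3 (k2 x) (k3 x) j) K) m m2 m3 q0 q1 q2 q3 q4 A0 A1 A2 A3 =
      packL (2 ^ 24) (fun x => vL r N2 N3 (k2 x) (k3 x) m m2 m3 q0 q1 q2 q3 q4 A0 A1 A2 A3) K := by
  have ex : ∀ (g : α → ℕ) (j q P : ℕ), xT r (K.map g) j q P =
      packL (2 ^ 24) (fun x => (dig r.t1 P * fK j % r.l) * ent r.l (gx r q) (g x)) K := by
    intro g j q P
    change (dig r.t1 P * fK j % r.l) * rowP r.l (gx r q) (K.map g) = _
    rw [rowP_map, ← packL_mul]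
  have ey : ∀ (g : α → ℕ) (q P A : ℕ), yT r (K.map g) q P A =
      packL (2 ^ 24) (fun x => (dig r.t1 P * A % r.l) * ent r.l (gy r q) (g x)) K := by
    intro g q P A
    change (dig r.t1 P * A % r.l) * rowP r.l (gy r q) (K.map g) = _
    rw [rowP_map, ← packL_mul]
  unfold FL L5of
  simp only
  rw [ey, ex, ey, ex, ey, ex, ey, ex]
  unfold vL
  simp only [packL_add]
  rfl

lemma mul_bd {l x y : ℕ} (hx : x < l) (hy : y < l) : x * y ≤ (l - 1) * (l - 1) :=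
  Nat.mul_le_mul (by omega) (by omega)

lemma vL_lt (hl : 0 < r.l) (k2 k3 m m2 m3 q0 q1 q2 q3 q4 A0 A1 A2 A3 : ℕ) :
    vL r N2 N3 k2 k3 m m2 m3 q0 q1 q2 q3 q4 A0 A1 A2 A3 < 8 * ((r.l - 1) * (r.l - 1)) + 1 := by
  have h : ∀ x R e, (x % r.l) * ent r.l R e ≤ (r.l - 1) * (r.l - 1) := fun x R e =>
    mul_bd (Nat.mod_lt _ hl) (ent_lt hl _ _)
  unfold vL
  have h1 := h (dig r.t1 m * A0) (gy r q0) (ld r N2 N3 k2 k3 0)
  have h2 := h (dig r.t1 1 * fK 1) (gx r q1) (ld r N2 N3 k2 k3 1)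
  have h3 := h (dig r.t1 1 * A1) (gy r q1) (ld r N2 N3 k2 k3 1)
  have h4 := h (dig r.t1 m * fK 2) (gx r q2) (ld r N2 N3 k2 k3 2)
  have h5 := h (dig r.t1 m * A2) (gy r q2) (ld r N2 N3 k2 k3 2)
  have h6 := h (dig r.t1 m2 * fK 3) (gx r q3) (ld r N2 N3 k2 k3 3)
  have h7 := h (dig r.t1 m2 * A3) (gy r q3) (ld r N2 N3 k2 k3 3)
  have h8 := h (dig r.t1 m3 * fK 4) (gx r q4) (ld r N2 N3 k2 k3 4)
  omega

/-- the sum of the values of the forms -/
lemma Holds.sum (h : Holds r a b c B m) :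
    ((r.val (jf a b c B m 0) + (r.val (jf a b c B m 1) + (r.val (jf a b c B m 2) +
      (r.val (jf a b c B m 3) + r.val (jf a b c B m 4)))) : ℕ) : ZMod r.l) = 0 := by
  rw [ZMod.natCast_eq_zero_iff]
  apply Nat.dvd_of_mod_eq_zero
  have h' := h
  unfold Holds J7 at h'
  simp only [List.map_cons, List.map_nil, List.sum_cons, List.sum_nil, add_zero] at h'
  exact h'

/-- value of a form, outer component separated -/
lemma val_eq [NeZero r.n1] [NeZero r.n2] [NeZero r.n3] [NeZero r.l] [NeZero N2] [NeZero N3]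
    (h2 : r.n2 ∣ N2) (h3 : r.n3 ∣ N3) {j : ℕ} (hj : j < 5) :
    r.val (jf a b c B m j) = dig r.t1 (rs r.n1 (jf a b c B m j).P) *
      (cx r.n2 r.t2 N2 (cd N2 a b c B m) j * cx r.n3 r.t3 N3 (cd N3 a b c B m) j) *
      (fK j * dig (gx r (qz r.n1 r.ex1 r.PT1 a b c B m j))
          (ps r N2 N3 (cd N2 a b c B m) (cd N3 a b c B m) j) +
        rs r.l (jf a b c B m j).α * dig (gy r (qz r.n1 r.ex1 r.PT1 a b c B m j))
          (ps r N2 N3 (cd N2 a b c B m) (cd N3 a b c B m) j)) := by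
  unfold Rl.val fval
  rw [← tX_eq, ← tY_eq, cx_cd h2 _ hj, cx_cd h3 _ hj, cq_cd h2 _ _ hj,
    cq_cd h3 _ _ hj, fK_cd (a := a) (b := b) (c := c) (B := B) (m := m) hj]
  unfold qz
  ring

lemma rs_one_of {n : ℕ} (hn : 1 < n) : rs n 1 = 1 := by
  have : Fact (1 < n) := ⟨hn⟩
  unfold rs
  rw [Int.cast_one, ZMod.val_one]

/-- **lanes, the modulus is the outer prime** -/
theorem FL_bit (h : Holds r a b c B m) (hn : 1 < r.n1) [NeZero r.n1] [NeZero r.n2] [NeZero r.n3] [NeZero r.l]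
    [NeZero N2] [NeZero N3] (h2 : r.n2 ∣ N2) (h3 : r.n3 ∣ N3) (hr : r.len3 < 256)
    (hl : LOK r.l) {α : Type} {k2 k3 : α → ℕ} {K : List α} {i : ℕ} (hi : i < K.length)
    (e2 : k2 K[i] = cd N2 a b c B m) (e3 : k3 K[i] = cd N3 a b c B m) :
    (msk r.l K.length (FL r (L5of (fun j x => ld r N2 N3 (k2 x) (k3 x) j) K)
      (rs r.n1 m) (rs r.n1 (y2 a B m)) (rs r.n1 (y3 a b B m))
      (qz r.n1 r.ex1 r.PT1 a b c B m 0) (qz r.n1 r.ex1 r.PT1 a b c B m 1)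
      (qz r.n1 r.ex1 r.PT1 a b c B m 2) (qz r.n1 r.ex1 r.PT1 a b c B m 3)
      (qz r.n1 r.ex1 r.PT1 a b c B m 4)
      (rs r.l (-B)) (rs r.l (-(2 * a))) (rs r.l (-(2 * b))) (rs r.l (-(2 * c))))).testBit
        (24 * i + 15) = true := by
  rw [FL_eq]
  apply bit_of hl (fun x _ => vL_lt hl.l1 _ _ _ _ _ _ _ _ _ _ _ _ _ _) hi
  rw [e2, e3, ← ZMod.natCast_eq_zero_iff, ← h.sum]
  rw [val_eq h2 h3 (j := 0) (by norm_num), val_eq h2 h3 (j := 1) (by norm_num),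
    val_eq h2 h3 (j := 2) (by norm_num), val_eq h2 h3 (j := 3) (by norm_num),
    val_eq h2 h3 (j := 4) (by norm_num)]
  unfold vL
  push_cast
  simp only [ent_ld hr, ZMod.natCast_mod]
  have f0 : fK 0 = 0 := rfl
  have e : ∀ x : ℤ, ((rs r.l x : ℕ) : ZMod r.l) = (x : ZMod r.l) := fun x => rs_cast x
  have p0 : (jf a b c B m 0).P = m := rfl
  have p1 : (jf a b c B m 1).P = 1 := rfl
  have p2 : (jf a b c B m 2).P = m := rfl
  have p3 : (jf a b c B m 3).P = y2 a B m := rfl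
  have p4 : (jf a b c B m 4).P = y3 a b B m := rfl
  have a0 : (jf a b c B m 0).α = -B := rfl
  have a1 : (jf a b c B m 1).α = -(2 * a) := rfl
  have a2 : (jf a b c B m 2).α = -(2 * b) := rfl
  have a3 : (jf a b c B m 3).α = -(2 * c) := rfl
  have a4 : (jf a b c B m 4).α = 0 := rfl
  have hz : rs r.l (0 : ℤ) = 0 := by unfold rs; rw [Int.cast_zero, ZMod.val_zero]
  have ho : dig r.t1 1 = dig r.t1 (rs r.n1 1) := by rw [rs_one_of hn]
  rw [p0, p1, p2, p3, p4, a0, a1, a2, a3, a4, f0, hz, ho]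
  push_cast
  ring

/-- the five terms of a lane -/
def vK (r : Rl) (N2 N3 k2 k3 kl m m2 m3 q0 q1 q2 q3 q4 : ℕ) : ℕ :=
  (dig r.t1 m % r.l) * entK r.l (gx r q0) (gy r q0) (ldK r N2 N3 k2 k3 kl 0) +
  ((dig r.t1 1 % r.l) * entK r.l (gx r q1) (gy r q1) (ldK r N2 N3 k2 k3 kl 1) +
  ((dig r.t1 m % r.l) * entK r.l (gx r q2) (gy r q2) (ldK r N2 N3 k2 k3 kl 2) +
  ((dig r.t1 m2 % r.l) * entK r.l (gx r q3) (gy r q3) (ldK r N2 N3 k2 k3 kl 3) +
  (dig r.t1 m3 % r.l) * entK r.l (gx r q4) (gy r q4) (ldK r N2 N3 k2 k3 kl 4))))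

lemma FK_eq {α : Type} (k2 k3 kl : α → ℕ) (K : List α) (m m2 m3 q0 q1 q2 q3 q4 : ℕ) :
    FK r (L5of (fun j x => ldK r N2 N3 (k2 x) (k3 x) (kl x) j) K) m m2 m3 q0 q1 q2 q3 q4 =
      packL (2 ^ 24) (fun x => vK r N2 N3 (k2 x) (k3 x) (kl x) m m2 m3 q0 q1 q2 q3 q4) K := by
  have ex : ∀ (g : α → ℕ) (q P : ℕ), kT r (K.map g) q P =
      packL (2 ^ 24) (fun x => (dig r.t1 P % r.l) * entK r.l (gx r q) (gy r q) (g x)) K := by
    intro g q P
    change (dig r.t1 P % r.l) * rowK r.l (gx r q) (gy r q) (K.map g) = _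
    rw [rowK_map, ← packL_mul]
  unfold FK L5of
  simp only
  rw [ex, ex, ex, ex, ex]
  unfold vK
  simp only [packL_add]
  rfl

lemma vK_lt (hl : 0 < r.l) (k2 k3 kl m m2 m3 q0 q1 q2 q3 q4 : ℕ) :
    vK r N2 N3 k2 k3 kl m m2 m3 q0 q1 q2 q3 q4 < 8 * ((r.l - 1) * (r.l - 1)) + 1 := by
  have h : ∀ x R R' e, (x % r.l) * entK r.l R R' e ≤ (r.l - 1) * (r.l - 1) := fun x R R' e =>
    mul_bd (Nat.mod_lt _ hl) (entK_lt hl _ _ _)
  unfold vK
  have h1 := h (dig r.t1 m) (gx r q0) (gy r q0) (ldK r N2 N3 k2 k3 kl 0)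
  have h2 := h (dig r.t1 1) (gx r q1) (gy r q1) (ldK r N2 N3 k2 k3 kl 1)
  have h3 := h (dig r.t1 m) (gx r q2) (gy r q2) (ldK r N2 N3 k2 k3 kl 2)
  have h4 := h (dig r.t1 m2) (gx r q3) (gy r q3) (ldK r N2 N3 k2 k3 kl 3)
  have h5 := h (dig r.t1 m3) (gx r q4) (gy r q4) (ldK r N2 N3 k2 k3 kl 4)
  omega

/-- **lanes, the coefficients depend on the lane** -/
theorem FK_bit (h : Holds r a b c B m) (hn : 1 < r.n1) [NeZero r.n1] [NeZero r.n2] [NeZero r.n3]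
    [NeZero r.l] [NeZero N2] [NeZero N3] (h2 : r.n2 ∣ N2) (h3 : r.n3 ∣ N3) (hr : r.len3 < 256)
    (hl : LOK r.l) {α : Type} {k2 k3 kl : α → ℕ} {K : List α} {i : ℕ} (hi : i < K.length)
    (e2 : k2 K[i] = cd N2 a b c B m) (e3 : k3 K[i] = cd N3 a b c B m)
    (el : kl K[i] = cd r.l a b c B m) :
    (msk r.l K.length (FK r (L5of (fun j x => ldK r N2 N3 (k2 x) (k3 x) (kl x) j) K)
      (rs r.n1 m) (rs r.n1 (y2 a B m)) (rs r.n1 (y3 a b B m))
      (qz r.n1 r.ex1 r.PT1 a b c B m 0) (qz r.n1 r.ex1 r.PT1 a b c B m 1)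
      (qz r.n1 r.ex1 r.PT1 a b c B m 2) (qz r.n1 r.ex1 r.PT1 a b c B m 3)
      (qz r.n1 r.ex1 r.PT1 a b c B m 4))).testBit (24 * i + 15) = true := by
  rw [FK_eq]
  apply bit_of hl (fun x _ => vK_lt hl.l1 _ _ _ _ _ _ _ _ _ _ _) hi
  rw [e2, e3, el, ← ZMod.natCast_eq_zero_iff, ← h.sum]
  rw [val_eq h2 h3 (j := 0) (by norm_num), val_eq h2 h3 (j := 1) (by norm_num),
    val_eq h2 h3 (j := 2) (by norm_num), val_eq h2 h3 (j := 3) (by norm_num),
    val_eq h2 h3 (j := 4) (by norm_num)]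
  rw [← fA_cd (j := 0) (by norm_num), ← fA_cd (j := 1) (by norm_num),
    ← fA_cd (j := 2) (by norm_num), ← fA_cd (j := 3) (by norm_num),
    ← fA_cd (j := 4) (by norm_num)]
  unfold vK
  push_cast
  simp only [entK_ld hr hl.l1 (hl.l2.trans (by norm_num)), ZMod.natCast_mod]
  have p0 : (jf a b c B m 0).P = m := rfl
  have p1 : (jf a b c B m 1).P = 1 := rfl
  have p2 : (jf a b c B m 2).P = m := rfl
  have p3 : (jf a b c B m 3).P = y2 a B m := rfl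
  have p4 : (jf a b c B m 4).P = y3 a b B m := rfl
  have ho : dig r.t1 1 = dig r.t1 (rs r.n1 1) := by rw [rs_one_of hn]
  rw [p0, p1, p2, p3, p4, ho]
  push_cast
  ring

end L

/-! ### lanes, all components known -/

/-- vectors of a relation all whose components are known in the lanes -/
structure V5 where
  /-- first parts -/
  X : ℕ
  /-- second part -/
  Y0 : ℕ
  /-- second part -/
  Y1 : ℕ
  /-- second part -/
  Y2 : ℕ
  /-- second part -/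
  Y3 : ℕ

/-- vector of the digits `j` -/
def dgv (j : ℕ) (L : List ℕ) : ℕ :=
  packL (nat_lit 16777216) (fun e => Nat.mod (Nat.shiftRight e (Nat.mul (nat_lit 16) j))
    (nat_lit 65536)) L

/-- values in the lanes -/
def FB (X Y0 Y1 Y2 Y3 A0 A1 A2 A3 : ℕ) : ℕ :=
  Nat.add X (Nat.add (Nat.mul A0 Y0) (Nat.add (Nat.mul A1 Y1) (Nat.add (Nat.mul A2 Y2)
    (Nat.mul A3 Y3))))

section B

variable {r : Rl} {a b c B m : ℤ} {N1 N2 N3 : ℕ}

lemma kvy_digit (hl : 0 < r.l) (hl2 : r.l < 100) (k1 k2 k3 : ℕ) :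
    kvy r N1 N2 N3 k1 k2 k3 >>> (16 * 0) % 65536 = yt r N1 N2 N3 k1 k2 k3 0 ∧
    kvy r N1 N2 N3 k1 k2 k3 >>> (16 * 1) % 65536 = yt r N1 N2 N3 k1 k2 k3 1 ∧
    kvy r N1 N2 N3 k1 k2 k3 >>> (16 * 2) % 65536 = yt r N1 N2 N3 k1 k2 k3 2 ∧
    kvy r N1 N2 N3 k1 k2 k3 >>> (16 * 3) % 65536 = yt r N1 N2 N3 k1 k2 k3 3 := by
  have h := fun j => (yt_lt (r := r) (N1 := N1) (N2 := N2) (N3 := N3) (k1 := k1) (k2 := k2)
    (k3 := k3) hl j).trans hl2
  have h0 := h 0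
  have h1 := h 1
  have h2 := h 2
  have h3 := h 3
  have e : kvy r N1 N2 N3 k1 k2 k3 = yt r N1 N2 N3 k1 k2 k3 0 + 65536 *
    (yt r N1 N2 N3 k1 k2 k3 1 + 65536 * (yt r N1 N2 N3 k1 k2 k3 2 + 65536 *
      yt r N1 N2 N3 k1 k2 k3 3)) := rfl
  rw [e]
  simp only [Nat.shiftRight_eq_div_pow]
  norm_num
  omega

/-- **lanes, all components known** -/
theorem FB_bit (h : Holds r a b c B m) [NeZero r.n1] [NeZero r.n2] [NeZero r.n3]
    [NeZero r.l] [NeZero N1] [NeZero N2] [NeZero N3] (h1 : r.n1 ∣ N1) (h2 : r.n2 ∣ N2)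
    (h3 : r.n3 ∣ N3) (hl : LOK r.l) {α : Type} {k1 k2 k3 : α → ℕ} {K : List α} {i : ℕ}
    (hi : i < K.length) (e1 : k1 K[i] = cd N1 a b c B m)
    (e2 : k2 K[i] = cd N2 a b c B m) (e3 : k3 K[i] = cd N3 a b c B m) :
    (msk r.l K.length (FB
      (packL (2 ^ 24) (fun x => kvx r N1 N2 N3 (k1 x) (k2 x) (k3 x)) K)
      (packL (2 ^ 24) (fun x => yt r N1 N2 N3 (k1 x) (k2 x) (k3 x) 0) K)
      (packL (2 ^ 24) (fun x => yt r N1 N2 N3 (k1 x) (k2 x) (k3 x) 1) K)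
      (packL (2 ^ 24) (fun x => yt r N1 N2 N3 (k1 x) (k2 x) (k3 x) 2) K)
      (packL (2 ^ 24) (fun x => yt r N1 N2 N3 (k1 x) (k2 x) (k3 x) 3) K)
      (rs r.l (-B)) (rs r.l (-(2 * a))) (rs r.l (-(2 * b))) (rs r.l (-(2 * c))))).testBit
        (24 * i + 15) = true := by
  have hA : ∀ x : ℤ, rs r.l x ≤ r.l - 1 := fun x => by
    have := rs_lt (p := r.l) x
    omega
  have hY : ∀ x j, yt r N1 N2 N3 (k1 x) (k2 x) (k3 x) j ≤ r.l - 1 := fun x j => by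
    have := yt_lt (r := r) (N1 := N1) (N2 := N2) (N3 := N3) (k1 := k1 x) (k2 := k2 x)
      (k3 := k3 x) hl.l1 j
    omega
  have hX : ∀ x, kvx r N1 N2 N3 (k1 x) (k2 x) (k3 x) ≤ r.l - 1 := fun x => by
    have : kvx r N1 N2 N3 (k1 x) (k2 x) (k3 x) < r.l := Nat.mod_lt _ hl.l1
    omega
  have e : FB
      (packL (2 ^ 24) (fun x => kvx r N1 N2 N3 (k1 x) (k2 x) (k3 x)) K)
      (packL (2 ^ 24) (fun x => yt r N1 N2 N3 (k1 x) (k2 x) (k3 x) 0) K)
      (packL (2 ^ 24) (fun x => yt r N1 N2 N3 (k1 x) (k2 x) (k3 x) 1) K)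
      (packL (2 ^ 24) (fun x => yt r N1 N2 N3 (k1 x) (k2 x) (k3 x) 2) K)
      (packL (2 ^ 24) (fun x => yt r N1 N2 N3 (k1 x) (k2 x) (k3 x) 3) K)
      (rs r.l (-B)) (rs r.l (-(2 * a))) (rs r.l (-(2 * b))) (rs r.l (-(2 * c))) =
    packL (2 ^ 24) (fun x => kvx r N1 N2 N3 (k1 x) (k2 x) (k3 x) +
      (rs r.l (-B) * yt r N1 N2 N3 (k1 x) (k2 x) (k3 x) 0 +
      (rs r.l (-(2 * a)) * yt r N1 N2 N3 (k1 x) (k2 x) (k3 x) 1 +
      (rs r.l (-(2 * b)) * yt r N1 N2 N3 (k1 x) (k2 x) (k3 x) 2 +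
      rs r.l (-(2 * c)) * yt r N1 N2 N3 (k1 x) (k2 x) (k3 x) 3)))) K := by
    simp only [packL_add, packL_mul]
    rfl
  rw [e]
  apply bit_of hl _ hi
  · rw [e1, e2, e3, ← ZMod.natCast_eq_zero_iff]
    have hh := h.tm h1 h2 h3
    rw [← Nat.dvd_iff_mod_eq_zero, ← ZMod.natCast_eq_zero_iff] at hh
    rw [← hh]
    unfold kvx
    change ((_ % r.l + _ : ℕ) : ZMod r.l) = _
    push_cast
    rw [ZMod.natCast_mod]
    change ((_ + (_ + (_ + _)) : ℕ) : ZMod r.l) + _ = _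
    push_cast
    rw [xt_mod, xt_mod, xt_mod, xt_mod, yt_mod, yt_mod, yt_mod, yt_mod]
    unfold tm
    have f0 : fK 0 = 0 := rfl
    have f4 : fA r.l (cd r.l a b c B m) 4 = 0 := rfl
    rw [f0, f4]
    have g0 := fA_cd (n := r.l) (a := a) (b := b) (c := c) (B := B) (m := m) (j := 0)
      (by norm_num)
    have g1 := fA_cd (n := r.l) (a := a) (b := b) (c := c) (B := B) (m := m) (j := 1)
      (by norm_num)
    have g2 := fA_cd (n := r.l) (a := a) (b := b) (c := c) (B := B) (m := m) (j := 2)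
      (by norm_num)
    have g3 := fA_cd (n := r.l) (a := a) (b := b) (c := c) (B := B) (m := m) (j := 3)
      (by norm_num)
    have a0 : (jf a b c B m 0).α = -B := rfl
    have a1 : (jf a b c B m 1).α = -(2 * a) := rfl
    have a2 : (jf a b c B m 2).α = -(2 * b) := rfl
    have a3 : (jf a b c B m 3).α = -(2 * c) := rfl
    rw [g0, g1, g2, g3, a0, a1, a2, a3]
    push_cast
    ring
  · intro x _
    have t0 := Nat.mul_le_mul (hA (-B)) (hY x 0)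
    have t1 := Nat.mul_le_mul (hA (-(2 * a))) (hY x 1)
    have t2 := Nat.mul_le_mul (hA (-(2 * b))) (hY x 2)
    have t3 := Nat.mul_le_mul (hA (-(2 * c))) (hY x 3)
    have t4 := hX x
    have t5 : r.l - 1 ≤ (r.l - 1) * (r.l - 1) := Nat.le_mul_self _
    omega

end B

end Pool.Agent.LibH4.S7
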