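import Pool.Agent.Lib_helper4.S7.Loop

/-!
Enumeration of the lanes of a mask (lowest bit first, without `Nat.log2`).
-/

namespace Pool.Agent.LibH4.S7

open Pool.Agent.Lib_helper5 Pool.Agent.Lib_helper5.LK Pool.Agent.Lib_helper5.TB
  Pool.Agent.Lib_helper5.Lane Pool.Agent.LibH4.Ker

/-- digit in base `2 ^ 8` -/
def dg8 (T i : ℕ) : ℕ := Nat.mod (Nat.shiftRight T (Nat.mul (nat_lit 8) i)) (nat_lit 256)

/-- the lanes of the mask `S`: the lane `j` has the bit `24 j + 15`; `T` is a table of the lanes,
indexed by the power of two modulo `p` -/
def enumB (p T : ℕ) (k : ℕ → Bool) (fuel : ℕ) : ℕ → Bool :=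
  @Nat.rec (fun _ => ℕ → Bool) (fun S => Nat.beq S (nat_lit 0))
    (fun _ ih S => @Bool.rec (fun _ => Bool)
      (strict (Nat.land S (Nat.sub S (nat_lit 1))) fun S' =>
        @Bool.rec (fun _ => Bool) false (ih S')
          (strict (dg8 T (Nat.mod (Nat.sub S S') p)) k))
      true (Nat.beq S (nat_lit 0))) fuel

/-- the table is correct -/
def tabOK (p T n : ℕ) : Bool :=
  allR (fun j => Nat.beq (dg8 T (Nat.mod (Nat.pow (nat_lit 2)
    (Nat.add (Nat.mul (nat_lit 24) j) (nat_lit 15))) p)) j) n

lemma tbE (x i : ℕ) : (2 * x).testBit (i + 1) = x.testBit i := by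
  rw [Nat.testBit_succ]; congr 1; omega

lemma tbO (x i : ℕ) : (2 * x + 1).testBit (i + 1) = x.testBit i := by
  rw [Nat.testBit_succ]; congr 1; omega

lemma tbE0 (x : ℕ) : (2 * x).testBit 0 = false := by
  rw [Nat.testBit_zero]; simp

lemma tbO0 (x : ℕ) : (2 * x + 1).testBit 0 = true := by
  rw [Nat.testBit_zero]; simp

/-- clearing the lowest bit -/
lemma low_bit {S : ℕ} (hS : S ≠ 0) :
    ∃ t, S.testBit t = true ∧ S - (S &&& (S - 1)) = 2 ^ t ∧
      ∀ i, i ≠ t → (S &&& (S - 1)).testBit i = S.testBit i := by
  induction S using Nat.strong_induction_on with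
  | _ S ih =>
    obtain ⟨x, hx | hx⟩ := Nat.even_or_odd' S
    · -- even
      have hx0 : x ≠ 0 := by omega
      obtain ⟨t, h1, h2, h3⟩ := ih x (by omega) hx0
      have e0 : 2 * x - 1 = 2 * (x - 1) + 1 := by omega
      have e : S &&& (S - 1) = 2 * (x &&& (x - 1)) := by
        apply Nat.eq_of_testBit_eq
        intro i
        rw [hx, e0]
        cases i with
        | zero => rw [Nat.testBit_and, tbE0, tbE0]; rfl
        | succ i => rw [Nat.testBit_and, tbE, tbO, tbE, Nat.testBit_and]
      refine ⟨t + 1, ?_, ?_, ?_⟩
      · rw [hx, tbE]; exact h1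
      · rw [e, hx, ← Nat.mul_sub, h2, pow_succ, Nat.mul_comm]
      · intro i hi
        rw [e, hx]
        cases i with
        | zero => rw [tbE0, tbE0]
        | succ i => rw [tbE, tbE]; exact h3 i (by omega)
    · -- odd
      have e : S &&& (S - 1) = 2 * x := by
        apply Nat.eq_of_testBit_eq
        intro i
        rw [hx, Nat.add_sub_cancel]
        cases i with
        | zero => rw [Nat.testBit_and, tbE0, tbO0]; rfl
        | succ i => rw [Nat.testBit_and, tbE, tbO]; simp
      refine ⟨0, ?_, ?_, ?_⟩
      · rw [hx]; exact tbO0 x
      · rw [e, hx]; omega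
      · intro i hi
        rw [e, hx]
        cases i with
        | zero => exact absurd rfl hi
        | succ i => rw [tbE, tbO]

theorem enumB_spec {p T n : ℕ} (hT : tabOK p T n = true) {k : ℕ → Bool} {fuel S : ℕ}
    (h : enumB p T k fuel S = true) :
    ∀ j < n, S.testBit (24 * j + 15) = true → k j = true := by
  induction fuel generalizing S with
  | zero =>
    intro j _ hb
    have : S = 0 := Nat.eq_of_beq_eq_true h
    subst this
    simp at hb
  | succ f ih =>
    intro j hj hb
    have h' : @Bool.rec (fun _ => Bool)
      (strict (Nat.land S (Nat.sub S (nat_lit 1))) fun S' =>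
        @Bool.rec (fun _ => Bool) false (enumB p T k f S')
          (strict (dg8 T (Nat.mod (Nat.sub S S') p)) k))
      true (Nat.beq S (nat_lit 0)) = true := h
    have hS : S ≠ 0 := by
      intro h0; subst h0; simp at hb
    have hb0 : Nat.beq S (nat_lit 0) = false := by
      cases hc : Nat.beq S (nat_lit 0) with
      | false => rfl
      | true => exact absurd (Nat.eq_of_beq_eq_true hc) hS
    rw [hb0] at h'
    simp only [strict_eq] at h'
    obtain ⟨t, h1, h2, h3⟩ := low_bit hS
    have e1 : Nat.land S (Nat.sub S (nat_lit 1)) = S &&& (S - 1) := rfl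
    rw [e1] at h'
    cases hk : k (dg8 T (Nat.mod (Nat.sub S (S &&& (S - 1))) p)) with
    | false => rw [hk] at h'; exact absurd h' (by simp)
    | true =>
      rw [hk] at h'
      simp only at h'
      by_cases ht : 24 * j + 15 = t
      · have e2 : Nat.sub S (S &&& (S - 1)) = 2 ^ t := h2
        rw [e2, ← ht] at hk
        have h4 := Nat.eq_of_beq_eq_true (allR_spec hT j hj)
        have h5 : dg8 T (Nat.mod (2 ^ (24 * j + 15)) p) = j := h4
        rw [h5] at hk
        exact hk
      · exact ih h' j hj (by rw [h3 _ ht]; exact hb)

/-- the table for `209` lanes, modulo `419` -/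
def TBL : ℕ := (nat_lit 5731357197383363171265773342092063789550171339303538343315748790684344528377696266005322532089513207785812342344337284805981578343349883256676150851074341783258329250615963477103168510741263335805484141160373149734508753307467750904596335358819055885905905177589868844669976874496405868549580488287363703089704367170524196392819063135088195137855074910598009482454600347988092855294413979310691707788438410619261445516827449054325754389913835543183835218797153728272952128044445307200155584493815718807061772078205552057341491176675380353121929505300876731785484584565893738745204120182240100499229949582452049091121087528742120088073412998773598601111493828816221843392077578175441736197704112240395610800732036981373166755017979615604139347467433176559021110615390466103683170804765279588233147710349821310218354525966738502716035876002363588890314188285211477771055893668811930264734660319955947948549314308752229054922032043708212929008138829727409808310872036573317453465077339692660383521168137662693376)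

theorem TBL_ok : tabOK (nat_lit 419) TBL (nat_lit 209) = true := by decide +kernel

/-- enumeration of at most `209` lanes -/
def enumT (k : ℕ → Bool) (n S : ℕ) : Bool :=
  @Bool.rec (fun _ => Bool) false (enumB (nat_lit 419) TBL k (nat_lit 210) S)
    (Nat.ble n (nat_lit 209))

theorem enumT_spec {k : ℕ → Bool} {n S : ℕ} (h : enumT k n S = true) :
    ∀ j < n, S.testBit (24 * j + 15) = true → k j = true := by
  unfold enumT at h
  cases hb : Nat.ble n (nat_lit 209) with
  | false => rw [hb] at h; exact absurd h (by simp)
  | true =>
    rw [hb] at h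
    intro j hj
    exact enumB_spec TBL_ok h j (hj.trans_le (Nat.le_of_ble_eq_true hb))

end Pool.Agent.LibH4.S7
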