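import Pool.Agent.Lib_helper4.S7.Dat17
import Pool.Agent.Lib_helper4.S7.Rels11

/-! generated: step 11, group 2 -/

namespace Pool.Agent.LibH4.S7

theorem s11_2_0 : chk11c e11 G11 BG2 [(nat_lit 0), (nat_lit 1), (nat_lit 2), (nat_lit 3), (nat_lit 4), (nat_lit 5)] = true := by decide +kernel

theorem s11_2_1 : chk11c e11 G11 BG2 [(nat_lit 6), (nat_lit 7), (nat_lit 8), (nat_lit 9), (nat_lit 10)] = true := by decide +kernel

theorem s11_2 : ∀ x < 11, ∃ Bs, x ∈ Bs ∧ chk11c e11 G11 BG2 Bs = true := by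
  intro x hx
  interval_cases x
  · exact ⟨_, by simp, s11_2_0⟩
  · exact ⟨_, by simp, s11_2_0⟩
  · exact ⟨_, by simp, s11_2_0⟩
  · exact ⟨_, by simp, s11_2_0⟩
  · exact ⟨_, by simp, s11_2_0⟩
  · exact ⟨_, by simp, s11_2_0⟩
  · exact ⟨_, by simp, s11_2_1⟩
  · exact ⟨_, by simp, s11_2_1⟩
  · exact ⟨_, by simp, s11_2_1⟩
  · exact ⟨_, by simp, s11_2_1⟩
  · exact ⟨_, by simp, s11_2_1⟩

end Pool.Agent.LibH4.S7
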