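import Pool.Agent.Lib_helper4.S7.St11
import Pool.Agent.Lib_helper5.P7.T_187F17a
import Pool.Agent.Lib_helper5.P7.T_187F17b
import Pool.Agent.Lib_helper5.P7.T_680F17a
import Pool.Agent.Lib_helper5.P7.T_680F17b
import Pool.Agent.Lib_helper5.P7.T_520N17
import Pool.Agent.Lib_helper5.P7.T_680N13
import Pool.Agent.Lib_helper5.P7.T_221N5
import Pool.Agent.Lib_helper5.P7.T_119N13
import Pool.Agent.Lib_helper5.P7.T_119N5
import Pool.Agent.Lib_helper5.P7.T_595N13a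
import Pool.Agent.Lib_helper5.P7.T_595N13b
import Pool.Agent.Lib_helper5.P7.T_935N7

/-! generated: relations of a step -/

namespace Pool.Agent.LibH4.S7

open Pool.Agent.Lib_helper5 Pool.Agent.Lib_helper5.LK Pool.Agent.Lib_helper5.TB
  Pool.Agent.LibH4.Ker

/-- relation -/
def R187F17a : Rl :=
  ⟨(nat_lit 17), (nat_lit 11), (nat_lit 1), (nat_lit 17), (nat_lit 15), (nat_lit 9), (nat_lit 0), PT17, PT11, PT1, t1_187F17a, t2_187F17a, t3_187F17a, rows_187F17a, (nat_lit 1)⟩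

lemma R187F17a_holds {Q : ℕ} {a b c B m : ℤ} (S : Sys Q a b c B m) (hQ : 17 * 11 * 1 * 4913 ∣ Q ^ 6) :
    Holds R187F17a a b c B m := rel_187F17a S hQ

/-- relation -/
def R187F17b : Rl :=
  ⟨(nat_lit 17), (nat_lit 11), (nat_lit 1), (nat_lit 17), (nat_lit 15), (nat_lit 9), (nat_lit 0), PT17, PT11, PT1, t1_187F17b, t2_187F17b, t3_187F17b, rows_187F17b, (nat_lit 1)⟩

lemma R187F17b_holds {Q : ℕ} {a b c B m : ℤ} (S : Sys Q a b c B m) (hQ : 17 * 11 * 1 * 4913 ∣ Q ^ 6) :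
    Holds R187F17b a b c B m := rel_187F17b S hQ

/-- relation -/
def R680F17a : Rl :=
  ⟨(nat_lit 17), (nat_lit 5), (nat_lit 8), (nat_lit 17), (nat_lit 15), (nat_lit 3), (nat_lit 1), PT17, PT5, PT8, t1_680F17a, t2_680F17a, t3_680F17a, rows_680F17a, (nat_lit 16)⟩

lemma R680F17a_holds {Q : ℕ} {a b c B m : ℤ} (S : Sys Q a b c B m) (hQ : 17 * 5 * 8 * 4913 ∣ Q ^ 6) :
    Holds R680F17a a b c B m := rel_680F17a S hQ

/-- relation -/
def R680F17b : Rl :=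
  ⟨(nat_lit 17), (nat_lit 5), (nat_lit 8), (nat_lit 17), (nat_lit 15), (nat_lit 3), (nat_lit 1), PT17, PT5, PT8, t1_680F17b, t2_680F17b, t3_680F17b, rows_680F17b, (nat_lit 16)⟩

lemma R680F17b_holds {Q : ℕ} {a b c B m : ℤ} (S : Sys Q a b c B m) (hQ : 17 * 5 * 8 * 4913 ∣ Q ^ 6) :
    Holds R680F17b a b c B m := rel_680F17b S hQ

/-- relation -/
def R520N17 : Rl :=
  ⟨(nat_lit 13), (nat_lit 5), (nat_lit 8), (nat_lit 17), (nat_lit 11), (nat_lit 3), (nat_lit 1), PT13, PT5, PT8, t1_520N17, t2_520N17, t3_520N17, rows_520N17, (nat_lit 16)⟩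

lemma R520N17_holds {Q : ℕ} {a b c B m : ℤ} (S : Sys Q a b c B m) (hQ : 13 * 5 * 8 * 17 ∣ Q ^ 6) :
    Holds R520N17 a b c B m := rel_520N17 S hQ

/-- relation -/
def R680N13 : Rl :=
  ⟨(nat_lit 17), (nat_lit 5), (nat_lit 8), (nat_lit 13), (nat_lit 15), (nat_lit 3), (nat_lit 1), PT17, PT5, PT8, t1_680N13, t2_680N13, t3_680N13, rows_680N13, (nat_lit 16)⟩

lemma R680N13_holds {Q : ℕ} {a b c B m : ℤ} (S : Sys Q a b c B m) (hQ : 17 * 5 * 8 * 13 ∣ Q ^ 6) :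
    Holds R680N13 a b c B m := rel_680N13 S hQ

/-- relation -/
def R221N5 : Rl :=
  ⟨(nat_lit 17), (nat_lit 13), (nat_lit 1), (nat_lit 5), (nat_lit 15), (nat_lit 11), (nat_lit 0), PT17, PT13, PT1, t1_221N5, t2_221N5, t3_221N5, rows_221N5, (nat_lit 1)⟩

lemma R221N5_holds {Q : ℕ} {a b c B m : ℤ} (S : Sys Q a b c B m) (hQ : 17 * 13 * 1 * 5 ∣ Q ^ 6) :
    Holds R221N5 a b c B m := rel_221N5 S hQ

/-- relation -/
def R119N13 : Rl :=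
  ⟨(nat_lit 17), (nat_lit 7), (nat_lit 1), (nat_lit 13), (nat_lit 15), (nat_lit 5), (nat_lit 0), PT17, PT7, PT1, t1_119N13, t2_119N13, t3_119N13, rows_119N13, (nat_lit 1)⟩

lemma R119N13_holds {Q : ℕ} {a b c B m : ℤ} (S : Sys Q a b c B m) (hQ : 17 * 7 * 1 * 13 ∣ Q ^ 6) :
    Holds R119N13 a b c B m := rel_119N13 S hQ

/-- relation -/
def R119N5 : Rl :=
  ⟨(nat_lit 17), (nat_lit 7), (nat_lit 1), (nat_lit 5), (nat_lit 15), (nat_lit 5), (nat_lit 0), PT17, PT7, PT1, t1_119N5, t2_119N5, t3_119N5, rows_119N5, (nat_lit 1)⟩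

lemma R119N5_holds {Q : ℕ} {a b c B m : ℤ} (S : Sys Q a b c B m) (hQ : 17 * 7 * 1 * 5 ∣ Q ^ 6) :
    Holds R119N5 a b c B m := rel_119N5 S hQ

/-- relation -/
def R595N13a : Rl :=
  ⟨(nat_lit 17), (nat_lit 7), (nat_lit 5), (nat_lit 13), (nat_lit 15), (nat_lit 5), (nat_lit 3), PT17, PT7, PT5, t1_595N13a, t2_595N13a, t3_595N13a, rows_595N13a, (nat_lit 10)⟩

lemma R595N13a_holds {Q : ℕ} {a b c B m : ℤ} (S : Sys Q a b c B m) (hQ : 17 * 7 * 5 * 13 ∣ Q ^ 6) :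
    Holds R595N13a a b c B m := rel_595N13a S hQ

/-- relation -/
def R595N13b : Rl :=
  ⟨(nat_lit 17), (nat_lit 7), (nat_lit 5), (nat_lit 13), (nat_lit 15), (nat_lit 5), (nat_lit 3), PT17, PT7, PT5, t1_595N13b, t2_595N13b, t3_595N13b, rows_595N13b, (nat_lit 10)⟩

lemma R595N13b_holds {Q : ℕ} {a b c B m : ℤ} (S : Sys Q a b c B m) (hQ : 17 * 7 * 5 * 13 ∣ Q ^ 6) :
    Holds R595N13b a b c B m := rel_595N13b S hQ

/-- relation -/
def R935N7 : Rl :=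
  ⟨(nat_lit 17), (nat_lit 11), (nat_lit 5), (nat_lit 7), (nat_lit 15), (nat_lit 9), (nat_lit 3), PT17, PT11, PT5, t1_935N7, t2_935N7, t3_935N7, rows_935N7, (nat_lit 10)⟩

lemma R935N7_holds {Q : ℕ} {a b c B m : ℤ} (S : Sys Q a b c B m) (hQ : 17 * 11 * 5 * 7 ∣ Q ^ 6) :
    Holds R935N7 a b c B m := rel_935N7 S hQ

/-- the relations of the step -/
def e17 : E17 :=
  ⟨R187F17a, R187F17b, R680F17a, R680F17b, R520N17, R680N13, R221N5, R119N13, R119N5, R595N13a, R595N13b, R935N7⟩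

lemma e17_ok : E17OK e17 :=
  ⟨⟨rfl, rfl, rfl, rfl, by decide⟩,
    ⟨rfl, rfl, rfl, rfl, by decide⟩,
    ⟨rfl, rfl, rfl, rfl, by decide⟩,
    ⟨rfl, rfl, rfl, rfl, by decide⟩,
    ⟨rfl, rfl, rfl, rfl, by decide⟩,
    ⟨rfl, rfl, rfl, rfl, by decide⟩,
    ⟨rfl, rfl, rfl, rfl, by decide⟩,
    ⟨rfl, rfl, rfl, rfl, by decide⟩,
    ⟨rfl, rfl, rfl, rfl, by decide⟩,
    ⟨rfl, rfl, rfl, rfl, by decide⟩,
    ⟨rfl, rfl, rfl, rfl, by decide⟩,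
    ⟨rfl, rfl, rfl, rfl, by decide⟩,
    rfl, rfl, rfl, rfl, rfl, rfl, rfl, rfl⟩

lemma e17_holds {Q : ℕ} {a b c B m : ℤ} (S : Sys Q a b c B m) (hQ : 680680 ∣ Q) :
    E17H e17 a b c B m :=
  have h6 : 680680 ^ 6 ∣ Q ^ 6 := pow_dvd_pow_of_dvd hQ 6
  ⟨R187F17a_holds S ((by decide : 17 * 11 * 1 * 4913 ∣ 680680 ^ 6).trans h6),
    R187F17b_holds S ((by decide : 17 * 11 * 1 * 4913 ∣ 680680 ^ 6).trans h6),
    R680F17a_holds S ((by decide : 17 * 5 * 8 * 4913 ∣ 680680 ^ 6).trans h6),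
    R680F17b_holds S ((by decide : 17 * 5 * 8 * 4913 ∣ 680680 ^ 6).trans h6),
    R520N17_holds S ((by decide : 13 * 5 * 8 * 17 ∣ 680680 ^ 6).trans h6),
    R680N13_holds S ((by decide : 17 * 5 * 8 * 13 ∣ 680680 ^ 6).trans h6),
    R221N5_holds S ((by decide : 17 * 13 * 1 * 5 ∣ 680680 ^ 6).trans h6),
    R119N13_holds S ((by decide : 17 * 7 * 1 * 13 ∣ 680680 ^ 6).trans h6),
    R119N5_holds S ((by decide : 17 * 7 * 1 * 5 ∣ 680680 ^ 6).trans h6),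
    R595N13a_holds S ((by decide : 17 * 7 * 5 * 13 ∣ 680680 ^ 6).trans h6),
    R595N13b_holds S ((by decide : 17 * 7 * 5 * 13 ∣ 680680 ^ 6).trans h6),
    R935N7_holds S ((by decide : 17 * 11 * 5 * 7 ∣ 680680 ^ 6).trans h6)⟩

end Pool.Agent.LibH4.S7
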