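import Pool.Agent.Lib_helper4.S7.G11_0
import Pool.Agent.Lib_helper4.S7.G11_1
import Pool.Agent.Lib_helper4.S7.G11_2
import Pool.Agent.Lib_helper4.S7.G11_3
import Pool.Agent.Lib_helper4.S7.G11_4
import Pool.Agent.Lib_helper4.S7.G11_5
import Pool.Agent.Lib_helper4.S7.G11_6
import Pool.Agent.Lib_helper4.S7.G11_7
import Pool.Agent.Lib_helper4.S7.G11_8
import Pool.Agent.Lib_helper4.S7.G17_0
import Pool.Agent.Lib_helper4.S7.G17_1
import Pool.Agent.Lib_helper4.S7.G17_2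
import Pool.Agent.Lib_helper4.S7.G17_3

/-!
Period seven: the steps to the primes `11` and `17`.
-/

namespace Pool.Agent.LibH4.S7

open Pool.Agent.Lib_helper5 Pool.Agent.Lib_helper5.LK Pool.Agent.Lib_helper5.TB
  Pool.Agent.Lib_helper5.Lane Pool.Agent.LibH4.Ker

theorem s11_all : ∀ BS ∈ BB, ∀ x < 11, ∃ Bs, x ∈ Bs ∧ chk11c e11 G11 BS Bs = true := by
  intro BS h
  simp only [BB, List.mem_cons, List.not_mem_nil, or_false] at h
  rcases h with rfl | rfl | rfl | rfl | rfl | rfl | rfl | rfl | rfl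
  · exact s11_0
  · exact s11_1
  · exact s11_2
  · exact s11_3
  · exact s11_4
  · exact s11_5
  · exact s11_6
  · exact s11_7
  · exact s11_8

theorem f17_all : ∀ x < 17, ∃ Bs, x ∈ Bs ∧ chk17c e17 [] BF17 Bs = true := by
  intro x hx
  interval_cases x
  · exact ⟨_, by simp, f17_0⟩
  · exact ⟨_, by simp, f17_1⟩
  · exact ⟨_, by simp, f17_2⟩
  · exact ⟨_, by simp, f17_3⟩
  · exact ⟨_, by simp, f17_4⟩
  · exact ⟨_, by simp, f17_5⟩
  · exact ⟨_, by simp, f17_6⟩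
  · exact ⟨_, by simp, f17_7⟩
  · exact ⟨_, by simp, f17_8⟩
  · exact ⟨_, by simp, f17_9⟩
  · exact ⟨_, by simp, f17_10⟩
  · exact ⟨_, by simp, f17_11⟩
  · exact ⟨_, by simp, f17_12⟩
  · exact ⟨_, by simp, f17_13⟩
  · exact ⟨_, by simp, f17_14⟩
  · exact ⟨_, by simp, f17_15⟩
  · exact ⟨_, by simp, f17_16⟩

theorem g17_all : ∀ x < 17, ∃ Bs, x ∈ Bs ∧ chkG17 e17 G17 GS17 K17 Bs = true := by
  intro x hx
  interval_cases x
  · exact ⟨_, by simp, g17_0⟩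
  · exact ⟨_, by simp, g17_1⟩
  · exact ⟨_, by simp, g17_2⟩
  · exact ⟨_, by simp, g17_3⟩
  · exact ⟨_, by simp, g17_4⟩
  · exact ⟨_, by simp, g17_5⟩
  · exact ⟨_, by simp, g17_6⟩
  · exact ⟨_, by simp, g17_7⟩
  · exact ⟨_, by simp, g17_8⟩
  · exact ⟨_, by simp, g17_9⟩
  · exact ⟨_, by simp, g17_10⟩
  · exact ⟨_, by simp, g17_11⟩
  · exact ⟨_, by simp, g17_12⟩
  · exact ⟨_, by simp, g17_13⟩
  · exact ⟨_, by simp, g17_14⟩
  · exact ⟨_, by simp, g17_15⟩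
  · exact ⟨_, by simp, g17_16⟩

/-- the first form is admissible -/
lemma ad_first {Q : ℕ} {a b c B m : ℤ} (S : Sys Q a b c B m) {p : ℕ} [NeZero p] (hp : p.Prime)
    (hp2 : p ≠ 2) (hQ : p ∣ Q) : adP p (rs p m) (rs p B) (rs p (-1)) = true :=
  adP_of S hp hp2 hQ _ (List.mem_cons_self : (⟨m, B, -1, 0, -B⟩ : Fm) ∈ J7 a b c B m)

/-- **the steps to 11 and 17** -/
theorem st1117 {Q : ℕ} {a b c B m : ℤ} (S : Sys Q a b c B m)
    (hQ : 8 * 5 * 7 * 11 * 13 * 17 ∣ Q) (h8 : R8 a b c B m) :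
    tup (cd 13 a b c B m) (cd 7 a b c B m) (cd 5 a b c B m) (cd 8 a b c B m)
      (cd 11 a b c B m) (cd 17 a b c B m) ∈ G17 := by
  obtain ⟨BS, hBS, bx, hbx, hin⟩ := h8
  have H11 := e11_holds S ((by norm_num : 40040 ∣ 8 * 5 * 7 * 11 * 13 * 17).trans hQ)
  have H17 := e17_holds S ((by norm_num : 680680 ∣ 8 * 5 * 7 * 11 * 13 * 17).trans hQ)
  have a11 := ad_first S (p := 11) (by norm_num) (by norm_num)
    ((by norm_num : 11 ∣ 8 * 5 * 7 * 11 * 13 * 17).trans hQ)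
  have a17 := ad_first S (p := 17) (by norm_num) (by norm_num)
    ((by norm_num : 17 ∣ 8 * 5 * 7 * 11 * 13 * 17).trans hQ)
  rcases chk11c_spec e11_ok H11 S.cl a11 (s11_all BS hBS) hbx hin with h | h
  · rcases bf_all BS hBS bx hbx with h1 | h1
    · rw [h1] at h; exact absurd h (by simp)
    · exact absurd (chk17c_spec e17_ok H17 S.cl a17 f17_all h1 hin h) (by simp)
  · exact chkG17_of e17_ok H17 S.cl a17 loc17 g17_all h

end Pool.Agent.LibH4.S7
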