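import Pool.Agent.Lib_helper4.S7.QQ
import Pool.Agent.Lib_helper4.S7.P1117
import Pool.Agent.Lib_helper1.S7.St19F
import Pool.Agent.Lib_helper29.P7A.A2
import Pool.Agent.Lib_helper5.P7.A1

/-!
Period seven: the elimination.
-/

namespace Pool.Agent.LibH4.S7

open Pool.Agent.Lib_helper5 Pool.Agent.Lib_helper29

lemma elim_R8 {a b c B m : ℤ} (S : Sys QQ a b c B m) (h : R8 a b c B m) : False :=
  st19 S (by unfold QQ; decide) (st1117 S (by unfold QQ; decide) h)

lemma elim_tri {a b c B m : ℤ} (S : Sys QQ a b c B m)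
    (h : ∃ T ∈ P7.TRS, P7.InT (cd 13 a b c B m) (cd 7 a b c B m) (cd 5 a b c B m) T) : False := by
  rcases P7A.stageA2 S (by unfold QQ; decide) h with h8 | h8
  · exact elim_R8 S h8
  · exact elim_R8 S.neg h8

/-- **the system has no solution** -/
theorem elimInt (a b c B m : ℤ) (S : Sys QQ a b c B m) : False := by
  rcases P7.stageA1 S (by unfold QQ; decide) with h | h
  · exact elim_tri S h
  · exact elim_tri S.neg h

/-- elimination of the large parameters -/
theorem elim7 {a b c B : ℕ} {m m2 m3 : ℤ} (h : E7.Par a b c B m m2 m3) (hm2 : m % 2 = 1)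
    (hB2 : B % 2 = 1)
    [IsDomain (QuadraticAlgebra ℤ m (B : ℤ))]
    [UniqueFactorizationMonoid (QuadraticAlgebra ℤ m (B : ℤ))]
    (h1 : 23 < m) (h2 : 23 < m2) (h3 : 23 < m3) : False :=
  elimInt _ _ _ _ _ (sysQQ h hm2 hB2 h1 h2 h3)

end Pool.Agent.LibH4.S7
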