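import Pool.Agent.Lib_helper4.S7.St17

/-!
Period seven: the step to the prime `11`, and the step to `17` for the single classes.
-/

namespace Pool.Agent.LibH4.S7

open Pool.Agent.Lib_helper5 Pool.Agent.Lib_helper5.LK Pool.Agent.Lib_helper5.TB
  Pool.Agent.Lib_helper5.Lane Pool.Agent.LibH4.Ker

/-! ### step 11 -/

/-- relations of the step -/
structure E11 where
  /-- relation -/
  r88 : Rl
  /-- relation -/
  r616 : Rl
  /-- relation -/
  r308 : Rl
  /-- relation -/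
  r616n : Rl
  /-- relation -/
  r143m : Rl
  /-- relation -/
  r143n : Rl
  /-- relation -/
  r572 : Rl
  /-- relation -/
  r715 : Rl

/-- the components -/
structure E11OK (E : E11) : Prop where
  r88 : RC E.r88 11 8 1 11
  r616 : RC E.r616 11 7 8 11
  r308 : RC E.r308 11 7 4 7
  r616n : RC E.r616n 11 7 8 13
  r143m : RC E.r143m 11 13 1 7
  r143n : RC E.r143n 11 13 1 5
  r572 : RC E.r572 11 13 4 5
  r715 : RC E.r715 11 13 5 7
  x88 : E.r88.ex1 = 9
  x616 : E.r616.ex1 = 9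
  x308 : E.r308.ex1 = 9
  p88 : E.r88.PT1 = PT11
  p616 : E.r616.PT1 = PT11
  p308 : E.r308.PT1 = PT11

/-- the relations hold -/
structure E11H (E : E11) (a b c B m : ℤ) : Prop where
  r88 : Holds E.r88 a b c B m
  r616 : Holds E.r616 a b c B m
  r308 : Holds E.r308 a b c B m
  r616n : Holds E.r616n a b c B m
  r143m : Holds E.r143m a b c B m
  r143n : Holds E.r143n a b c B m
  r572 : Holds E.r572 a b c B m
  r715 : Holds E.r715 a b c B m

/-- code of a tuple -/
def tup5 (k13 k7 k5 k8 k11 : ℕ) : ℕ := pk k13 (pk k7 (pk k5 (pk k8 k11)))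

/-- last level -/
def l11d (E : E11) (G : List ℕ) (k11 k7 k8 k13 k5 : ℕ) : Bool :=
  chkS E.r143n (nat_lit 11) (nat_lit 13) (nat_lit 1) k11 k13 (nat_lit 0) k5
  (chkS E.r572 (nat_lit 11) (nat_lit 13) (nat_lit 8) k11 k13 k8 k5
  (chkS E.r715 (nat_lit 11) (nat_lit 13) (nat_lit 5) k11 k13 k5 k7
    (memN (tup5 k13 k7 k5 k8 k11) G)))

/-- level of the classes modulo 13 -/
def l11c (E : E11) (G F5 : List ℕ) (k11 k7 k8 k13 : ℕ) : Bool :=
  chkS E.r616n (nat_lit 11) (nat_lit 7) (nat_lit 8) k11 k7 k8 k13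
  (chkS E.r143m (nat_lit 11) (nat_lit 13) (nat_lit 1) k11 k13 (nat_lit 0) k7
    (allL (l11d E G k11 k7 k8 k13) F5))

/-- a box -/
def l11b (E : E11) (G : List ℕ) (bx : Bx) (k11 k7 k8 : ℕ) : Bool :=
  @Bool.rec (fun _ => Bool) (allL (l11c E G bx.F5 k11 k7 k8) bx.F13) true (memN k11 bx.F11)

/-- a lane -/
def l11l (E : E11) (G : List ℕ) (BS : List Bx) (K : List ℕ) (k11 i : ℕ) : Bool :=
  strict (nthN K i) fun x => strict (lo x) fun k7 => strict (lo (hi x)) fun k8 => strict (hi (hi x)) fun ib =>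
    l11b E G (nthA ⟨[], [], [], [], []⟩ BS ib) k11 k7 k8

/-- check of a class modulo 11 -/
def l11w (E : E11) (G : List ℕ) (BS : List Bx) (K : List ℕ) (Sa Sb Sc : L5) : CB :=
  fun B m a b c m2 m3 q0 q1 q2 q3 q4 A0 A1 A2 A3 =>
  strict (Nat.land
    (msk (nat_lit 11) K.length (FL E.r88 Sa m m2 m3 q0 q1 q2 q3 q4 A0 A1 A2 A3))
    (Nat.land
    (msk (nat_lit 11) K.length (FL E.r616 Sb m m2 m3 q0 q1 q2 q3 q4 A0 A1 A2 A3))
    (msk (nat_lit 7) K.length (FK E.r308 Sc m m2 m3 q0 q1 q2 q3 q4)))) fun M =>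
  @Bool.rec (fun _ => Bool)
    (strict (ck (nat_lit 11) a b c B m) fun k11 =>
      enumT (l11l E G BS K k11) K.length M)
    true (Nat.beq M (nat_lit 0))

/-- **check at 11** -/
def chk11 (E : E11) (G : List ℕ) (BS : List Bx) (K Bs : List ℕ) : Bool :=
  mkL5 (fun j x => ld E.r88 (nat_lit 8) (nat_lit 1) (lo (hi x)) (nat_lit 0) j) K fun Sa =>
  mkL5 (fun j x => ld E.r616 (nat_lit 7) (nat_lit 8) (lo x) (lo (hi x)) j) K fun Sb =>
  mkL5 (fun j x => ldK E.r308 (nat_lit 7) (nat_lit 8) (lo x) (lo (hi x)) (lo x) j) K fun Sc =>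
    allL (wB (nat_lit 11) (nat_lit 9) PT11 (l11w E G BS K Sa Sb Sc)) Bs

section Spec11

variable {E : E11} {a b c B m : ℤ} {G : List ℕ}

lemma l11b_spec (hE : E11OK E) (hH : E11H E a b c B m) {bx : Bx}
    (g13 : cd 13 a b c B m ∈ bx.F13) (g5 : cd 5 a b c B m ∈ bx.F5)
    (h : l11b E G bx (cd 11 a b c B m) (cd 7 a b c B m) (cd 8 a b c B m) = true) :
    cd 11 a b c B m ∈ bx.F11 ∨ tup5 (cd 13 a b c B m) (cd 7 a b c B m) (cd 5 a b c B m)
      (cd 8 a b c B m) (cd 11 a b c B m) ∈ G := by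
  unfold l11b at h
  cases hm : memN (cd 11 a b c B m) bx.F11 with
  | true => exact Or.inl (memN_spec hm)
  | false =>
    rw [hm] at h
    right
    have h1 := allL_spec h _ g13
    unfold l11c at h1
    have c1 : (nat_lit 0) = cd 1 a b c B m := (cd_one a b c B m).symm
    rw [c1] at h1
    have h2 := hE.r616n.chk hH.r616n (dvd_refl _) (dvd_refl _) (dvd_refl _) (by norm_num) h1
    have h3 := hE.r143m.chk hH.r143m (dvd_refl _) (dvd_refl _) (dvd_refl _) (by norm_num) h2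
    have h4 := allL_spec h3 _ g5
    unfold l11d at h4
    rw [c1] at h4
    have h5 := hE.r143n.chk hH.r143n (dvd_refl _) (dvd_refl _) (dvd_refl _) (by norm_num) h4
    have h6 := hE.r572.chk hH.r572 (dvd_refl _) (dvd_refl _) (by norm_num) (by norm_num) h5
    have h7 := hE.r715.chk hH.r715 (dvd_refl _) (dvd_refl _) (dvd_refl _) (by norm_num) h6
    exact memN_spec h7

/-- **the step to 11** -/
theorem chk11_spec (hE : E11OK E) (hH : E11H E a b c B m) (hcl : Cl a b c B m)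
    (had : adP 11 (rs 11 m) (rs 11 B) (rs 11 (-1)) = true) {BS : List Bx} {K Bs : List ℕ}
    (hB : rs 11 B ∈ Bs) {ib : ℕ} (hib : ib < BS.length)
    (hK : pk (cd 7 a b c B m) (pk (cd 8 a b c B m) ib) ∈ K)
    (g13 : cd 13 a b c B m ∈ BS[ib].F13) (g5 : cd 5 a b c B m ∈ BS[ib].F5)
    (h : chk11 E G BS K Bs = true) :
    cd 11 a b c B m ∈ BS[ib].F11 ∨ tup5 (cd 13 a b c B m) (cd 7 a b c B m) (cd 5 a b c B m)
      (cd 8 a b c B m) (cd 11 a b c B m) ∈ G := by
  unfold chk11 at h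
  rw [mkL5_eq, mkL5_eq, mkL5_eq] at h
  have h1 := wB_spec (by norm_num) hcl had (allL_spec h _ hB)
  unfold l11w at h1
  rw [strict_eq] at h1
  have h7 := cd_lt (n := 7) (by norm_num) a b c B m
  have h8 := cd_lt (n := 8) (by norm_num) a b c B m
  obtain ⟨i, hi, hx⟩ := List.mem_iff_getElem.1 hK
  have e2 : lo K[i] = cd 7 a b c B m := by rw [hx, lo_pk h7]
  have e3 : (fun x => lo (S7.hi x)) K[i] = cd 8 a b c B m := by
    change lo (S7.hi K[i]) = _
    rw [hx, hi_pk h7, lo_pk h8]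
  have e0 : (fun _ : ℕ => (0 : ℕ)) K[i] = cd 1 a b c B m := (cd_one a b c B m).symm
  have b1 := hE.r88.FL hE.x88 hE.p88 hH.r88 (by norm_num) (dvd_refl 8) (dvd_refl 1)
    lok11 (k2 := fun x => lo (S7.hi x)) (k3 := fun _ => 0) hi e3 e0
  have b2 := hE.r616.FL hE.x616 hE.p616 hH.r616 (by norm_num) (dvd_refl 7) (dvd_refl 8)
    lok11 (k2 := lo) (k3 := fun x => lo (S7.hi x)) hi e2 e3
  have b3 := hE.r308.FK hE.x308 hE.p308 hH.r308 (by norm_num) (dvd_refl 7)
    (show 4 ∣ 8 by norm_num) lok7 (k2 := lo) (k3 := fun x => lo (S7.hi x)) (kl := lo) hi e2 e3 e2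
  have b5 := land_bit b1 (land_bit b2 b3)
  have b4 := ne_zero_of_bit b5
  erw [b4] at h1
  simp only [strict_eq] at h1
  have h2 := enumT_spec h1 i hi b5
  unfold l11l at h2
  simp only [strict_eq] at h2
  have e1 : nthN K i = pk (cd 7 a b c B m) (pk (cd 8 a b c B m) ib) := by
    rw [nthN_eq hi, hx]
  rw [e1, lo_pk h7, hi_pk h7, lo_pk h8, hi_pk h8, nthA_eq _ hib] at h2
  exact l11b_spec hE hH g13 g5 h2

end Spec11

/-! ### lanes -/

/-- the lanes of the boxes -/
def lanesF (f : Bx → ℕ → List ℕ) (BS : List Bx) : ℕ → List ℕ :=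
  @List.rec Bx (fun _ => ℕ → List ℕ) (fun _ => [])
    (fun b _ ih i => f b i ++ ih (Nat.succ i)) BS

lemma mem_lanesF {f : Bx → ℕ → List ℕ} {BS : List Bx} {i j x : ℕ} (hj : j < BS.length)
    (hx : x ∈ f BS[j] (i + j)) : x ∈ lanesF f BS i := by
  induction BS generalizing i j with
  | nil => simp at hj
  | cons b bs ih =>
    have e : lanesF f (b :: bs) i = f b i ++ lanesF f bs (i + 1) := rfl
    rw [e, List.mem_append]
    cases j with
    | zero => exact Or.inl hx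
    | succ j =>
      right
      apply ih (j := j) (by simpa using hj)
      have : i + 1 + j = i + (j + 1) := by omega
      rw [this]
      exact hx

/-- check at 11 with the lanes of the boxes -/
def chk11c (E : E11) (G : List ℕ) (BS : List Bx) (Bs : List ℕ) : Bool :=
  mapS (fun x => x) (lanesF (fun b i => prodN b.F7 (prodN b.F8 [i])) BS (nat_lit 0)) fun K =>
    chk11 E G BS K Bs

/-- check of the families at 17 with the lanes of the boxes -/
def chk17c (E : E17) (G : List ℕ) (BS : List Bx) (Bs : List ℕ) : Bool :=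
  mapS (fun x => x) (lanesF (fun b i => prodN b.F11 [i]) BS (nat_lit 0)) fun K =>
    chk17 E G BS K Bs

/-- the classes lie in a box -/
structure InB (bx : Bx) (a b c B m : ℤ) : Prop where
  h13 : cd 13 a b c B m ∈ bx.F13
  h7 : cd 7 a b c B m ∈ bx.F7
  h5 : cd 5 a b c B m ∈ bx.F5
  h8 : cd 8 a b c B m ∈ bx.F8

theorem chk11c_spec {E : E11} {a b c B m : ℤ} {G : List ℕ} (hE : E11OK E)
    (hH : E11H E a b c B m) (hcl : Cl a b c B m)
    (had : adP 11 (rs 11 m) (rs 11 B) (rs 11 (-1)) = true) {BS : List Bx}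
    (h : ∀ x < 11, ∃ Bs, x ∈ Bs ∧ chk11c E G BS Bs = true)
    {bx : Bx} (hbx : bx ∈ BS) (hin : InB bx a b c B m) :
    cd 11 a b c B m ∈ bx.F11 ∨ tup5 (cd 13 a b c B m) (cd 7 a b c B m) (cd 5 a b c B m)
      (cd 8 a b c B m) (cd 11 a b c B m) ∈ G := by
  obtain ⟨i, hi, rfl⟩ := List.mem_iff_getElem.1 hbx
  obtain ⟨Bs, hB, h1⟩ := h _ (rs_lt B)
  unfold chk11c at h1
  rw [mapS_eq, List.map_id'] at h1
  refine chk11_spec hE hH hcl had hB hi ?_ hin.h13 hin.h5 h1
  apply mem_lanesF hi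
  rw [Nat.zero_add]
  exact mem_prodN hin.h7 (mem_prodN hin.h8 (List.mem_singleton.2 rfl))

theorem chk17c_spec {E : E17} {a b c B m : ℤ} {G : List ℕ} (hE : E17OK E)
    (hH : E17H E a b c B m) (hcl : Cl a b c B m)
    (had : adP 17 (rs 17 m) (rs 17 B) (rs 17 (-1)) = true) {BS : List Bx}
    (h : ∀ x < 17, ∃ Bs, x ∈ Bs ∧ chk17c E G BS Bs = true)
    {bx : Bx} (hbx : bx ∈ BS) (hin : InB bx a b c B m) (h11 : cd 11 a b c B m ∈ bx.F11) :
    tup (cd 13 a b c B m) (cd 7 a b c B m) (cd 5 a b c B m) (cd 8 a b c B m)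
      (cd 11 a b c B m) (cd 17 a b c B m) ∈ G := by
  obtain ⟨i, hi, rfl⟩ := List.mem_iff_getElem.1 hbx
  obtain ⟨Bs, hB, h1⟩ := h _ (rs_lt B)
  unfold chk17c at h1
  rw [mapS_eq, List.map_id'] at h1
  refine chk17_spec hE hH hcl had hB hi ?_ hin.h13 hin.h7 hin.h5 hin.h8 h1
  apply mem_lanesF hi
  rw [Nat.zero_add]
  exact mem_prodN h11 (List.mem_singleton.2 rfl)

/-! ### step 17, single classes -/

/-- a single class -/
def g17t (E : E17) (G : List ℕ) (k17 k11 x : ℕ) : Bool :=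
  strict (lo x) fun k13 => strict (lo (hi x)) fun k7 => strict (lo (hi (hi x))) fun k5 =>
  strict (hi (hi (hi x))) fun k8 =>
  chkS E.r520 (nat_lit 13) (nat_lit 5) (nat_lit 8) k13 k5 k8 k17
  (chkS E.r680a (nat_lit 17) (nat_lit 5) (nat_lit 8) k17 k5 k8 k17
  (chkS E.r680b (nat_lit 17) (nat_lit 5) (nat_lit 8) k17 k5 k8 k17
  (chkS E.r680n (nat_lit 17) (nat_lit 5) (nat_lit 8) k17 k5 k8 k13
  (chkS E.r221 (nat_lit 17) (nat_lit 13) (nat_lit 1) k17 k13 (nat_lit 0) k5
    (l17d E G k17 k11 k5 k8 k13 k7)))))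

/-- a lane -/
def g17l (E : E17) (G : List ℕ) (GS : List (List ℕ)) (K : List ℕ) (k17 i : ℕ) : Bool :=
  strict (nthN K i) fun k11 => allL (g17t E G k17 k11) (nthA [] GS i)

/-- check of a class modulo 17 -/
def g17w (E : E17) (G : List ℕ) (GS : List (List ℕ)) (K : List ℕ) (Sa Sb : L5) : CB :=
  fun B m a b c m2 m3 q0 q1 q2 q3 q4 A0 A1 A2 A3 =>
  strict (Nat.land
    (msk (nat_lit 17) K.length (FL E.r187a Sa m m2 m3 q0 q1 q2 q3 q4 A0 A1 A2 A3))
    (msk (nat_lit 17) K.length (FL E.r187b Sb m m2 m3 q0 q1 q2 q3 q4 A0 A1 A2 A3))) fun M =>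
  @Bool.rec (fun _ => Bool)
    (strict (ck (nat_lit 17) a b c B m) fun k17 =>
      enumT (g17l E G GS K k17) K.length M)
    true (Nat.beq M (nat_lit 0))

/-- **check of the single classes at 17** -/
def chkG17 (E : E17) (G : List ℕ) (GS : List (List ℕ)) (K Bs : List ℕ) : Bool :=
  mkL5 (fun j x => ld E.r187a (nat_lit 11) (nat_lit 1) x (nat_lit 0) j) K fun Sa =>
  mkL5 (fun j x => ld E.r187b (nat_lit 11) (nat_lit 1) x (nat_lit 0) j) K fun Sb =>
    allL (wB (nat_lit 17) (nat_lit 15) PT17 (g17w E G GS K Sa Sb)) Bs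

section SpecG17

variable {E : E17} {a b c B m : ℤ} {G : List ℕ}

/-- code of a quadruple -/
def tup4 (k13 k7 k5 k8 : ℕ) : ℕ := pk k13 (pk k7 (pk k5 k8))

lemma g17t_spec (hE : E17OK E) (hH : E17H E a b c B m)
    (h : g17t E G (cd 17 a b c B m) (cd 11 a b c B m) (tup4 (cd 13 a b c B m)
      (cd 7 a b c B m) (cd 5 a b c B m) (cd 8 a b c B m)) = true) :
    tup (cd 13 a b c B m) (cd 7 a b c B m) (cd 5 a b c B m) (cd 8 a b c B m)
      (cd 11 a b c B m) (cd 17 a b c B m) ∈ G := by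
  unfold g17t tup4 at h
  simp only [strict_eq] at h
  have h13 := cd_lt (n := 13) (by norm_num) a b c B m
  have h7 := cd_lt (n := 7) (by norm_num) a b c B m
  have h5 := cd_lt (n := 5) (by norm_num) a b c B m
  rw [lo_pk h13, hi_pk h13, lo_pk h7, hi_pk h7, lo_pk h5, hi_pk h5] at h
  have c1 : (nat_lit 0) = cd 1 a b c B m := (cd_one a b c B m).symm
  rw [c1] at h
  have h1 := hE.r520.chk hH.r520 (dvd_refl _) (dvd_refl _) (dvd_refl _) (by norm_num) h
  have h2 := hE.r680a.chk hH.r680a (dvd_refl _) (dvd_refl _) (dvd_refl _) (by norm_num) h1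
  have h3 := hE.r680b.chk hH.r680b (dvd_refl _) (dvd_refl _) (dvd_refl _) (by norm_num) h2
  have h4 := hE.r680n.chk hH.r680n (dvd_refl _) (dvd_refl _) (dvd_refl _) (by norm_num) h3
  have h6 := hE.r221.chk hH.r221 (dvd_refl _) (dvd_refl _) (dvd_refl _) (by norm_num) h4
  exact l17d_spec hE hH h6

/-- **single classes at 17** -/
theorem chkG17_spec (hE : E17OK E) (hH : E17H E a b c B m) (hcl : Cl a b c B m)
    (had : adP 17 (rs 17 m) (rs 17 B) (rs 17 (-1)) = true) {GS : List (List ℕ)} {K Bs : List ℕ}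
    (hB : rs 17 B ∈ Bs) {i : ℕ} (hi : i < K.length) (hi2 : i < GS.length)
    (hx : K[i] = cd 11 a b c B m)
    (hg : tup4 (cd 13 a b c B m) (cd 7 a b c B m) (cd 5 a b c B m) (cd 8 a b c B m) ∈ GS[i])
    (h : chkG17 E G GS K Bs = true) :
    tup (cd 13 a b c B m) (cd 7 a b c B m) (cd 5 a b c B m) (cd 8 a b c B m)
      (cd 11 a b c B m) (cd 17 a b c B m) ∈ G := by
  unfold chkG17 at h
  rw [mkL5_eq, mkL5_eq] at h
  have h1 := wB_spec (by norm_num) hcl had (allL_spec h _ hB)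
  unfold g17w at h1
  rw [strict_eq] at h1
  have e3 : (fun _ : ℕ => (0 : ℕ)) K[i] = cd 1 a b c B m := (cd_one a b c B m).symm
  have b1 := hE.r187a.FL hE.x187a hE.p187a hH.r187a (by norm_num) (dvd_refl 11) (dvd_refl 1)
    lok17 (k2 := fun x => x) (k3 := fun _ => 0) hi hx e3
  have b2 := hE.r187b.FL hE.x187b hE.p187b hH.r187b (by norm_num) (dvd_refl 11) (dvd_refl 1)
    lok17 (k2 := fun x => x) (k3 := fun _ => 0) hi hx e3
  have b3 := land_bit b1 b2
  have b4 := ne_zero_of_bit b3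
  erw [b4] at h1
  simp only [strict_eq] at h1
  have h2 := enumT_spec h1 i hi b3
  unfold g17l at h2
  simp only [strict_eq] at h2
  have e1 : nthN K i = cd 11 a b c B m := by rw [nthN_eq hi, hx]
  rw [e1, nthA_eq _ hi2] at h2
  exact g17t_spec hE hH (allL_spec h2 _ hg)

/-- location of a quintuple: `i` counts the classes modulo 11 -/
def locG (k11 t4 : ℕ) (K : List ℕ) : List (List ℕ) → Bool :=
  @List.rec ℕ (fun _ => List (List ℕ) → Bool) (fun _ => false)
    (fun x _ ih GS => @List.rec (List ℕ) (fun _ => Bool) false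
      (fun g gs _ => @Bool.rec (fun _ => Bool) (ih gs) (memN t4 g) (Nat.beq x k11)) GS) K

lemma locG_spec {k11 t4 : ℕ} {K : List ℕ} {GS : List (List ℕ)} (h : locG k11 t4 K GS = true) :
    ∃ (i : ℕ) (hi : i < K.length) (hi2 : i < GS.length), K[i] = k11 ∧ t4 ∈ GS[i] := by
  induction K generalizing GS with
  | nil => exact absurd h (by simp [locG])
  | cons x xs ih =>
    cases GS with
    | nil => exact absurd h (by simp [locG])
    | cons g gs =>
      have h' : @Bool.rec (fun _ => Bool) (locG k11 t4 xs gs) (memN t4 g) (Nat.beq x k11) = true :=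
        h
      cases hb : Nat.beq x k11 with
      | true =>
        rw [hb] at h'
        exact ⟨0, by simp, by simp, Nat.eq_of_beq_eq_true hb, memN_spec h'⟩
      | false =>
        rw [hb] at h'
        obtain ⟨i, hi, hi2, h1, h2⟩ := ih h'
        exact ⟨i + 1, by simpa using hi, by simpa using hi2, h1, h2⟩

/-- fourth component -/
def h4 (x : ℕ) : ℕ := lo (hi (hi (hi x)))

/-- the quintuples are located -/
def locA (K : List ℕ) (GS : List (List ℕ)) (G : List ℕ) : Bool :=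
  allL (fun t => strict (lo t) fun k13 => strict (lo (hi t)) fun k7 =>
    strict (lo (hi (hi t))) fun k5 => strict (h4 t) fun k8 =>
    strict (hi (hi (hi (hi t)))) fun k11 => strict (tup4 k13 k7 k5 k8) fun t4 =>
      locG k11 t4 K GS) G

lemma locA_spec {K : List ℕ} {GS : List (List ℕ)} {G : List ℕ} (h : locA K GS G = true)
    (hG : tup5 (cd 13 a b c B m) (cd 7 a b c B m) (cd 5 a b c B m)
      (cd 8 a b c B m) (cd 11 a b c B m) ∈ G) :
    ∃ (i : ℕ) (hi : i < K.length) (hi2 : i < GS.length), K[i] = cd 11 a b c B m ∧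
      tup4 (cd 13 a b c B m) (cd 7 a b c B m) (cd 5 a b c B m) (cd 8 a b c B m) ∈ GS[i] := by
  have h13 := cd_lt (n := 13) (by norm_num) a b c B m
  have h7 := cd_lt (n := 7) (by norm_num) a b c B m
  have h5 := cd_lt (n := 5) (by norm_num) a b c B m
  have h8 := cd_lt (n := 8) (by norm_num) a b c B m
  have h1 := allL_spec h _ hG
  simp only [strict_eq] at h1
  unfold tup5 at h1
  have e : h4 (pk (cd 13 a b c B m) (pk (cd 7 a b c B m) (pk (cd 5 a b c B m)
      (pk (cd 8 a b c B m) (cd 11 a b c B m))))) = cd 8 a b c B m := by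
    unfold h4
    rw [hi_pk h13, hi_pk h7, hi_pk h5, lo_pk h8]
  rw [e, lo_pk h13, hi_pk h13, lo_pk h7, hi_pk h7, lo_pk h5, hi_pk h5, hi_pk h8] at h1
  exact locG_spec h1

/-- **single classes at 17**, from the list of the quintuples -/
theorem chkG17_of (hE : E17OK E) (hH : E17H E a b c B m) (hcl : Cl a b c B m)
    (had : adP 17 (rs 17 m) (rs 17 B) (rs 17 (-1)) = true) {GS : List (List ℕ)} {K G5 : List ℕ}
    (hl : locA K GS G5 = true)
    (h : ∀ x < 17, ∃ Bs, x ∈ Bs ∧ chkG17 E G GS K Bs = true)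
    (hG : tup5 (cd 13 a b c B m) (cd 7 a b c B m) (cd 5 a b c B m)
      (cd 8 a b c B m) (cd 11 a b c B m) ∈ G5) :
    tup (cd 13 a b c B m) (cd 7 a b c B m) (cd 5 a b c B m) (cd 8 a b c B m)
      (cd 11 a b c B m) (cd 17 a b c B m) ∈ G := by
  obtain ⟨i, hi, hi2, h1, h2⟩ := locA_spec hl hG
  obtain ⟨Bs, hB, h3⟩ := h _ (rs_lt B)
  exact chkG17_spec hE hH hcl had hB hi hi2 h1 h2 h3

end SpecG17

end Pool.Agent.LibH4.S7
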