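import Pool.Agent.Lib_helper4.S7.Enum2

/-!
Period seven: the step to the prime `17` for the families.
-/

namespace Pool.Agent.LibH4.S7

open Pool.Agent.Lib_helper5 Pool.Agent.Lib_helper5.LK Pool.Agent.Lib_helper5.TB
  Pool.Agent.Lib_helper5.Lane Pool.Agent.LibH4.Ker

/-! ### relations with known components -/

/-- the components of a relation -/
structure RC (r : Rl) (n1 n2 n3 l : ℕ) : Prop where
  e1 : r.n1 = n1
  e2 : r.n2 = n2
  e3 : r.n3 = n3
  el : r.l = l
  h3 : r.len3 < 256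

section RC

variable {r : Rl} {n1 n2 n3 l : ℕ} {a b c B m : ℤ}

theorem RC.chk (rc : RC r n1 n2 n3 l) (h : Holds r a b c B m) {N1 N2 N3 : ℕ}
    [NeZero n1] [NeZero n2] [NeZero n3] [NeZero l] [NeZero N1] [NeZero N2] [NeZero N3]
    (h1 : n1 ∣ N1) (h2 : n2 ∣ N2) (h3 : n3 ∣ N3) (hl2 : l < 100) {k : Bool}
    (hc : chkS r N1 N2 N3 (cd N1 a b c B m) (cd N2 a b c B m) (cd N3 a b c B m)
      (cd l a b c B m) k = true) : k = true := by
  obtain ⟨rfl, rfl, rfl, rfl, _⟩ := rc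
  exact chkS_spec h h1 h2 h3 hl2 hc

theorem RC.FL (rc : RC r n1 n2 n3 n1) {ex PT : ℕ} (hex : r.ex1 = ex) (hPT : r.PT1 = PT)
    (h : Holds r a b c B m) (hn : 1 < n1) [NeZero n1] [NeZero n2] [NeZero n3] {N2 N3 : ℕ}
    [NeZero N2] [NeZero N3] (h2 : n2 ∣ N2) (h3 : n3 ∣ N3)
    (hl : LOK n1) {α : Type} {k2 k3 : α → ℕ} {K : List α} {i : ℕ} (hi : i < K.length)
    (e2 : k2 K[i] = cd N2 a b c B m) (e3 : k3 K[i] = cd N3 a b c B m) :
    (msk n1 K.length (FL r (L5of (fun j x => ld r N2 N3 (k2 x) (k3 x) j) K)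
      (rs n1 m) (rs n1 (y2 a B m)) (rs n1 (y3 a b B m))
      (qz n1 ex PT a b c B m 0) (qz n1 ex PT a b c B m 1)
      (qz n1 ex PT a b c B m 2) (qz n1 ex PT a b c B m 3)
      (qz n1 ex PT a b c B m 4)
      (rs n1 (-B)) (rs n1 (-(2 * a))) (rs n1 (-(2 * b))) (rs n1 (-(2 * c))))).testBit
        (24 * i + 15) = true := by
  obtain ⟨rfl, rfl, rfl, el, hr⟩ := rc
  subst hex hPT
  have : NeZero r.l := by rw [el]; infer_instance
  have hl' : LOK r.l := by rw [el]; exact hl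
  have := FL_bit h hn h2 h3 hr hl' hi e2 e3
  rw [el] at this
  exact this

theorem RC.FK (rc : RC r n1 n2 n3 l) {ex PT : ℕ} (hex : r.ex1 = ex) (hPT : r.PT1 = PT)
    (h : Holds r a b c B m) (hn : 1 < n1) [NeZero n1] [NeZero n2] [NeZero n3] [NeZero l]
    {N2 N3 : ℕ} [NeZero N2] [NeZero N3] (h2 : n2 ∣ N2) (h3 : n3 ∣ N3)
    (hl : LOK l) {α : Type} {k2 k3 kl : α → ℕ} {K : List α} {i : ℕ} (hi : i < K.length)
    (e2 : k2 K[i] = cd N2 a b c B m) (e3 : k3 K[i] = cd N3 a b c B m)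
    (e4 : kl K[i] = cd l a b c B m) :
    (msk l K.length (FK r (L5of (fun j x => ldK r N2 N3 (k2 x) (k3 x) (kl x) j) K)
      (rs n1 m) (rs n1 (y2 a B m)) (rs n1 (y3 a b B m))
      (qz n1 ex PT a b c B m 0) (qz n1 ex PT a b c B m 1)
      (qz n1 ex PT a b c B m 2) (qz n1 ex PT a b c B m 3)
      (qz n1 ex PT a b c B m 4))).testBit (24 * i + 15) = true := by
  obtain ⟨rfl, rfl, rfl, rfl, hr⟩ := rc
  subst hex hPT
  exact FK_bit h hn h2 h3 hr hl hi e2 e3 e4

end RC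

/-! ### packed codes -/

/-- pairs -/
def pk (x y : ℕ) : ℕ := Nat.add x (Nat.mul (nat_lit 16777216) y)
/-- first component -/
def lo (x : ℕ) : ℕ := Nat.mod x (nat_lit 16777216)
/-- second component -/
def hi (x : ℕ) : ℕ := Nat.div x (nat_lit 16777216)

lemma lo_pk {x y : ℕ} (h : x < 16777216) : lo (pk x y) = x := by
  change (x + 16777216 * y) % 16777216 = x
  omega

lemma hi_pk {x y : ℕ} (h : x < 16777216) : hi (pk x y) = y := by
  change (x + 16777216 * y) / 16777216 = y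
  omega

/-- products -/
def prodN (F G : List ℕ) : List ℕ := G.flatMap fun y => F.map fun x => pk x y

lemma mem_prodN {F G : List ℕ} {x y : ℕ} (hx : x ∈ F) (hy : y ∈ G) : pk x y ∈ prodN F G := by
  unfold prodN
  rw [List.mem_flatMap]
  exact ⟨y, hy, List.mem_map_of_mem hx⟩

lemma cd_lt {n : ℕ} [NeZero n] (hn : n ≤ 19) (a b c B m : ℤ) :
    cd n a b c B m < 16777216 := by
  have h1 := rs_lt (p := n) a
  have h2 := rs_lt (p := n) b
  have h3 := rs_lt (p := n) c
  have h4 := rs_lt (p := n) B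
  have h5 := rs_lt (p := n) m
  have key : ∀ x y M : ℕ, x < n → y < M → x + n * y < 19 * M := by
    intro x y M hx hy
    have h1 : x + n * y < n * (y + 1) := by
      have : n * (y + 1) = n * y + n := by ring
      omega
    have h2 : n * (y + 1) ≤ 19 * M := Nat.mul_le_mul hn (by omega)
    omega
  unfold cd
  have g5 : rs n m < 19 := by omega
  have g4 := key _ _ _ h4 g5
  have g3 := key _ _ _ h3 g4
  have g2 := key _ _ _ h2 g3
  have g1 := key _ _ _ h1 g2
  omega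

/-- code of a tuple -/
def tup (k13 k7 k5 k8 k11 k17 : ℕ) : ℕ := pk k13 (pk k7 (pk k5 (pk k8 (pk k11 k17))))

/-- forced evaluation of mapped lists, continuation form -/
def mapC {α β γ : Type} (f : α → (β → γ) → γ) (L : List α) : (List β → γ) → γ :=
  @List.rec α (fun _ => (List β → γ) → γ) (fun k => k [])
    (fun x _ ih k => f x fun y => ih fun rest => k (y :: rest)) L

lemma mapC_eq {α β γ : Type} {f : α → (β → γ) → γ} {g : α → β} (h : ∀ x k, f x k = k (g x))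
    (L : List α) (k : List β → γ) : mapC f L k = k (L.map g) := by
  induction L generalizing k with
  | nil => rfl
  | cons x xs ih =>
    have e : mapC f (x :: xs) k = f x fun y => mapC f xs fun rest => k (y :: rest) := rfl
    rw [e, h, ih]
    rfl

/-- lookup -/
def nthA {α : Type} (d : α) (L : List α) (i : ℕ) : α :=
  @List.rec α (fun _ => ℕ → α) (fun _ => d)
    (fun x _ ih i => @Nat.rec (fun _ => α) x (fun j _ => ih j) i) L i

lemma nthA_eq {α : Type} (d : α) {L : List α} {i : ℕ} (h : i < L.length) : nthA d L i = L[i] := by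
  induction L generalizing i with
  | nil => simp at h
  | cons x xs ih =>
    cases i with
    | zero => rfl
    | succ i => exact ih (by simpa using h)

/-! ### step 17, families -/

/-- relations of the step -/
structure E17 where
  /-- relation -/
  r187a : Rl
  /-- relation -/
  r187b : Rl
  /-- relation -/
  r680a : Rl
  /-- relation -/
  r680b : Rl
  /-- relation -/
  r520 : Rl
  /-- relation -/
  r680n : Rl
  /-- relation -/
  r221 : Rl
  /-- relation -/
  r119n : Rl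
  /-- relation -/
  r119m : Rl
  /-- relation -/
  r595a : Rl
  /-- relation -/
  r595b : Rl
  /-- relation -/
  r935 : Rl

/-- the components -/
structure E17OK (E : E17) : Prop where
  r187a : RC E.r187a 17 11 1 17
  r187b : RC E.r187b 17 11 1 17
  r680a : RC E.r680a 17 5 8 17
  r680b : RC E.r680b 17 5 8 17
  r520 : RC E.r520 13 5 8 17
  r680n : RC E.r680n 17 5 8 13
  r221 : RC E.r221 17 13 1 5
  r119n : RC E.r119n 17 7 1 13
  r119m : RC E.r119m 17 7 1 5
  r595a : RC E.r595a 17 7 5 13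
  r595b : RC E.r595b 17 7 5 13
  r935 : RC E.r935 17 11 5 7
  x187a : E.r187a.ex1 = 15
  x187b : E.r187b.ex1 = 15
  x680a : E.r680a.ex1 = 15
  x680b : E.r680b.ex1 = 15
  p187a : E.r187a.PT1 = PT17
  p187b : E.r187b.PT1 = PT17
  p680a : E.r680a.PT1 = PT17
  p680b : E.r680b.PT1 = PT17

/-- the relations hold -/
structure E17H (E : E17) (a b c B m : ℤ) : Prop where
  r187a : Holds E.r187a a b c B m
  r187b : Holds E.r187b a b c B m
  r680a : Holds E.r680a a b c B m
  r680b : Holds E.r680b a b c B m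
  r520 : Holds E.r520 a b c B m
  r680n : Holds E.r680n a b c B m
  r221 : Holds E.r221 a b c B m
  r119n : Holds E.r119n a b c B m
  r119m : Holds E.r119m a b c B m
  r595a : Holds E.r595a a b c B m
  r595b : Holds E.r595b a b c B m
  r935 : Holds E.r935 a b c B m

/-- a box of classes modulo `13`, `7`, `5`, `8` -/
structure Bx where
  /-- modulo 13 -/
  F13 : List ℕ
  /-- modulo 7 -/
  F7 : List ℕ
  /-- modulo 5 -/
  F5 : List ℕ
  /-- modulo 8 -/
  F8 : List ℕ
  /-- modulo 11 -/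
  F11 : List ℕ

/-- prepared data of a box -/
structure Dx where
  /-- pairs of classes modulo 5 and 8 -/
  K : List ℕ
  /-- data -/
  Sa : L5
  /-- data -/
  Sb : L5

/-- the prepared data -/
def dxOf (E : E17) (bx : Bx) : Dx :=
  ⟨prodN bx.F5 bx.F8,
    L5of (fun j x => ld E.r680a 5 8 (lo x) (hi x) j) (prodN bx.F5 bx.F8),
    L5of (fun j x => ld E.r680b 5 8 (lo x) (hi x) j) (prodN bx.F5 bx.F8)⟩

/-- preparation -/
def prep {β : Type} (E : E17) (bx : Bx) (k : Dx → β) : β :=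
  mapS (fun x => x) (prodN bx.F5 bx.F8) fun K =>
  mkL5 (fun j x => ld E.r680a (nat_lit 5) (nat_lit 8) (lo x) (hi x) j) K fun Sa =>
  mkL5 (fun j x => ld E.r680b (nat_lit 5) (nat_lit 8) (lo x) (hi x) j) K fun Sb =>
    k ⟨K, Sa, Sb⟩

lemma prep_eq {β : Type} (E : E17) (bx : Bx) (k : Dx → β) : prep E bx k = k (dxOf E bx) := by
  unfold prep
  rw [mapS_eq, mkL5_eq, mkL5_eq, List.map_id']
  rfl

/-- last level -/
def l17d (E : E17) (G : List ℕ) (k17 k11 k5 k8 k13 k7 : ℕ) : Bool :=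
  chkS E.r119n (nat_lit 17) (nat_lit 7) (nat_lit 1) k17 k7 (nat_lit 0) k13
  (chkS E.r119m (nat_lit 17) (nat_lit 7) (nat_lit 1) k17 k7 (nat_lit 0) k5
  (chkS E.r595a (nat_lit 17) (nat_lit 7) (nat_lit 5) k17 k7 k5 k13
  (chkS E.r595b (nat_lit 17) (nat_lit 7) (nat_lit 5) k17 k7 k5 k13
  (chkS E.r935 (nat_lit 17) (nat_lit 11) (nat_lit 5) k17 k11 k5 k7
    (memN (tup k13 k7 k5 k8 k11 k17) G)))))

/-- level of the classes modulo 13 -/
def l17c (E : E17) (G F7 : List ℕ) (k17 k11 k5 k8 k13 : ℕ) : Bool :=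
  chkS E.r520 (nat_lit 13) (nat_lit 5) (nat_lit 8) k13 k5 k8 k17
  (chkS E.r680n (nat_lit 17) (nat_lit 5) (nat_lit 8) k17 k5 k8 k13
  (chkS E.r221 (nat_lit 17) (nat_lit 13) (nat_lit 1) k17 k13 (nat_lit 0) k5
    (allL (l17d E G k17 k11 k5 k8 k13) F7)))

/-- a pair of classes modulo 5 and 8 -/
def l17b (E : E17) (G F13 F7 K : List ℕ) (k17 k11 i : ℕ) : Bool :=
  strict (nthN K i) fun x =>
  strict (lo x) fun k5 => strict (hi x) fun k8 => allL (l17c E G F7 k17 k11 k5 k8) F13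

/-- a class modulo 11 -/
def l17a (E : E17) (G : List ℕ) (bx : Bx) (D : Dx)
    (k17 k11 m m2 m3 q0 q1 q2 q3 q4 A0 A1 A2 A3 : ℕ) : Bool :=
  strict (Nat.land
    (msk (nat_lit 17) D.K.length (FL E.r680a D.Sa m m2 m3 q0 q1 q2 q3 q4 A0 A1 A2 A3))
    (msk (nat_lit 17) D.K.length (FL E.r680b D.Sb m m2 m3 q0 q1 q2 q3 q4 A0 A1 A2 A3))) fun M =>
  enumT (l17b E G bx.F13 bx.F7 D.K k17 k11) D.K.length M

/-- a lane -/
def l17l (E : E17) (G : List ℕ) (BS : List Bx) (DS : List Dx) (K : List ℕ)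
    (k17 m m2 m3 q0 q1 q2 q3 q4 A0 A1 A2 A3 i : ℕ) : Bool :=
  strict (nthN K i) fun x => strict (lo x) fun k11 => strict (hi x) fun ib =>
    l17a E G (nthA ⟨[], [], [], [], []⟩ BS ib)
      (nthA ⟨[], ⟨[], [], [], [], []⟩, ⟨[], [], [], [], []⟩⟩ DS ib)
      k17 k11 m m2 m3 q0 q1 q2 q3 q4 A0 A1 A2 A3

/-- check of a class modulo 17 -/
def l17w (E : E17) (G : List ℕ) (BS : List Bx) (DS : List Dx) (K : List ℕ) (Sa Sb : L5) : CB :=
  fun B m a b c m2 m3 q0 q1 q2 q3 q4 A0 A1 A2 A3 =>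
  strict (Nat.land
    (msk (nat_lit 17) K.length (FL E.r187a Sa m m2 m3 q0 q1 q2 q3 q4 A0 A1 A2 A3))
    (msk (nat_lit 17) K.length (FL E.r187b Sb m m2 m3 q0 q1 q2 q3 q4 A0 A1 A2 A3))) fun M =>
  @Bool.rec (fun _ => Bool)
    (strict (ck (nat_lit 17) a b c B m) fun k17 =>
      enumT (l17l E G BS DS K k17 m m2 m3 q0 q1 q2 q3 q4 A0 A1 A2 A3) K.length M)
    true (Nat.beq M (nat_lit 0))

/-- **check of the families at 17** -/
def chk17 (E : E17) (G : List ℕ) (BS : List Bx) (K Bs : List ℕ) : Bool :=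
  mapC (prep E) BS fun DS =>
  mkL5 (fun j x => ld E.r187a (nat_lit 11) (nat_lit 1) (lo x) (nat_lit 0) j) K fun Sa =>
  mkL5 (fun j x => ld E.r187b (nat_lit 11) (nat_lit 1) (lo x) (nat_lit 0) j) K fun Sb =>
    allL (wB (nat_lit 17) (nat_lit 15) PT17 (l17w E G BS DS K Sa Sb)) Bs

lemma land_bit {x y i : ℕ} (hx : x.testBit i = true) (hy : y.testBit i = true) :
    (Nat.land x y).testBit i = true := by
  change (x &&& y).testBit i = true
  rw [Nat.testBit_and, hx, hy]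
  rfl

lemma ne_zero_of_bit {x i : ℕ} (hx : x.testBit i = true) : Nat.beq x (nat_lit 0) = false := by
  cases h : Nat.beq x (nat_lit 0) with
  | false => rfl
  | true =>
    have : x = 0 := Nat.eq_of_beq_eq_true h
    subst this
    simp at hx

lemma ck_eq {n : ℕ} (a b c B m : ℤ) :
    ck n (rs n a) (rs n b) (rs n c) (rs n B) (rs n m) = cd n a b c B m := rfl

section Spec17

variable {E : E17} {a b c B m : ℤ} {G : List ℕ}

lemma l17d_spec (hE : E17OK E) (hH : E17H E a b c B m)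
    (h : l17d E G (cd 17 a b c B m) (cd 11 a b c B m) (cd 5 a b c B m) (cd 8 a b c B m)
      (cd 13 a b c B m) (cd 7 a b c B m) = true) :
    tup (cd 13 a b c B m) (cd 7 a b c B m) (cd 5 a b c B m) (cd 8 a b c B m)
      (cd 11 a b c B m) (cd 17 a b c B m) ∈ G := by
  unfold l17d at h
  have c1 : (nat_lit 0) = cd 1 a b c B m := (cd_one a b c B m).symm
  rw [c1] at h
  have h1 := hE.r119n.chk hH.r119n (dvd_refl _) (dvd_refl _) (dvd_refl _) (by norm_num) h
  have h2 := hE.r119m.chk hH.r119m (dvd_refl _) (dvd_refl _) (dvd_refl _) (by norm_num) h1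
  have h3 := hE.r595a.chk hH.r595a (dvd_refl _) (dvd_refl _) (dvd_refl _) (by norm_num) h2
  have h4 := hE.r595b.chk hH.r595b (dvd_refl _) (dvd_refl _) (dvd_refl _) (by norm_num) h3
  have h5 := hE.r935.chk hH.r935 (dvd_refl _) (dvd_refl _) (dvd_refl _) (by norm_num) h4
  exact memN_spec h5

lemma l17c_spec (hE : E17OK E) (hH : E17H E a b c B m) {F7 : List ℕ}
    (g7 : cd 7 a b c B m ∈ F7)
    (h : l17c E G F7 (cd 17 a b c B m) (cd 11 a b c B m) (cd 5 a b c B m) (cd 8 a b c B m)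
      (cd 13 a b c B m) = true) :
    tup (cd 13 a b c B m) (cd 7 a b c B m) (cd 5 a b c B m) (cd 8 a b c B m)
      (cd 11 a b c B m) (cd 17 a b c B m) ∈ G := by
  unfold l17c at h
  have c1 : (nat_lit 0) = cd 1 a b c B m := (cd_one a b c B m).symm
  rw [c1] at h
  have h1 := hE.r520.chk hH.r520 (dvd_refl _) (dvd_refl _) (dvd_refl _) (by norm_num) h
  have h2 := hE.r680n.chk hH.r680n (dvd_refl _) (dvd_refl _) (dvd_refl _) (by norm_num) h1
  have h3 := hE.r221.chk hH.r221 (dvd_refl _) (dvd_refl _) (dvd_refl _) (by norm_num) h2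
  exact l17d_spec hE hH (allL_spec h3 _ g7)

lemma l17a_spec (hE : E17OK E) (hH : E17H E a b c B m) {bx : Bx}
    (g13 : cd 13 a b c B m ∈ bx.F13) (g7 : cd 7 a b c B m ∈ bx.F7)
    (g5 : cd 5 a b c B m ∈ bx.F5) (g8 : cd 8 a b c B m ∈ bx.F8)
    (h : l17a E G bx (dxOf E bx) (cd 17 a b c B m) (cd 11 a b c B m)
      (rs 17 m) (rs 17 (y2 a B m)) (rs 17 (y3 a b B m))
      (qz 17 15 PT17 a b c B m 0) (qz 17 15 PT17 a b c B m 1) (qz 17 15 PT17 a b c B m 2)
      (qz 17 15 PT17 a b c B m 3) (qz 17 15 PT17 a b c B m 4) (rs 17 (-B)) (rs 17 (-(2 * a)))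
      (rs 17 (-(2 * b))) (rs 17 (-(2 * c))) = true) :
    tup (cd 13 a b c B m) (cd 7 a b c B m) (cd 5 a b c B m) (cd 8 a b c B m)
      (cd 11 a b c B m) (cd 17 a b c B m) ∈ G := by
  unfold l17a at h
  rw [strict_eq] at h
  have h5 := cd_lt (n := 5) (by norm_num) a b c B m
  obtain ⟨i, hi, hx⟩ := List.mem_iff_getElem.1 (mem_prodN g5 g8)
  have e2 : lo (prodN bx.F5 bx.F8)[i] = cd 5 a b c B m := by rw [hx, lo_pk h5]
  have e3 : S7.hi (prodN bx.F5 bx.F8)[i] = cd 8 a b c B m := by rw [hx, hi_pk h5]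
  have b1 := hE.r680a.FL hE.x680a hE.p680a hH.r680a (by norm_num) (dvd_refl 5) (dvd_refl 8)
    lok17 (k2 := lo) (k3 := S7.hi) hi e2 e3
  have b2 := hE.r680b.FL hE.x680b hE.p680b hH.r680b (by norm_num) (dvd_refl 5) (dvd_refl 8)
    lok17 (k2 := lo) (k3 := S7.hi) hi e2 e3
  have h1 := enumT_spec h i hi (land_bit b1 b2)
  unfold l17b at h1
  simp only [strict_eq] at h1
  have e1 : nthN (dxOf E bx).K i = pk (cd 5 a b c B m) (cd 8 a b c B m) := by
    have : nthN (dxOf E bx).K i = (prodN bx.F5 bx.F8)[i] := nthN_eq hi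
    rw [this, hx]
  rw [e1, lo_pk h5, hi_pk h5] at h1
  exact l17c_spec hE hH g7 (allL_spec h1 _ g13)

/-- **families at 17** -/
theorem chk17_spec (hE : E17OK E) (hH : E17H E a b c B m) (hcl : Cl a b c B m)
    (had : adP 17 (rs 17 m) (rs 17 B) (rs 17 (-1)) = true) {BS : List Bx} {K Bs : List ℕ}
    (hB : rs 17 B ∈ Bs) {ib : ℕ} (hib : ib < BS.length)
    (hK : pk (cd 11 a b c B m) ib ∈ K)
    (g13 : cd 13 a b c B m ∈ BS[ib].F13) (g7 : cd 7 a b c B m ∈ BS[ib].F7)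
    (g5 : cd 5 a b c B m ∈ BS[ib].F5) (g8 : cd 8 a b c B m ∈ BS[ib].F8)
    (h : chk17 E G BS K Bs = true) :
    tup (cd 13 a b c B m) (cd 7 a b c B m) (cd 5 a b c B m) (cd 8 a b c B m)
      (cd 11 a b c B m) (cd 17 a b c B m) ∈ G := by
  unfold chk17 at h
  rw [mapC_eq (g := dxOf E) (fun x k => prep_eq E x k), mkL5_eq, mkL5_eq] at h
  have h1 := wB_spec (by norm_num) hcl had (allL_spec h _ hB)
  unfold l17w at h1
  rw [strict_eq] at h1
  have h11 := cd_lt (n := 11) (by norm_num) a b c B m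
  obtain ⟨i, hi, hx⟩ := List.mem_iff_getElem.1 hK
  have e2 : lo K[i] = cd 11 a b c B m := by rw [hx, lo_pk h11]
  have e3 : (fun _ : ℕ => (0 : ℕ)) K[i] = cd 1 a b c B m := (cd_one a b c B m).symm
  have b1 := hE.r187a.FL hE.x187a hE.p187a hH.r187a (by norm_num) (dvd_refl 11) (dvd_refl 1)
    lok17 (k2 := lo) (k3 := fun _ => 0) hi e2 e3
  have b2 := hE.r187b.FL hE.x187b hE.p187b hH.r187b (by norm_num) (dvd_refl 11) (dvd_refl 1)
    lok17 (k2 := lo) (k3 := fun _ => 0) hi e2 e3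
  have b3 := land_bit b1 b2
  have b4 := ne_zero_of_bit b3
  erw [b4] at h1
  simp only [strict_eq] at h1
  have h2 := enumT_spec h1 i hi b3
  unfold l17l at h2
  simp only [strict_eq] at h2
  have e1 : nthN K i = pk (cd 11 a b c B m) ib := by rw [nthN_eq hi, hx]
  rw [e1, lo_pk h11, hi_pk h11, nthA_eq _ hib, nthA_eq _ (by simpa using hib), List.getElem_map]
    at h2
  exact l17a_spec hE hH g13 g7 g5 g8 h2

end Spec17

end Pool.Agent.LibH4.S7
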